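import Pool.Agent.Helper24.ML.Defs

/-!
# Block NS: Nullstellensatz descent
-/

open Matrix

namespace Pool.Agent.H24ML

/-- Evaluation commutes with a change of the ring of coefficients. -/
theorem evalML_map' {K R S : Type*} [Field K] [CommRing R] [CommRing S] [Algebra K R]
    [Algebra K S] (f : R →ₐ[K] S) {m : ℕ} (c : Equiv.Perm (Fin m) → K) (x : Fin m → M3 R) :
    evalML S c (fun j => f.mapMatrix (x j)) = f.mapMatrix (evalML R c x) := by
  rw [evalML_apply, evalML_apply, map_sum]
  refine Finset.sum_congr rfl fun σ _ => ?_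
  have h1 : f.mapMatrix (algebraMap K R (c σ) • (List.ofFn fun k => x (σ k)).prod) =
      algebraMap K S (c σ) • f.mapMatrix (List.ofFn fun k => x (σ k)).prod := by
    ext a b
    simp only [AlgHom.mapMatrix_apply, Matrix.map_apply, Matrix.smul_apply, smul_eq_mul, map_mul,
      AlgHom.commutes]
  rw [h1, ← List.prod_hom, List.map_ofFn]
  rfl

/-- The ring of polynomials in the entries of `m` generic matrices. -/
abbrev GenRing (K : Type*) [Field K] (m : ℕ) : Type _ := MvPolynomial (Fin m × Fin 3 × Fin 3) K

/-- The equations `p(x) = A` for generic matrices `x`. -/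
noncomputable def genEq {K : Type*} [Field K] {m : ℕ} (c : Equiv.Perm (Fin m) → K) (A : M3 K) :
    M3 (GenRing K m) :=
  evalML (GenRing K m) c (fun j => Matrix.of fun a b => MvPolynomial.X (j, a, b)) -
    A.map (algebraMap K (GenRing K m))

theorem mapMatrix_genEq {K S : Type*} [Field K] {m : ℕ} (c : Equiv.Perm (Fin m) → K) (A : M3 K)
    [CommRing S] [Algebra K S] (f : GenRing K m →ₐ[K] S) :
    f.mapMatrix (genEq c A) = evalML S c (fun j => Matrix.of fun a b =>
      f (MvPolynomial.X (j, a, b))) - A.map (algebraMap K S) := by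
  have h1 : (fun j => (Matrix.of fun a b => f (MvPolynomial.X (j, a, b)) : M3 S)) =
      fun j => f.mapMatrix (Matrix.of fun a b => MvPolynomial.X (j, a, b) : M3 (GenRing K m)) := by
    funext j
    ext a b
    rfl
  rw [h1, evalML_map' f c, genEq, map_sub]
  congr 1
  ext a b
  simp

/-- Block NS. -/
theorem descend {K L : Type*} [Field K] [IsAlgClosed K] [Field L] [Algebra K L] {m : ℕ}
    (c : Equiv.Perm (Fin m) → K) (A : M3 K)
    (hL : ∃ x : Fin m → M3 L, evalML L c x = A.map (algebraMap K L)) :
    ∃ x : Fin m → M3 K, evalML K c x = A := by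
  obtain ⟨x, hx⟩ := hL
  let I : Ideal (GenRing K m) :=
    Ideal.span (Set.range fun q : Fin 3 × Fin 3 => genEq c A q.1 q.2)
  have hI : I ≠ ⊤ := by
    intro htop
    let φ : GenRing K m →ₐ[K] L := MvPolynomial.aeval fun q => x q.1 q.2.1 q.2.2
    have h1 : φ.mapMatrix (genEq c A) = 0 := by
      rw [mapMatrix_genEq c A φ]
      have h2 : (fun j => (Matrix.of fun a b => φ (MvPolynomial.X (j, a, b)) : M3 L)) = x := by
        funext j
        ext a b
        exact MvPolynomial.aeval_X _ _
      rw [h2, hx, sub_self]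
    have h3 : ∀ p ∈ I, φ p = 0 := by
      intro p hp
      induction hp using Submodule.span_induction with
      | mem p hp =>
        obtain ⟨q, rfl⟩ := hp
        exact congrFun (congrFun h1 q.1) q.2
      | zero => simp
      | add p p' _ _ hp hp' => rw [map_add, hp, hp', add_zero]
      | smul r p _ hp => rw [smul_eq_mul, map_mul, hp, mul_zero]
    have h4 := h3 1 (by rw [htop]; exact Submodule.mem_top)
    rw [map_one] at h4
    exact one_ne_zero h4
  have hne : (MvPolynomial.zeroLocus K I).Nonempty := by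
    by_contra he
    rw [Set.not_nonempty_iff_eq_empty] at he
    have h1 := MvPolynomial.vanishingIdeal_zeroLocus_eq_radical (K := K) I
    rw [he, MvPolynomial.vanishingIdeal_empty] at h1
    exact hI (Ideal.radical_eq_top.1 h1.symm)
  obtain ⟨y, hy⟩ := hne
  rw [MvPolynomial.mem_zeroLocus_iff] at hy
  let ψ : GenRing K m →ₐ[K] K := MvPolynomial.aeval y
  refine ⟨fun j => Matrix.of fun a b => ψ (MvPolynomial.X (j, a, b)), ?_⟩
  have h1 : ψ.mapMatrix (genEq c A) = 0 := by
    ext a b
    exact hy _ (Ideal.subset_span ⟨(a, b), rfl⟩)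
  rw [mapMatrix_genEq c A ψ, sub_eq_zero] at h1
  rw [h1]
  ext a b
  simp

end Pool.Agent.H24ML
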