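import Mathlib

/-! Kronecker substitution for multivariate polynomials. -/

namespace Pool.Agent.H24ML

open MvPolynomial

section Kron

variable {K : Type*} [Field K] {σ : Type*} [Fintype σ]

/-- the exponent of `X` in the Kronecker substitution of a monomial. -/
noncomputable def kexp (D : ℕ) (e : σ ≃ Fin (Fintype.card σ)) (m : σ →₀ ℕ) : ℕ :=
  ∑ k, m k * D ^ (e k : ℕ)

/-- the Kronecker substitution. -/
noncomputable def kron (K : Type*) [Field K] {σ : Type*} [Fintype σ] (D : ℕ)
    (e : σ ≃ Fin (Fintype.card σ)) : MvPolynomial σ K →ₐ[K] PowerSeries K :=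
  aeval fun k => (PowerSeries.X : PowerSeries K) ^ (D ^ (e k : ℕ))

theorem kron_monomial (D : ℕ) (e : σ ≃ Fin (Fintype.card σ)) (m : σ →₀ ℕ) (a : K) :
    kron K D e (monomial m a) = PowerSeries.C a * PowerSeries.X ^ kexp D e m := by
  rw [kron, aeval_monomial, kexp, Finsupp.prod_fintype _ _ (by simp)]
  congr 1
  rw [← Finset.prod_pow_eq_pow_sum]
  refine Finset.prod_congr rfl fun k _ => ?_
  rw [← pow_mul, mul_comm]

theorem kexp_inj (D : ℕ) (e : σ ≃ Fin (Fintype.card σ)) (m m' : σ →₀ ℕ)
    (hm : ∀ k, m k < D) (hm' : ∀ k, m' k < D) (h : kexp D e m = kexp D e m') : m = m' := by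
  have key : ∀ (m : σ →₀ ℕ) (hm : ∀ k, m k < D), kexp D e m
      = (finFunctionFinEquiv (fun i => (⟨m (e.symm i), hm _⟩ : Fin D)) : ℕ) := by
    intro m hm
    rw [finFunctionFinEquiv_apply, kexp]
    refine Fintype.sum_equiv e _ _ fun k => ?_
    simp
  rw [key m hm, key m' hm'] at h
  have h2 := finFunctionFinEquiv.injective (Fin.ext h)
  ext k
  have h3 := congrArg (fun f => (f (e k) : ℕ)) h2
  simpa using h3

theorem lt_of_mem_support {f : MvPolynomial σ K} {D : ℕ} (hD : f.totalDegree < D)
    {m : σ →₀ ℕ} (hm : m ∈ f.support) (k : σ) : m k < D := by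
  refine lt_of_le_of_lt ?_ hD
  refine le_trans ?_ (le_totalDegree hm)
  rw [Finsupp.sum_fintype _ _ (by simp)]
  exact Finset.single_le_sum (f := fun k => m k) (fun i _ => Nat.zero_le _) (Finset.mem_univ k)

theorem kron_lead (D : ℕ) (e : σ ≃ Fin (Fintype.card σ)) (f : MvPolynomial σ K) (hf : f ≠ 0)
    (hD : f.totalDegree < D) :
    ∃ m ∈ f.support, ∃ g : PowerSeries K, IsUnit g ∧
      kron K D e f = PowerSeries.X ^ (kexp D e m) * g := by
  classical
  obtain ⟨m, hm, hmin⟩ := Finset.exists_min_image f.support (kexp D e)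
    (by rwa [Finset.nonempty_iff_ne_empty, Ne, support_eq_empty])
  refine ⟨m, hm, ∑ m' ∈ f.support, PowerSeries.C (coeff m' f)
    * PowerSeries.X ^ (kexp D e m' - kexp D e m), ?_, ?_⟩
  · rw [PowerSeries.isUnit_iff_constantCoeff, map_sum]
    rw [Finset.sum_eq_single m]
    · simp only [Nat.sub_self, pow_zero, mul_one, PowerSeries.constantCoeff_C]
      exact isUnit_iff_ne_zero.mpr (mem_support_iff.mp hm)
    · intro m' hm' hne
      have h1 : kexp D e m < kexp D e m' := by
        refine lt_of_le_of_ne (hmin m' hm') ?_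
        intro h
        exact hne (kexp_inj D e m m' (lt_of_mem_support hD hm) (lt_of_mem_support hD hm') h).symm
      have h2 : kexp D e m' - kexp D e m ≠ 0 := by omega
      simp [h2]
    · intro h
      exact absurd hm h
  · conv_lhs => rw [f.as_sum]
    rw [map_sum, Finset.mul_sum]
    refine Finset.sum_congr rfl fun m' hm' => ?_
    rw [kron_monomial]
    have h1 : kexp D e m' = kexp D e m + (kexp D e m' - kexp D e m) := by
      have := hmin m' hm'
      omega
    conv_lhs => rw [h1, pow_add]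
    ring

end Kron

end Pool.Agent.H24ML
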