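import Mathlib

/-! Matrices of rank at least `r` have a nonzero `r x r` minor. -/

namespace Pool.Agent.H24ML

open Matrix

theorem exists_cols {F ι κ : Type*} [Field F] [Fintype ι] [Fintype κ]
    (A : Matrix ι κ F) (r : ℕ) (h : r ≤ A.rank) :
    ∃ β : Fin r → κ, LinearIndependent F (fun j => A.col (β j)) := by
  rw [Matrix.rank_eq_finrank_span_cols] at h
  obtain ⟨f, hf, -, hli⟩ := Submodule.exists_fun_fin_finrank_span_eq F (Set.range A.col)
  choose β0 hβ0 using hf
  refine ⟨fun j => β0 (Fin.castLE h j), ?_⟩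
  have h1 := hli.comp (Fin.castLE h) (Fin.castLE_injective h)
  have h2 : (fun j => A.col (β0 (Fin.castLE h j))) = f ∘ Fin.castLE h := by
    funext j
    simp [hβ0]
  rw [h2]
  exact h1

theorem exists_minor {F ι κ : Type*} [Field F] [Fintype ι] [Fintype κ]
    (A : Matrix ι κ F) (r : ℕ) (h : r ≤ A.rank) :
    ∃ (ρ : Fin r → ι) (β : Fin r → κ), det (A.submatrix ρ β) ≠ 0 := by
  classical
  obtain ⟨β, hβ⟩ := exists_cols A r h
  have h1 : (A.submatrix id β)ᵀ.rank = r := by
    have : LinearIndependent F (A.submatrix id β)ᵀ.row := hβ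
    rw [this.rank_matrix, Fintype.card_fin]
  obtain ⟨ρ, hρ⟩ := exists_cols (A.submatrix id β)ᵀ r h1.ge
  refine ⟨ρ, β, ?_⟩
  have h2 : LinearIndependent F (A.submatrix ρ β).row := hρ
  exact ((Matrix.isUnit_iff_isUnit_det _).mp (linearIndependent_rows_iff_isUnit.mp h2)).ne_zero

theorem rank_of_minor {F ι κ : Type*} [Field F] [Fintype ι] [Fintype κ]
    (A : Matrix ι κ F) (r : ℕ) (ρ : Fin r → ι) (β : Fin r → κ)
    (h : det (A.submatrix ρ β) ≠ 0) : r ≤ A.rank := by
  classical
  have h1 : (A.submatrix ρ β).rank = r := by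
    rw [Matrix.rank_of_isUnit _ ((Matrix.isUnit_iff_isUnit_det _).mpr (isUnit_iff_ne_zero.mpr h)),
      Fintype.card_fin]
  calc r = (A.submatrix ρ β).rank := h1.symm
    _ ≤ A.rank := rank_submatrix_le A ρ β

end Pool.Agent.H24ML
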