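import Pool.Agent.Helper24.ML.Defs
import Pool.Agent.Helper24.ML.Kron
import Pool.Agent.Helper24.ML.Minor

/-! The Heisenberg limit of the column space of a slot matrix. -/

open Matrix

namespace Pool.Agent.H24ML

/-- fraction field of the power series ring -/
abbrev FF (K : Type*) [Field K] := FractionRing (PowerSeries K)

/-- column space of the slot matrix over the field of fractions of `K[[X]]`. -/
noncomputable def Wsp {K : Type*} [Field K] {m : ℕ} (C : (Fin m → V) → K) (i : Fin m)
    (X : Fin m → V → PowerSeries K) : Submodule (FF K) (V → FF K) :=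
  LinearMap.range (slotMat C i (fun j v => algebraMap (PowerSeries K) (FF K) (X j v))).mulVecLin

theorem slotMat_map {K R S : Type*} [Field K] [CommRing R] [CommRing S] [Algebra K R]
    [Algebra K S] (f : R →ₐ[K] S) {m : ℕ} (C : (Fin m → V) → K) (i : Fin m)
    (X : Fin m → V → R) (u b : V) :
    f (slotMat C i X u b) = slotMat C i (fun j v => f (X j v)) u b := by
  simp only [slotMat, map_sum]
  refine Finset.sum_congr rfl fun v _ => ?_
  split_ifs
  · rw [map_mul, map_prod, AlgHom.commutes]
  · exact map_zero f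

section generic

variable {K : Type*} [Field K] {m : ℕ} (C : (Fin m → V) → K) (i : Fin m)

/-- the generic slot matrix -/
noncomputable def Phi : Matrix V V (MvPolynomial (Fin m × V) K) :=
  slotMat C i (fun j v => MvPolynomial.X (j, v))

/-- the weight of the variables -/
def wt (m : ℕ) : Fin m × V → V := fun k => k.2

theorem Phi_hom (u b : V) :
    MvPolynomial.IsWeightedHomogeneous (wt m) (Phi C i u b) (u - b) := by
  rw [Phi, slotMat]
  refine MvPolynomial.IsWeightedHomogeneous.sum _ _ _ fun v _ => ?_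
  split_ifs with h
  · rw [MvPolynomial.algebraMap_eq]
    refine MvPolynomial.IsWeightedHomogeneous.C_mul ?_ _
    have h1 := MvPolynomial.IsWeightedHomogeneous.prod (w := wt m) (Finset.univ.erase i)
      (fun j => (MvPolynomial.X (j, v j) : MvPolynomial (Fin m × V) K)) (fun j => v j)
      (fun j _ => MvPolynomial.isWeightedHomogeneous_X K (wt m) (j, v j))
    have h2 : ∑ j ∈ Finset.univ.erase i, v j = u - b := by
      rw [← h.1, ← h.2, ← Finset.add_sum_erase Finset.univ v (Finset.mem_univ i)]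
      abel
    rw [h2] at h1
    exact h1
  · exact MvPolynomial.isWeightedHomogeneous_zero _ _ _

/-- the traceless columns -/
noncomputable def Psi (b0 : V) : Matrix V V (MvPolynomial (Fin m × V) K) :=
  fun u b => Phi C i 0 b0 * Phi C i u b - Phi C i 0 b * Phi C i u b0

theorem Psi_hom (b0 u b : V) :
    MvPolynomial.IsWeightedHomogeneous (wt m) (Psi C i b0 u b) (u - (b + b0)) := by
  rw [Psi]
  refine MvPolynomial.IsWeightedHomogeneous.sub ?_ ?_
  · have := (Phi_hom C i 0 b0).mul (Phi_hom C i u b)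
    have h : (0 : V) - b0 + (u - b) = u - (b + b0) := by abel
    rw [h] at this
    exact this
  · have := (Phi_hom C i 0 b).mul (Phi_hom C i u b0)
    have h : (0 : V) - b + (u - b0) = u - (b + b0) := by abel
    rw [h] at this
    exact this

theorem Psi_zero (b0 b : V) : Psi C i b0 0 b = 0 := by
  rw [Psi]; ring

/-- minors of the traceless part -/
noncomputable def mino (b0 : V) (β : Fin 5 → V) (ρ : Fin 5 → V) :
    MvPolynomial (Fin m × V) K :=
  det (Matrix.of fun a b => Psi C i b0 (ρ a) (β b))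

theorem det_hom {n : ℕ} (A : Matrix (Fin n) (Fin n) (MvPolynomial (Fin m × V) K))
    (r s : Fin n → V)
    (h : ∀ a b, MvPolynomial.IsWeightedHomogeneous (wt m) (A a b) (r a - s b)) :
    MvPolynomial.IsWeightedHomogeneous (wt m) (det A) (∑ a, r a - ∑ b, s b) := by
  rw [det_apply]
  refine MvPolynomial.IsWeightedHomogeneous.sum _ _ _ fun σ _ => ?_
  have h1 := MvPolynomial.IsWeightedHomogeneous.prod (w := wt m) Finset.univ
      (fun j => A (σ j) j) (fun j => r (σ j) - s j) (fun j _ => h _ _)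
  have h2 : ∑ j, (r (σ j) - s j) = ∑ a, r a - ∑ b, s b := by
    rw [Finset.sum_sub_distrib, Equiv.sum_comp σ r]
  rw [h2] at h1
  rcases Int.units_eq_one_or (Equiv.Perm.sign σ) with hs | hs
  · rw [hs, one_smul]; exact h1
  · rw [hs, Units.neg_smul, one_smul]; exact h1.neg

theorem mino_hom (b0 : V) (β ρ : Fin 5 → V) :
    MvPolynomial.IsWeightedHomogeneous (wt m) (mino C i b0 β ρ)
      (∑ a, ρ a - ∑ b, (β b + b0)) := by
  rw [mino]
  exact det_hom _ _ _ fun a b => Psi_hom C i b0 (ρ a) (β b)

/-- numerators of the last vector -/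
noncomputable def Nn (b0 : V) (β ρ : Fin 5 → V) (u : V) : MvPolynomial (Fin m × V) K :=
  mino C i b0 β ρ * Phi C i u b0
    - ∑ a, Phi C i (ρ a) b0 * mino C i b0 β (Function.update ρ a u)

theorem sum_update (ρ : Fin 5 → V) (a : Fin 5) (u : V) :
    ∑ c, Function.update ρ a u c = ∑ c, ρ c - ρ a + u := by
  rw [Finset.sum_update_of_mem (Finset.mem_univ a), ← Finset.add_sum_erase _ _ (Finset.mem_univ a),
    Finset.sdiff_singleton_eq_erase]
  abel

theorem Nn_hom (b0 : V) (β ρ : Fin 5 → V) (u : V) :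
    MvPolynomial.IsWeightedHomogeneous (wt m) (Nn C i b0 β ρ u)
      (∑ a, ρ a - ∑ b, (β b + b0) + (u - b0)) := by
  rw [Nn]
  refine MvPolynomial.IsWeightedHomogeneous.sub ((mino_hom C i b0 β ρ).mul (Phi_hom C i u b0)) ?_
  refine MvPolynomial.IsWeightedHomogeneous.sum _ _ _ fun a _ => ?_
  have h := (Phi_hom C i (ρ a) b0).mul (mino_hom C i b0 β (Function.update ρ a u))
  have h2 : ρ a - b0 + (∑ c, Function.update ρ a u c - ∑ b, (β b + b0))
      = ∑ a, ρ a - ∑ b, (β b + b0) + (u - b0) := by
    rw [sum_update]; abel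
  rw [h2] at h
  exact h

theorem mino_update (b0 : V) (β ρ : Fin 5 → V) (a : Fin 5) (u : V) :
    mino C i b0 β (Function.update ρ a u)
      = ∑ b, adjugate (Matrix.of fun a b => Psi C i b0 (ρ a) (β b))ᵀ a b
          * Psi C i b0 u (β b) := by
  have h1 : (Matrix.of fun a' b => Psi C i b0 (Function.update ρ a u a') (β b))
      = (Matrix.of fun a b => Psi C i b0 (ρ a) (β b)).updateRow a
          (fun b => Psi C i b0 u (β b)) := by
    ext a' b
    rw [updateRow_apply]
    split_ifs with h
    · subst h; simp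
    · simp [Function.update_of_ne h]
  rw [mino, h1, ← cramer_transpose_apply, cramer_eq_adjugate_mulVec]
  rfl

theorem mino_update_self (b0 : V) (β ρ : Fin 5 → V) (a : Fin 5) :
    mino C i b0 β (Function.update ρ a (ρ a)) = mino C i b0 β ρ := by
  rw [Function.update_eq_self]

theorem mino_eq_zero_of_eq (b0 : V) (β ρ : Fin 5 → V) (a a' : Fin 5) (h : a ≠ a')
    (h' : ρ a = ρ a') : mino C i b0 β ρ = 0 := by
  rw [mino]
  refine det_zero_of_row_eq h ?_
  funext b
  simp [h']

theorem mino_update_ne (b0 : V) (β ρ : Fin 5 → V) (a a' : Fin 5) (h : a ≠ a') :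
    mino C i b0 β (Function.update ρ a (ρ a')) = 0 := by
  refine mino_eq_zero_of_eq C i b0 β _ a a' h ?_
  rw [Function.update_self, Function.update_of_ne h.symm]

theorem mino_eq_zero_of_zero (b0 : V) (β ρ : Fin 5 → V) (a : Fin 5) (h : ρ a = 0) :
    mino C i b0 β ρ = 0 := by
  rw [mino]
  refine det_eq_zero_of_row_eq_zero a fun b => ?_
  simp only [of_apply, h]
  exact Psi_zero C i b0 _

theorem Nn_self (b0 : V) (β ρ : Fin 5 → V) (a : Fin 5) : Nn C i b0 β ρ (ρ a) = 0 := by
  rw [Nn, Finset.sum_eq_single a]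
  · rw [mino_update_self]; ring
  · intro a' _ ha'
    rw [mino_update_ne C i b0 β ρ a' a ha', mul_zero]
  · intro h; exact absurd (Finset.mem_univ _) h

theorem Nn_zero (b0 : V) (β ρ : Fin 5 → V) :
    Nn C i b0 β ρ 0 = mino C i b0 β ρ * Phi C i 0 b0 := by
  rw [Nn, Finset.sum_eq_zero, sub_zero]
  intro a _
  rw [mino_eq_zero_of_zero C i b0 β _ a (Function.update_self a 0 ρ), mul_zero]

theorem eval_Phi (x : Fin m → V → K) (u b : V) :
    MvPolynomial.aeval (fun k : Fin m × V => x k.1 k.2) (Phi C i u b)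
      = slotMat C i x u b := by
  rw [Phi, slotMat_map]
  simp

theorem exists_b0 (h0 : ∃ v : Fin m → V, ∑ j, v j = 0 ∧ C v ≠ 0) :
    ∃ b0 : V, Phi C i 0 b0 ≠ 0 := by
  classical
  obtain ⟨v0, hv0, hC⟩ := h0
  refine ⟨v0 i, fun h => hC ?_⟩
  have h1 := eval_Phi C i (fun j v => if v = v0 j then 1 else 0) 0 (v0 i)
  rw [h, map_zero, slotMat, Finset.sum_eq_single v0] at h1
  · simpa [hv0] using h1.symm
  · intro v _ hv
    split_ifs with hc
    · have : ∃ j, v j ≠ v0 j := Function.ne_iff.mp hv
      obtain ⟨j, hj⟩ := this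
      have hji : j ≠ i := by
        rintro rfl
        exact hj hc.1
      rw [Finset.prod_eq_zero (Finset.mem_erase.mpr ⟨hji, Finset.mem_univ j⟩) (if_neg hj),
        mul_zero]
    · rfl
  · intro h; exact absurd (Finset.mem_univ _) h

theorem exists_mino (b0 : V) (hb0 : Phi C i 0 b0 ≠ 0)
    (h6 : ∃ X : Fin m → V → K, 6 ≤ (slotMat C i X).rank) :
    ∃ β ρ : Fin 5 → V, mino C i b0 β ρ ≠ 0 := by
  classical
  obtain ⟨x, hx⟩ := h6
  obtain ⟨ρ1, β1, h1⟩ := exists_minor _ 6 hx
  set R := MvPolynomial (Fin m × V) K with hR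
  set Q := FractionRing R with hQ
  have h2 : det ((Phi C i).submatrix ρ1 β1) ≠ 0 := by
    intro h
    apply h1
    have h3 := congrArg (MvPolynomial.aeval (fun k : Fin m × V => x k.1 k.2)) h
    rw [map_zero, AlgHom.map_det] at h3
    rw [← h3]
    congr 1
    ext a b
    exact (eval_Phi C i x _ _).symm
  have hinj : Function.Injective (algebraMap R Q) := IsFractionRing.injective R Q
  have h3 : det (((Phi C i).map (algebraMap R Q)).submatrix ρ1 β1) ≠ 0 := by
    intro h
    apply h2
    apply hinj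
    rw [map_zero, RingHom.map_det]
    exact h
  have h4 : 6 ≤ ((Phi C i).map (algebraMap R Q)).rank := rank_of_minor _ 6 ρ1 β1 h3
  have hb0' : algebraMap R Q (Phi C i 0 b0) ≠ 0 := by
    intro h
    exact hb0 (hinj (by rw [h, map_zero]))
  have h5 : 5 ≤ ((Psi C i b0).map (algebraMap R Q)).rank := by
    have hle : LinearMap.range ((Phi C i).map (algebraMap R Q)).mulVecLin ≤
        Submodule.span Q {fun u => algebraMap R Q (Phi C i u b0)} ⊔
          LinearMap.range ((Psi C i b0).map (algebraMap R Q)).mulVecLin := by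
      rw [Matrix.range_mulVecLin, Submodule.span_le]
      rintro _ ⟨b, rfl⟩
      have hb : ((Phi C i).map (algebraMap R Q)).col b
          = (algebraMap R Q (Phi C i 0 b) / algebraMap R Q (Phi C i 0 b0)) •
              (fun u => algebraMap R Q (Phi C i u b0))
            + (1 / algebraMap R Q (Phi C i 0 b0)) •
              ((Psi C i b0).map (algebraMap R Q)).col b := by
        funext u
        simp only [col_apply, map_apply, Pi.add_apply, Pi.smul_apply, smul_eq_mul, Psi, map_sub,
          map_mul, div_eq_mul_inv]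
        have hc := mul_inv_cancel₀ hb0'
        linear_combination (-(algebraMap R Q) (Phi C i u b)) * hc
      rw [hb]
      refine Submodule.add_mem_sup (Submodule.smul_mem _ _ (Submodule.mem_span_singleton_self _))
        (Submodule.smul_mem _ _ ?_)
      rw [Matrix.range_mulVecLin]
      exact Submodule.subset_span ⟨b, rfl⟩
    have hfin := Submodule.finrank_mono hle
    have hs := Submodule.finrank_add_le_finrank_add_finrank
      (Submodule.span Q {fun u => algebraMap R Q (Phi C i u b0)})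
      (LinearMap.range ((Psi C i b0).map (algebraMap R Q)).mulVecLin)
    have h1' : Module.finrank Q (Submodule.span Q {fun u => algebraMap R Q (Phi C i u b0)}) ≤ 1 :=
      (finrank_span_le_card _).trans (by simp)
    rw [Matrix.rank] at h4 ⊢
    omega
  obtain ⟨ρ, β, h6⟩ := exists_minor _ 5 h5
  refine ⟨β, ρ, fun h => h6 ?_⟩
  rw [mino] at h
  have h7 := congrArg (algebraMap R Q) h
  rw [map_zero, RingHom.map_det] at h7
  exact h7

/-- Strictness of the order comparison for homogeneous polynomials of different weights. -/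
theorem strict_dvd (D : ℕ) (e : Fin m × V ≃ Fin (Fintype.card (Fin m × V)))
    (f g : MvPolynomial (Fin m × V) K) (a b : V)
    (hf : MvPolynomial.IsWeightedHomogeneous (wt m) f a)
    (hg : MvPolynomial.IsWeightedHomogeneous (wt m) g b) (hab : a ≠ b) (hf0 : f ≠ 0)
    (hfD : f.totalDegree < D) (hgD : g.totalDegree < D)
    (h : g ≠ 0 → (kron K D e f).order ≤ (kron K D e g).order) :
    PowerSeries.X * kron K D e f ∣ kron K D e g := by
  by_cases hg0 : g = 0
  · rw [hg0, map_zero]; exact dvd_zero _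
  obtain ⟨m1, hm1, g1, hg1, h1⟩ := kron_lead D e f hf0 hfD
  obtain ⟨m2, hm2, g2, hg2, h2⟩ := kron_lead D e g hg0 hgD
  have ho : ∀ (k : ℕ) (q : PowerSeries K), IsUnit q →
      (PowerSeries.X ^ k * q : PowerSeries K).order = k := by
    intro k q hq
    rw [PowerSeries.order_mul, PowerSeries.order_X_pow, PowerSeries.order_zero_of_unit hq,
      add_zero]
  have h3 := h hg0
  rw [h1, h2, ho _ _ hg1, ho _ _ hg2, Nat.cast_le] at h3
  have h4 : kexp D e m1 ≠ kexp D e m2 := by
    intro h5
    have h6 := kexp_inj D e m1 m2 (lt_of_mem_support hfD hm1) (lt_of_mem_support hgD hm2) h5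
    apply hab
    rw [← hf (MvPolynomial.mem_support_iff.mp hm1), ← hg (MvPolynomial.mem_support_iff.mp hm2), h6]
  obtain ⟨k, hk⟩ : ∃ k, kexp D e m2 = kexp D e m1 + 1 + k := ⟨kexp D e m2 - kexp D e m1 - 1, by
    omega⟩
  obtain ⟨q, hq⟩ := hg1.exists_right_inv
  refine ⟨PowerSeries.X ^ k * q * g2, ?_⟩
  rw [h1, h2, hk, pow_add, pow_add, pow_one]
  linear_combination (-(PowerSeries.X ^ kexp D e m1 * PowerSeries.X * PowerSeries.X ^ k * g2)) * hq

end generic

theorem heisenberg_limit {K : Type*} [Field K] {m : ℕ} (C : (Fin m → V) → K) (i : Fin m)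
    (h0 : ∃ v : Fin m → V, ∑ j, v j = 0 ∧ C v ≠ 0)
    (h6 : ∃ X : Fin m → V → K, 6 ≤ (slotMat C i X).rank) :
    ∃ (X : Fin m → V → PowerSeries K) (S : Finset V) (b0 : V) (g : V → V → PowerSeries K),
      S.card = 5 ∧ (0 : V) ∉ S ∧ slotMat C i X 0 b0 ≠ 0 ∧
      (∀ v ∈ S, g v v = 1 ∧ g v 0 = 0 ∧ (∀ u ∈ S, u ≠ v → g v u = 0) ∧
        (∀ u ∉ S, PowerSeries.X ∣ g v u) ∧
        (fun u => algebraMap (PowerSeries K) (FF K) (g v u)) ∈ Wsp C i X) ∧
      (∀ e : K, (e = 0 ∧ Pi.single 0 1 ∈ Wsp C i X) ∨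
        ∃ u0 : V, u0 ∉ S ∧ ∃ f : V → PowerSeries K, ∃ z ∈ Wsp C i X, z 0 ≠ 0 ∧
          (∀ u, algebraMap (PowerSeries K) (FF K) (f u)
            = (if u = 0 then algebraMap K (FF K) e else 1) * z u) ∧
          f u0 = 1 ∧ (∀ v ∈ S, f v = 0) ∧ (∀ u, u ∉ S → u ≠ u0 → PowerSeries.X ∣ f u)) := by
  classical
  obtain ⟨b0, hb0⟩ := exists_b0 C i h0
  obtain ⟨β, ρ0, hρ0⟩ := exists_mino C i b0 hb0 h6
  -- the degree bound
  obtain ⟨D, hD1, hD2, hD3⟩ : ∃ D : ℕ, (∀ ρ : Fin 5 → V, (mino C i b0 β ρ).totalDegree < D) ∧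
      (∀ (ρ : Fin 5 → V) (u : V), (Nn C i b0 β ρ u).totalDegree < D) ∧
      (Phi C i 0 b0).totalDegree < D := by
    refine ⟨1 + ∑ ρ : Fin 5 → V, (mino C i b0 β ρ).totalDegree
      + ∑ ρ : Fin 5 → V, ∑ u : V, (Nn C i b0 β ρ u).totalDegree
      + (Phi C i 0 b0).totalDegree, fun ρ => ?_, fun ρ u => ?_, by omega⟩
    · have h1 : (mino C i b0 β ρ).totalDegree
          ≤ ∑ ρ : Fin 5 → V, (mino C i b0 β ρ).totalDegree :=
        Finset.single_le_sum (f := fun ρ : Fin 5 → V => (mino C i b0 β ρ).totalDegree)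
        (fun _ _ => Nat.zero_le _) (Finset.mem_univ ρ)
      omega
    · have h1 : ∑ u : V, (Nn C i b0 β ρ u).totalDegree
          ≤ ∑ ρ : Fin 5 → V, ∑ u : V, (Nn C i b0 β ρ u).totalDegree :=
        Finset.single_le_sum
        (f := fun ρ : Fin 5 → V => ∑ u : V, (Nn C i b0 β ρ u).totalDegree)
        (fun _ _ => Nat.zero_le _) (Finset.mem_univ ρ)
      have h2 : (Nn C i b0 β ρ u).totalDegree ≤ ∑ u : V, (Nn C i b0 β ρ u).totalDegree :=
        Finset.single_le_sum (f := fun u : V => (Nn C i b0 β ρ u).totalDegree)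
        (fun _ _ => Nat.zero_le _) (Finset.mem_univ u)
      omega
  let e : Fin m × V ≃ Fin (Fintype.card (Fin m × V)) := Fintype.equivFin _
  let θ : MvPolynomial (Fin m × V) K →ₐ[K] PowerSeries K := kron K D e
  have hθ : ∀ f : MvPolynomial (Fin m × V) K, f ≠ 0 → f.totalDegree < D → θ f ≠ 0 := by
    intro f hf hfD h
    obtain ⟨m1, -, g1, hg1, h1⟩ := kron_lead D e f hf hfD
    change θ f = _ at h1
    rw [h] at h1
    exact mul_ne_zero (pow_ne_zero _ PowerSeries.X_ne_zero) hg1.ne_zero h1.symm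
  -- the minimal minor
  obtain ⟨ρ, hρ, hmin⟩ := Finset.exists_min_image
    (Finset.univ.filter fun ρ : Fin 5 → V => mino C i b0 β ρ ≠ 0)
    (fun ρ => (θ (mino C i b0 β ρ)).order) ⟨ρ0, by simpa using hρ0⟩
  have hρ1 : mino C i b0 β ρ ≠ 0 := (Finset.mem_filter.mp hρ).2
  have hinj : Function.Injective ρ := by
    intro a a' h
    by_contra hne
    exact hρ1 (mino_eq_zero_of_eq C i b0 β ρ a a' hne h)
  have hne0 : ∀ a, ρ a ≠ 0 := fun a h => hρ1 (mino_eq_zero_of_zero C i b0 β ρ a h)
  set μ := θ (mino C i b0 β ρ) with hμ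
  have hμ0 : μ ≠ 0 := hθ _ hρ1 (hD1 ρ)
  have hXd : ∀ (a : Fin 5) (u : V), (∀ a', ρ a' ≠ u) →
      PowerSeries.X * μ ∣ θ (mino C i b0 β (Function.update ρ a u)) := by
    intro a u hu
    refine strict_dvd D e _ _ _ _ (mino_hom C i b0 β ρ)
      (mino_hom C i b0 β (Function.update ρ a u)) ?_ hρ1 (hD1 _) (hD1 _) ?_
    · rw [sum_update]
      intro h
      apply hu a
      have h' : (0 : V) = u - ρ a := by
        linear_combination (exp := 1) h
      rw [eq_comm, sub_eq_zero] at h'
      exact h'.symm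
    · intro h
      exact hmin _ (Finset.mem_filter.mpr ⟨Finset.mem_univ _, h⟩)
  have hdvd : ∀ (a : Fin 5) (u : V), μ ∣ θ (mino C i b0 β (Function.update ρ a u)) := by
    intro a u
    by_cases hu : ∀ a', ρ a' ≠ u
    · exact (Dvd.intro_left _ rfl).trans (hXd a u hu)
    · push Not at hu
      obtain ⟨a', rfl⟩ := hu
      by_cases haa : a = a'
      · subst haa
        rw [mino_update_self]
      · rw [mino_update_ne C i b0 β ρ a a' haa, map_zero]
        exact dvd_zero _
  choose G hG using hdvd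
  have hG1 : ∀ a, G a (ρ a) = 1 := by
    intro a
    have h := hG a (ρ a)
    rw [mino_update_self] at h
    exact (mul_left_cancel₀ hμ0 (by rw [mul_one]; exact h)).symm
  have hG2 : ∀ a a', a ≠ a' → G a (ρ a') = 0 := by
    intro a a' haa
    have h := hG a (ρ a')
    rw [mino_update_ne C i b0 β ρ a a' haa, map_zero] at h
    rcases mul_eq_zero.mp h.symm with h | h
    · exact absurd h hμ0
    · exact h
  have hG0 : ∀ a, G a 0 = 0 := by
    intro a
    have h := hG a 0
    rw [mino_eq_zero_of_zero C i b0 β _ a (Function.update_self a 0 ρ), map_zero] at h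
    rcases mul_eq_zero.mp h.symm with h | h
    · exact absurd h hμ0
    · exact h
  have hGX : ∀ a u, (∀ a', ρ a' ≠ u) → PowerSeries.X ∣ G a u := by
    intro a u hu
    obtain ⟨q, hq⟩ := hXd a u hu
    refine ⟨q, mul_left_cancel₀ hμ0 ?_⟩
    rw [← hG, hq]
    ring
  -- columns over the fraction field
  set ι := algebraMap (PowerSeries K) (FF K) with hι
  have hιinj : Function.Injective ι := IsFractionRing.injective (PowerSeries K) (FF K)
  let X : Fin m → V → PowerSeries K := fun j v => θ (MvPolynomial.X (j, v))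
  have hent : ∀ u b, slotMat C i (fun j v => algebraMap (PowerSeries K) (FF K) (X j v)) u b
      = ι (θ (Phi C i u b)) := by
    intro u b
    exact (slotMat_map ((IsScalarTower.toAlgHom K (PowerSeries K) (FF K)).comp θ) C i
      (fun j v => MvPolynomial.X (j, v)) u b).symm
  have hcol : ∀ b, (fun u => ι (θ (Phi C i u b))) ∈ Wsp C i X := by
    intro b
    refine ⟨Pi.single b 1, ?_⟩
    funext u
    rw [mulVecLin_apply, mulVec_single_one]
    exact hent u b
  have hPsi : ∀ b, (fun u => ι (θ (Psi C i b0 u b))) ∈ Wsp C i X := by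
    intro b
    have h := (Wsp C i X).sub_mem ((Wsp C i X).smul_mem (ι (θ (Phi C i 0 b0))) (hcol b))
      ((Wsp C i X).smul_mem (ι (θ (Phi C i 0 b))) (hcol b0))
    have h2 : (fun u => ι (θ (Psi C i b0 u b)))
        = ι (θ (Phi C i 0 b0)) • (fun u => ι (θ (Phi C i u b)))
          - ι (θ (Phi C i 0 b)) • (fun u => ι (θ (Phi C i u b0))) := by
      funext u
      simp only [Psi, map_sub, map_mul, Pi.sub_apply, Pi.smul_apply, smul_eq_mul]
    rw [h2]
    exact h
  have hιμ : ι μ ≠ 0 := fun h => hμ0 (hιinj (by rw [h, map_zero]))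
  have hGmem : ∀ a, (fun u => ι (G a u)) ∈ Wsp C i X := by
    intro a
    have h2 : (fun u => ι (G a u)) = ∑ b : Fin 5,
        (ι (θ (adjugate (Matrix.of fun a b => Psi C i b0 (ρ a) (β b))ᵀ a b)) * (ι μ)⁻¹) •
          (fun u => ι (θ (Psi C i b0 u (β b)))) := by
      funext u
      rw [Finset.sum_apply]
      simp only [Pi.smul_apply, smul_eq_mul]
      have h3 : ι (θ (mino C i b0 β (Function.update ρ a u))) = ι μ * ι (G a u) := by
        rw [hG, map_mul]
      rw [mino_update, map_sum, map_sum] at h3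
      simp only [map_mul] at h3
      have h4 : ι (G a u) = (ι μ)⁻¹ * ∑ b : Fin 5,
          ι (θ (adjugate (Matrix.of fun a b => Psi C i b0 (ρ a) (β b))ᵀ a b))
            * ι (θ (Psi C i b0 u (β b))) := by
        rw [h3, ← mul_assoc, inv_mul_cancel₀ hιμ, one_mul]
      rw [h4, Finset.mul_sum]
      refine Finset.sum_congr rfl fun b _ => ?_
      ring
    rw [h2]
    exact Submodule.sum_mem _ fun b _ => Submodule.smul_mem _ _ (hPsi _)
  have hN : ∀ u, θ (Nn C i b0 β ρ u)
      = μ * θ (Phi C i u b0) - ∑ a, θ (Phi C i (ρ a) b0) * (μ * G a u) := by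
    intro u
    rw [Nn, map_sub, map_mul, map_sum]
    congr 1
    refine Finset.sum_congr rfl fun a _ => ?_
    rw [map_mul, hG]
  have hNmem : (fun u => ι (θ (Nn C i b0 β ρ u))) ∈ Wsp C i X := by
    have h2 : (fun u => ι (θ (Nn C i b0 β ρ u)))
        = ι μ • (fun u => ι (θ (Phi C i u b0)))
          - ∑ a : Fin 5, (ι (θ (Phi C i (ρ a) b0)) * ι μ) • (fun u => ι (G a u)) := by
      funext u
      rw [hN, Pi.sub_apply, Finset.sum_apply]
      simp only [Pi.smul_apply, smul_eq_mul, map_sub, map_mul, map_sum]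
      congr 1
      refine Finset.sum_congr rfl fun a _ => ?_
      ring
    rw [h2]
    exact Submodule.sub_mem _ (Submodule.smul_mem _ _ (hcol b0))
      (Submodule.sum_mem _ fun a _ => Submodule.smul_mem _ _ (hGmem a))
  have hN0 : θ (Nn C i b0 β ρ 0) ≠ 0 := by
    rw [Nn_zero, map_mul]
    exact mul_ne_zero hμ0 (hθ _ hb0 hD3)
  refine ⟨X, Finset.univ.image ρ, b0, fun v u => ∑ a, if ρ a = v then G a u else 0,
    ?_, ?_, ?_, ?_, ?_⟩
  · rw [Finset.card_image_of_injective _ hinj, Finset.card_univ, Fintype.card_fin]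
  · simp [hne0]
  · have h1 := slotMat_map θ C i (fun j v => MvPolynomial.X (j, v)) 0 b0
    change slotMat C i X 0 b0 ≠ 0
    have h2 : slotMat C i X 0 b0 = θ (Phi C i 0 b0) := h1.symm
    rw [h2]
    exact hθ _ hb0 hD3
  · intro v hv
    obtain ⟨a, -, rfl⟩ := Finset.mem_image.mp hv
    have hg : ∀ u, (∑ a', if ρ a' = ρ a then G a' u else 0) = G a u := by
      intro u
      rw [Finset.sum_eq_single a]
      · simp
      · intro a' _ ha'
        rw [if_neg (fun h => ha' (hinj h))]
      · intro h; exact absurd (Finset.mem_univ _) h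
    simp only [hg]
    refine ⟨hG1 a, hG0 a, ?_, ?_, hGmem a⟩
    · intro u hu huv
      obtain ⟨a', -, rfl⟩ := Finset.mem_image.mp hu
      exact hG2 a a' (fun h => huv (by rw [h]))
    · intro u hu
      exact hGX a u fun a' h => hu (Finset.mem_image.mpr ⟨a', Finset.mem_univ _, h⟩)
  · intro ε
    let E : V → MvPolynomial (Fin m × V) K := fun u =>
      (if u = 0 then MvPolynomial.C ε else 1) * Nn C i b0 β ρ u
    have hEhom : ∀ u, MvPolynomial.IsWeightedHomogeneous (wt m) (E u)
        (∑ a, ρ a - ∑ b, (β b + b0) + (u - b0)) := by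
      intro u
      by_cases hu : u = 0
      · simp only [E, if_pos hu]
        exact MvPolynomial.IsWeightedHomogeneous.C_mul (Nn_hom C i b0 β ρ u) _
      · simp only [E, if_neg hu, one_mul]
        exact Nn_hom C i b0 β ρ u
    have hED : ∀ u, (E u).totalDegree < D := by
      intro u
      refine lt_of_le_of_lt ?_ (hD2 ρ u)
      by_cases hu : u = 0
      · simp only [E, if_pos hu]
        refine (MvPolynomial.totalDegree_mul _ _).trans ?_
        rw [MvPolynomial.totalDegree_C, zero_add]
      · simp only [E, if_neg hu, one_mul]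
        exact le_rfl
    have hθE : ∀ u, ι (θ (E u)) = (if u = 0 then algebraMap K (FF K) ε else 1)
        * ι (θ (Nn C i b0 β ρ u)) := by
      intro u
      by_cases hu : u = 0
      · simp only [E, if_pos hu, map_mul]
        congr 1
        have h1 : θ (MvPolynomial.C ε) = algebraMap K (PowerSeries K) ε := by
          rw [← MvPolynomial.algebraMap_eq, AlgHom.commutes]
        rw [h1, hι, ← IsScalarTower.algebraMap_apply]
      · simp only [E, if_neg hu, one_mul]
    by_cases hE : ∃ u, E u ≠ 0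
    · right
      obtain ⟨u1, hu1⟩ := hE
      obtain ⟨u0, hu0, hmin0⟩ := Finset.exists_min_image
        (Finset.univ.filter fun u : V => E u ≠ 0) (fun u => (θ (E u)).order)
        ⟨u1, by simpa using hu1⟩
      have hEu0 : E u0 ≠ 0 := (Finset.mem_filter.mp hu0).2
      have hθu0 : θ (E u0) ≠ 0 := hθ _ hEu0 (hED u0)
      have hιu0 : ι (θ (E u0)) ≠ 0 := fun h => hθu0 (hιinj (by rw [h, map_zero]))
      have hXE : ∀ u, u ≠ u0 → PowerSeries.X * θ (E u0) ∣ θ (E u) := by
        intro u hu
        refine strict_dvd D e _ _ _ _ (hEhom u0) (hEhom u) ?_ hEu0 (hED _) (hED _) ?_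
        · intro h
          apply hu
          have h' : u0 - b0 = u - b0 := add_left_cancel h
          exact (sub_left_inj.mp h').symm
        · intro h
          exact hmin0 _ (Finset.mem_filter.mpr ⟨Finset.mem_univ _, h⟩)
      have hdE : ∀ u, θ (E u0) ∣ θ (E u) := by
        intro u
        by_cases hu : u = u0
        · rw [hu]
        · exact (Dvd.intro_left _ rfl).trans (hXE u hu)
      choose f hf using hdE
      refine ⟨u0, ?_, f, (ι (θ (E u0)))⁻¹ • (fun u => ι (θ (Nn C i b0 β ρ u))),
        Submodule.smul_mem _ _ hNmem, ?_, ?_, ?_, ?_, ?_⟩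
      · intro h
        obtain ⟨a, -, ha⟩ := Finset.mem_image.mp h
        apply hEu0
        simp only [E]
        rw [← ha, Nn_self, mul_zero]
      · rw [Pi.smul_apply, smul_eq_mul]
        exact mul_ne_zero (inv_ne_zero hιu0) fun h => hN0 (hιinj (by rw [h, map_zero]))
      · intro u
        have h5 : ι (θ (E u)) = ι (θ (E u0)) * ι (f u) :=
          (congrArg ι (hf u)).trans (map_mul ι _ _)
        rw [Pi.smul_apply, smul_eq_mul, mul_left_comm, ← hθE, h5, ← mul_assoc,
          inv_mul_cancel₀ hιu0, one_mul]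
      · exact (mul_left_cancel₀ hθu0 (by rw [mul_one]; exact hf u0)).symm
      · intro v hv
        obtain ⟨a, -, rfl⟩ := Finset.mem_image.mp hv
        have h := hf (ρ a)
        have hz : E (ρ a) = 0 := by
          simp only [E]
          rw [Nn_self, mul_zero]
        rw [hz, map_zero] at h
        rcases mul_eq_zero.mp h.symm with h | h
        · exact absurd h hθu0
        · exact h
      · intro u _ hu
        obtain ⟨q, hq⟩ := hXE u hu
        refine ⟨q, mul_left_cancel₀ hθu0 ?_⟩
        rw [← hf, hq]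
        ring
    · left
      push Not at hE
      have hε : ε = 0 := by
        have h := hE 0
        simp only [E, if_true] at h
        rcases mul_eq_zero.mp h with h | h
        · exact MvPolynomial.C_eq_zero.mp h
        · exact absurd (by rw [h, map_zero]) hN0
      refine ⟨hε, ?_⟩
      have h2 : (Pi.single 0 1 : V → FF K)
          = (ι (θ (Nn C i b0 β ρ 0)))⁻¹ • (fun u => ι (θ (Nn C i b0 β ρ u))) := by
        funext u
        rw [Pi.smul_apply, smul_eq_mul]
        by_cases hu : u = 0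
        · subst hu
          rw [Pi.single_eq_same, inv_mul_cancel₀ fun h => hN0 (hιinj (by rw [h, map_zero]))]
        · have h := hE u
          simp only [E, if_neg hu, one_mul] at h
          rw [Pi.single_eq_of_ne hu, h, map_zero, map_zero, mul_zero]
      rw [h2]
      exact Submodule.smul_mem _ _ hNmem

end Pool.Agent.H24ML
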