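import Pool.Agent.Helper24.ML.Defs

/-!
# Block SIM: similarity of `3 x 3` matrices
-/

open Matrix

namespace Pool.Agent.H24ML

/-- similarity of matrices -/
def Sim {F : Type*} [Field F] (A B : M3 F) : Prop :=
  ∃ g : (M3 F)ˣ, B = (g : M3 F) * A * ((g⁻¹ : (M3 F)ˣ) : M3 F)

/-- The companion matrix of `X³ - s X² + c X - d`. -/
def compan {F : Type*} [Field F] (s c d : F) : M3 F := !![0, 0, d; 1, 0, -c; 0, 1, s]

theorem mul_cyc {F : Type*} [Field F] (A : M3 F) (v : Fin 3 → F) :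
    A * (Cyc A v)ᵀ = (Cyc A v)ᵀ * compan (trace A) (c2 A) (det A) := by
  ext i j
  rw [Matrix.det_fin_three]
  fin_cases i <;> fin_cases j <;>
    simp [Matrix.mul_apply, Fin.sum_univ_three, Cyc, mulVec, dotProduct, c2, trace, compan] <;>
    ring

theorem sim_of_cyclic {F : Type*} [Field F] (A B : M3 F) (v u : Fin 3 → F)
    (hv : det (Cyc A v) ≠ 0) (hu : det (Cyc B u) ≠ 0) (h1 : trace A = trace B)
    (h2 : c2 A = c2 B) (h3 : det A = det B) : Sim A B := by
  have hP : IsUnit (Cyc A v)ᵀ.det := by rw [det_transpose]; exact isUnit_iff_ne_zero.2 hv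
  have hQ : IsUnit (Cyc B u)ᵀ.det := by rw [det_transpose]; exact isUnit_iff_ne_zero.2 hu
  have hA := mul_cyc A v
  have hB := mul_cyc B u
  rw [← h1, ← h2, ← h3] at hB
  refine ⟨nonsingInvUnit _ hQ * (nonsingInvUnit _ hP)⁻¹, ?_⟩
  have e1 : ((nonsingInvUnit _ hQ * (nonsingInvUnit _ hP)⁻¹ : (M3 F)ˣ) : M3 F) =
      (Cyc B u)ᵀ * ((Cyc A v)ᵀ)⁻¹ := rfl
  have e2 : (((nonsingInvUnit _ hQ * (nonsingInvUnit _ hP)⁻¹)⁻¹ : (M3 F)ˣ) : M3 F) =
      (Cyc A v)ᵀ * ((Cyc B u)ᵀ)⁻¹ := rfl
  rw [e1, e2]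
  have e3 : ((Cyc A v)ᵀ)⁻¹ * (A * (Cyc A v)ᵀ) = compan (trace A) (c2 A) (det A) := by
    rw [hA, nonsing_inv_mul_cancel_left _ _ hP]
  calc B = B * (Cyc B u)ᵀ * ((Cyc B u)ᵀ)⁻¹ := by rw [mul_nonsing_inv_cancel_right _ _ hQ]
    _ = (Cyc B u)ᵀ * compan (trace A) (c2 A) (det A) * ((Cyc B u)ᵀ)⁻¹ := by rw [hB]
    _ = (Cyc B u)ᵀ * (((Cyc A v)ᵀ)⁻¹ * (A * (Cyc A v)ᵀ)) * ((Cyc B u)ᵀ)⁻¹ := by rw [e3]
    _ = _ := by simp only [Matrix.mul_assoc]

/-- A basis adapted to a nonzero vector and a nonzero functional. -/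
theorem exists_adapted {F : Type*} [Field F] [DecidableEq F] (p q : Fin 3 → F) (hp : p ≠ 0)
    (hq : q ≠ 0) : ∃ M : M3 F, M.det ≠ 0 ∧ (∀ i, M i 0 = p i) ∧
      q ᵥ* M = if q ⬝ᵥ p = 0 then ![0, 0, 1] else ![q ⬝ᵥ p, 0, 0] := by
  have hdot : q ⬝ᵥ p = q 0 * p 0 + q 1 * p 1 + q 2 * p 2 := by
    rw [dotProduct, Fin.sum_univ_three]
  have hq3 : q 0 ≠ 0 ∨ q 1 ≠ 0 ∨ q 2 ≠ 0 := by
    by_contra h
    push Not at h
    apply hq
    funext i
    fin_cases i
    · exact h.1
    · exact h.2.1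
    · exact h.2.2
  have hp3 : ¬ (p 0 = 0 ∧ p 1 = 0 ∧ p 2 = 0) := by
    rintro ⟨h0, h1, h2⟩
    apply hp
    funext i
    fin_cases i
    · exact h0
    · exact h1
    · exact h2
  -- a general criterion
  have crit : ∀ (h e : Fin 3 → F), (q ⬝ᵥ p = 0 → q ⬝ᵥ h = 0 ∧ q ⬝ᵥ e = 1) →
      (q ⬝ᵥ p ≠ 0 → q ⬝ᵥ h = 0 ∧ q ⬝ᵥ e = 0) →
      (!![p 0, h 0, e 0; p 1, h 1, e 1; p 2, h 2, e 2] : M3 F).det ≠ 0 →
      ∃ M : M3 F, M.det ≠ 0 ∧ (∀ i, M i 0 = p i) ∧
        q ᵥ* M = if q ⬝ᵥ p = 0 then ![0, 0, 1] else ![q ⬝ᵥ p, 0, 0] := by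
    intro h e h1 h2 h3
    refine ⟨_, h3, ?_, ?_⟩
    · intro i; fin_cases i <;> rfl
    · have e0 : (q ᵥ* !![p 0, h 0, e 0; p 1, h 1, e 1; p 2, h 2, e 2]) =
          ![q ⬝ᵥ p, q ⬝ᵥ h, q ⬝ᵥ e] := by
        funext j
        fin_cases j <;> simp [vecMul, dotProduct, Fin.sum_univ_three]
      rw [e0]
      by_cases ht : q ⬝ᵥ p = 0
      · rw [if_pos ht, (h1 ht).1, (h1 ht).2, ht]
      · rw [if_neg ht, (h2 ht).1, (h2 ht).2]
  by_cases ht : q ⬝ᵥ p = 0
  · have ht' := ht
    rw [hdot] at ht'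
    rcases hq3 with h | h | h
    · by_cases hp2 : p 2 = 0
      · have hp1 : p 1 ≠ 0 := by
          intro hp1
          rw [hp1, hp2] at ht'
          simp [h] at ht'
          exact hp3 ⟨ht', hp1, hp2⟩
        refine crit ![-q 2, 0, q 0] ![1 / q 0, 0, 0] (fun _ => ⟨?_, ?_⟩) (fun hn => absurd ht hn) ?_
        · simp [dotProduct, Fin.sum_univ_three]; ring
        · simp [dotProduct, Fin.sum_univ_three, h]
        · rw [det_fin_three]
          simp [h, hp1]
      · refine crit ![-q 1, q 0, 0] ![1 / q 0, 0, 0] (fun _ => ⟨?_, ?_⟩) (fun hn => absurd ht hn) ?_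
        · simp [dotProduct, Fin.sum_univ_three]; ring
        · simp [dotProduct, Fin.sum_univ_three, h]
        · rw [det_fin_three]
          simp [h, hp2]
    · by_cases hp2 : p 2 = 0
      · have hp0 : p 0 ≠ 0 := by
          intro hp0
          rw [hp0, hp2] at ht'
          simp [h] at ht'
          exact hp3 ⟨hp0, ht', hp2⟩
        refine crit ![0, -q 2, q 1] ![0, 1 / q 1, 0] (fun _ => ⟨?_, ?_⟩) (fun hn => absurd ht hn) ?_
        · simp [dotProduct, Fin.sum_univ_three]; ring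
        · simp [dotProduct, Fin.sum_univ_three, h]
        · rw [det_fin_three]
          simp [h, hp0]
      · refine crit ![q 1, -q 0, 0] ![0, 1 / q 1, 0] (fun _ => ⟨?_, ?_⟩) (fun hn => absurd ht hn) ?_
        · simp [dotProduct, Fin.sum_univ_three]; ring
        · simp [dotProduct, Fin.sum_univ_three, h]
        · rw [det_fin_three]
          simp [h, hp2]
    · by_cases hp0 : p 0 = 0
      · have hp1 : p 1 ≠ 0 := by
          intro hp1
          rw [hp0, hp1] at ht'
          simp [h] at ht'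
          exact hp3 ⟨hp0, hp1, ht'⟩
        refine crit ![q 2, 0, -q 0] ![0, 0, 1 / q 2] (fun _ => ⟨?_, ?_⟩) (fun hn => absurd ht hn) ?_
        · simp [dotProduct, Fin.sum_univ_three]; ring
        · simp [dotProduct, Fin.sum_univ_three, h]
        · rw [det_fin_three]
          simp [h, hp1, hp0]
      · refine crit ![0, q 2, -q 1] ![0, 0, 1 / q 2] (fun _ => ⟨?_, ?_⟩) (fun hn => absurd ht hn) ?_
        · simp [dotProduct, Fin.sum_univ_three]; ring
        · simp [dotProduct, Fin.sum_univ_three, h]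
        · rw [det_fin_three]
          simp [h, hp0]
  · have ht' := ht
    rw [hdot] at ht'
    rcases hq3 with h | h | h
    · refine crit ![-q 1, q 0, 0] ![-q 2, 0, q 0] (fun hn => absurd hn ht) (fun _ => ⟨?_, ?_⟩) ?_
      · simp [dotProduct, Fin.sum_univ_three]; ring
      · simp [dotProduct, Fin.sum_univ_three]; ring
      · rw [det_fin_three]
        intro hz
        apply mul_ne_zero h ht'
        simp at hz
        linear_combination hz
    · refine crit ![q 1, -q 0, 0] ![0, -q 2, q 1] (fun hn => absurd hn ht) (fun _ => ⟨?_, ?_⟩) ?_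
      · simp [dotProduct, Fin.sum_univ_three]; ring
      · simp [dotProduct, Fin.sum_univ_three]; ring
      · rw [det_fin_three]
        intro hz
        apply mul_ne_zero h ht'
        simp at hz
        linear_combination -hz
    · refine crit ![q 2, 0, -q 0] ![0, q 2, -q 1] (fun hn => absurd hn ht) (fun _ => ⟨?_, ?_⟩) ?_
      · simp [dotProduct, Fin.sum_univ_three]; ring
      · simp [dotProduct, Fin.sum_univ_three]; ring
      · rw [det_fin_three]
        intro hz
        apply mul_ne_zero h ht'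
        simp at hz
        linear_combination hz

theorem sim_rank_one {F : Type*} [Field F] (a : F) (p q p' q' : Fin 3 → F) (hp : p ≠ 0)
    (hq : q ≠ 0) (hp' : p' ≠ 0) (hq' : q' ≠ 0) (ht : q ⬝ᵥ p = q' ⬝ᵥ p') :
    Sim (a • (1 : M3 F) + vecMulVec p q) (a • (1 : M3 F) + vecMulVec p' q') := by
  classical
  obtain ⟨M, hM, hMp, hMq⟩ := exists_adapted p q hp hq
  obtain ⟨N, hN, hNp, hNq⟩ := exists_adapted p' q' hp' hq'
  rw [← ht] at hNq
  have hMu : IsUnit M.det := isUnit_iff_ne_zero.2 hM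
  have hNu : IsUnit N.det := isUnit_iff_ne_zero.2 hN
  refine ⟨nonsingInvUnit _ hNu * (nonsingInvUnit _ hMu)⁻¹, ?_⟩
  have e1 : ((nonsingInvUnit _ hNu * (nonsingInvUnit _ hMu)⁻¹ : (M3 F)ˣ) : M3 F) =
      N * M⁻¹ := rfl
  have e2 : (((nonsingInvUnit _ hNu * (nonsingInvUnit _ hMu)⁻¹)⁻¹ : (M3 F)ˣ) : M3 F) =
      M * N⁻¹ := rfl
  rw [e1, e2]
  have hpe : M⁻¹ *ᵥ p = Pi.single 0 1 := by
    have h1 : p = M *ᵥ (Pi.single 0 1) := by
      funext i
      rw [Matrix.mulVec_single_one]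
      exact (hMp i).symm
    rw [h1, mulVec_mulVec, nonsing_inv_mul _ hMu, one_mulVec]
  have hpe' : (N * M⁻¹) *ᵥ p = p' := by
    rw [← mulVec_mulVec, hpe]
    funext i
    rw [Matrix.mulVec_single_one]
    exact hNp i
  have hqe : q ᵥ* (M * N⁻¹) = q' := by
    rw [← vecMul_vecMul, hMq, ← hNq, vecMul_vecMul, mul_nonsing_inv _ hNu, vecMul_one]
  have h2 : N * M⁻¹ * vecMulVec p q * (M * N⁻¹) = vecMulVec p' q' := by
    rw [Matrix.mul_assoc, vecMulVec_mul, mul_vecMulVec, hqe, hpe']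
  have h3 : N * M⁻¹ * (a • (1 : M3 F)) * (M * N⁻¹) = a • (1 : M3 F) := by
    rw [Matrix.mul_smul, Matrix.mul_one, Matrix.smul_mul, Matrix.mul_assoc,
      ← Matrix.mul_assoc M⁻¹ M, nonsing_inv_mul _ hMu, Matrix.one_mul, mul_nonsing_inv _ hNu]
  rw [Matrix.mul_add, Matrix.add_mul, h2, h3]

theorem cyc_conj {F : Type*} [Field F] (A B g : M3 F) (h : A * g = g * B) (x : Fin 3 → F) :
    Cyc A (g *ᵥ x) = Cyc B x * gᵀ := by
  have h0 : ∀ y, A *ᵥ (g *ᵥ y) = g *ᵥ (B *ᵥ y) := by
    intro y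
    rw [mulVec_mulVec, h, mulVec_mulVec]
  have h1 : A *ᵥ (g *ᵥ x) = g *ᵥ (B *ᵥ x) := h0 x
  have h2 : A *ᵥ (A *ᵥ (g *ᵥ x)) = g *ᵥ (B *ᵥ (B *ᵥ x)) := by
    rw [h0 x, h0 (B *ᵥ x)]
  have h3 : ∀ (y : Fin 3 → F) (i : Fin 3), (g *ᵥ y) i = ∑ k, y k * g i k := by
    intro y i
    rw [mulVec, dotProduct]
    exact Finset.sum_congr rfl fun k _ => mul_comm _ _
  ext i j
  rw [Matrix.mul_apply]
  unfold Cyc
  fin_cases i
  · simpa using h3 x j
  · simp only [Fin.mk_one, of_apply, cons_val_one, cons_val_zero, transpose_apply]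
    rw [h1]; exact h3 _ j
  · simp only [Fin.reduceFinMk, of_apply, cons_val, transpose_apply]
    rw [h2]; exact h3 _ j

/-- The key computation. -/
theorem std_form {F : Type*} [Field F] (al be ga r s t : F)
    (hno : ∀ x : Fin 3 → F, det (Cyc !![0, be, r; 1, al, s; 0, ga, t] x) = 0) :
    ga = 0 ∧ be = -t * (al - t) ∧ r = -t * s := by
  have hga : ga = 0 := by
    have h := hno ![1, 0, 0]
    rw [det_fin_three] at h
    simpa [Cyc, mulVec, dotProduct, Fin.sum_univ_three] using h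
  subst hga
  have key : ∀ x y : F, (-t * x + be * y + r) ^ 2 + al * (-t * x + be * y + r) *
      (x + (al - t) * y + s) - be * (x + (al - t) * y + s) ^ 2 = 0 := by
    intro x y
    have h := hno ![x, y, 1]
    rw [det_fin_three] at h
    simp [Cyc, mulVec, dotProduct, Fin.sum_univ_three] at h
    linear_combination h
  have hm : be = -t * (al - t) := by
    by_contra hne
    have hD : be + t * (al - t) ≠ 0 := fun h => hne (by linear_combination h)
    have h := key (((1 - r) * (al - t) + be * s) / (-(be + t * (al - t))))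
      ((1 - r - t * s) / (be + t * (al - t)))
    have e1 : -t * (((1 - r) * (al - t) + be * s) / (-(be + t * (al - t)))) +
        be * ((1 - r - t * s) / (be + t * (al - t))) + r = 1 := by
      field_simp
      ring
    have e2 : (((1 - r) * (al - t) + be * s) / (-(be + t * (al - t)))) +
        (al - t) * ((1 - r - t * s) / (be + t * (al - t))) + s = 0 := by
      field_simp
      ring
    rw [e1, e2] at h
    simp at h
  refine ⟨rfl, hm, ?_⟩
  have k0 := key 0 0
  have k1 := key 1 0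
  rw [hm] at k0 k1
  have f0 : (r + t * s) * (r + (al - t) * s) = 0 := by linear_combination k0
  have f1 : (r + t * s) * (r + (al - t) * s + (al - t - t)) = 0 := by linear_combination k1
  by_contra hne
  have hne' : r + t * s ≠ 0 := fun h => hne (by linear_combination h)
  have g0 := (mul_eq_zero.1 f0).resolve_left hne'
  have g1 := (mul_eq_zero.1 f1).resolve_left hne'
  have g2 : al - t - t = 0 := by linear_combination g1 - g0
  have g3 : al = 2 * t := by linear_combination g2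
  rw [g3] at g0
  exact hne' (by linear_combination g0)

theorem trichotomy' {F : Type*} [Field F] (A : M3 F) :
    (∃ v, det (Cyc A v) ≠ 0) ∨
    (∃ (a : F) (p q : Fin 3 → F), p ≠ 0 ∧ q ≠ 0 ∧ A = a • (1 : M3 F) + vecMulVec p q) ∨
    (∃ a : F, A = a • (1 : M3 F)) := by
  by_cases hc : ∃ v, det (Cyc A v) ≠ 0
  · exact Or.inl hc
  right
  push Not at hc
  by_cases hsc : ∀ (v : Fin 3 → F) (i j : Fin 3), v i * (A *ᵥ v) j - v j * (A *ᵥ v) i = 0
  · right
    have hd : ∀ i j, i ≠ j → A j i = 0 := by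
      intro i j hij
      have h := hsc (Pi.single i 1) i j
      rw [mulVec_single_one] at h
      simpa [hij.symm] using h
    have he : ∀ i j, i ≠ j → A i i = A j j := by
      intro i j hij
      have h := hsc (Pi.single i 1 + Pi.single j 1) i j
      rw [mulVec_add, mulVec_single_one, mulVec_single_one] at h
      simp [hij, hij.symm, hd i j hij, hd j i hij.symm] at h
      linear_combination -h
    refine ⟨A 0 0, ?_⟩
    ext i j
    by_cases hij : i = j
    · subst hij
      simp only [Matrix.smul_apply, one_apply_eq, smul_eq_mul, mul_one]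
      by_cases hi : i = 0
      · rw [hi]
      · exact he i 0 hi
    · rw [hd j i (Ne.symm hij)]
      simp [hij]
  · left
    push Not at hsc
    obtain ⟨v, i, j, hv⟩ := hsc
    -- the third basis vector
    obtain ⟨w, hw⟩ : ∃ w : Fin 3 → F,
        (!![v 0, (A *ᵥ v) 0, w 0; v 1, (A *ᵥ v) 1, w 1; v 2, (A *ᵥ v) 2, w 2] : M3 F).det ≠ 0 := by
      by_contra hcon
      push Not at hcon
      have h0 := hcon ![1, 0, 0]
      have h1 := hcon ![0, 1, 0]
      have h2 := hcon ![0, 0, 1]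
      rw [det_fin_three] at h0 h1 h2
      simp at h0 h1 h2
      apply hv
      clear hv
      fin_cases i <;> fin_cases j <;> simp only [Fin.zero_eta, Fin.mk_one, Fin.reduceFinMk] <;>
        first
        | ring1
        | linear_combination h0
        | linear_combination -h0
        | linear_combination h1
        | linear_combination -h1
        | linear_combination h2
        | linear_combination -h2
    set g : M3 F := !![v 0, (A *ᵥ v) 0, w 0; v 1, (A *ᵥ v) 1, w 1; v 2, (A *ᵥ v) 2, w 2] with hg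
    have hgu : IsUnit g.det := isUnit_iff_ne_zero.2 hw
    set B : M3 F := g⁻¹ * A * g with hB
    have hAg : A * g = g * B := by
      rw [hB, Matrix.mul_assoc g⁻¹ A g, mul_nonsing_inv_cancel_left _ _ hgu]
    -- the first column of `B`
    have h1 : B *ᵥ (Pi.single 0 1) = Pi.single 1 1 := by
      have h2 : g *ᵥ (Pi.single 0 1) = v := by
        rw [mulVec_single_one]
        funext k
        fin_cases k <;> rfl
      have h3 : A *ᵥ v = g *ᵥ (Pi.single 1 1) := by
        rw [mulVec_single_one]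
        funext k
        fin_cases k <;> rfl
      rw [hB, ← mulVec_mulVec, h2, ← mulVec_mulVec, h3, mulVec_mulVec, nonsing_inv_mul _ hgu,
        one_mulVec]
    rw [mulVec_single_one] at h1
    have c0 : B 0 0 = 0 := (congrFun h1 0).trans (by simp)
    have c1 : B 1 0 = 1 := (congrFun h1 1).trans (by simp)
    have c2' : B 2 0 = 0 := (congrFun h1 2).trans (by simp)
    have hBe : B = !![0, B 0 1, B 0 2; 1, B 1 1, B 1 2; 0, B 2 1, B 2 2] := by
      ext k l
      fin_cases k <;> fin_cases l <;> first | rfl | exact c0 | exact c1 | exact c2'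
    have hno : ∀ x : Fin 3 → F,
        det (Cyc !![0, B 0 1, B 0 2; 1, B 1 1, B 1 2; 0, B 2 1, B 2 2] x) = 0 := by
      intro x
      rw [← hBe]
      have h1 := hc (g *ᵥ x)
      rw [cyc_conj A B g hAg x, det_mul, det_transpose] at h1
      exact (mul_eq_zero.1 h1).resolve_right hw
    obtain ⟨h1, h2, h3⟩ := std_form _ _ _ _ _ _ hno
    have hBr : B = B 2 2 • (1 : M3 F) + vecMulVec ![-B 2 2, 1, 0] ![1, B 1 1 - B 2 2, B 1 2] := by
      ext k l
      rw [Matrix.add_apply, Matrix.smul_apply, vecMulVec_apply, one_apply]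
      fin_cases k <;> fin_cases l
      · simp [c0]
      · simp only [Fin.zero_eta, Fin.mk_one, Fin.isValue, zero_ne_one, if_false, smul_zero,
          cons_val_zero, cons_val_one, zero_add]
        exact h2
      · simp only [Fin.zero_eta, Fin.reduceFinMk, Fin.isValue, smul_zero,
          cons_val_zero, cons_val, zero_add]
        rw [if_neg (by decide), smul_zero, zero_add]
        exact h3
      · simp [c1]
      · simp
      · simp
      · simp [c2']
      · simp [h1]
      · simp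
    have hA : A = g * B * g⁻¹ := by
      rw [← hAg, mul_nonsing_inv_cancel_right _ _ hgu]
    refine ⟨B 2 2, g *ᵥ ![-B 2 2, 1, 0], ![1, B 1 1 - B 2 2, B 1 2] ᵥ* g⁻¹, ?_, ?_, ?_⟩
    · intro h
      have h4 : g⁻¹ *ᵥ (g *ᵥ ![-B 2 2, 1, 0]) = ![-B 2 2, 1, 0] := by
        rw [mulVec_mulVec, nonsing_inv_mul _ hgu, one_mulVec]
      rw [h, mulVec_zero] at h4
      have h5 := congrFun h4 1
      simp at h5
    · intro h
      have h4 : (![1, B 1 1 - B 2 2, B 1 2] ᵥ* g⁻¹) ᵥ* g = ![1, B 1 1 - B 2 2, B 1 2] := by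
        rw [vecMul_vecMul, nonsing_inv_mul _ hgu, vecMul_one]
      rw [h, zero_vecMul] at h4
      have h5 := congrFun h4 0
      simp at h5
    · rw [← mul_vecMulVec, ← vecMulVec_mul]
      have h6 : B 2 2 • (1 : M3 F) = g * (B 2 2 • (1 : M3 F)) * g⁻¹ := by
        rw [Matrix.mul_smul, Matrix.mul_one, Matrix.smul_mul, mul_nonsing_inv _ hgu]
      rw [h6, ← Matrix.mul_assoc, ← Matrix.add_mul, ← Matrix.mul_add, ← hBr]
      exact hA

theorem trichotomy {F : Type*} [Field F] [IsAlgClosed F] (A : M3 F) :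
    (∃ v, det (Cyc A v) ≠ 0) ∨
    (∃ (a : F) (p q : Fin 3 → F), p ≠ 0 ∧ q ≠ 0 ∧ A = a • (1 : M3 F) + vecMulVec p q) ∨
    (∃ a : F, A = a • (1 : M3 F)) := trichotomy' A

end Pool.Agent.H24ML
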