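import Pool.Agent.Helper24.ML.Pauli

/-!
# Structure constants of a multilinear polynomial in the Pauli basis (block PB)
-/

open Matrix

namespace Pool.Agent.H24ML

theorem evalML_map {K R S : Type*} [Field K] [CommRing R] [CommRing S] [Algebra K R]
    [Algebra K S] (f : R →ₐ[K] S) {m : ℕ} (c : Equiv.Perm (Fin m) → K) (x : Fin m → M3 R) :
    evalML S c (fun j => (x j).map f) = (evalML R c x).map f := by
  rw [evalML_apply, evalML_apply]
  have h1 : ∀ M : M3 R, M.map f = (f : R →+* S).mapMatrix M := fun M => rfl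
  simp only [h1]
  rw [map_sum]
  refine Finset.sum_congr rfl fun σ _ => ?_
  have h2 : (f : R →+* S).mapMatrix (algebraMap K R (c σ) • (List.ofFn fun k => x (σ k)).prod)
      = f (algebraMap K R (c σ)) • (f : R →+* S).mapMatrix (List.ofFn fun k => x (σ k)).prod := by
    ext a b
    exact map_mul f _ _
  rw [h2, map_list_prod, List.map_ofFn, AlgHom.commutes]
  rfl

/-- conjugation as a ring homomorphism -/
def cj {R : Type*} [CommRing R] (g : (M3 R)ˣ) : M3 R →+* M3 R where
  toFun x := (g : M3 R) * x * ((g⁻¹ : (M3 R)ˣ) : M3 R)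
  map_one' := by simp
  map_zero' := by simp
  map_add' a b := by simp [mul_add, add_mul]
  map_mul' a b := by
    have h : ((g⁻¹ : (M3 R)ˣ) : M3 R) * (g : M3 R) = 1 := g.inv_mul
    calc (g : M3 R) * (a * b) * ((g⁻¹ : (M3 R)ˣ) : M3 R)
        = (g : M3 R) * a * 1 * b * ((g⁻¹ : (M3 R)ˣ) : M3 R) := by simp only [mul_one, mul_assoc]
      _ = _ := by rw [← h]; simp only [mul_assoc]

theorem evalML_conj {K R : Type*} [Field K] [CommRing R] [Algebra K R] {m : ℕ}
    (c : Equiv.Perm (Fin m) → K) (x : Fin m → M3 R) (g : (M3 R)ˣ) :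
    evalML R c (fun j => (g : M3 R) * x j * ((g⁻¹ : (M3 R)ˣ) : M3 R))
      = (g : M3 R) * evalML R c x * ((g⁻¹ : (M3 R)ˣ) : M3 R) := by
  rw [evalML_apply, evalML_apply]
  have h1 : ∀ M : M3 R, (g : M3 R) * M * ((g⁻¹ : (M3 R)ˣ) : M3 R) = cj g M := fun M => rfl
  simp only [h1]
  rw [map_sum]
  refine Finset.sum_congr rfl fun σ _ => ?_
  have h2 : cj g (algebraMap K R (c σ) • (List.ofFn fun k => x (σ k)).prod)
      = algebraMap K R (c σ) • cj g (List.ofFn fun k => x (σ k)).prod := by
    rw [← h1, ← h1, Matrix.mul_smul, Matrix.smul_mul]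
  rw [h2, map_list_prod, List.map_ofFn]
  rfl

/-- product of a list of Pauli matrices -/
theorem prod_h {K : Type*} [CommRing K] (w : K) (hw : w ^ 3 = 1) (L : List V) :
    ∃ e : ℕ, (L.map (h w)).prod = w ^ e • h w L.sum := by
  induction L with
  | nil => exact ⟨0, by simp [h_zero]⟩
  | cons a L ih =>
    obtain ⟨e, he⟩ := ih
    obtain ⟨e', he'⟩ := h_mul w hw a L.sum
    refine ⟨e + e', ?_⟩
    rw [List.map_cons, List.prod_cons, List.sum_cons, he, Matrix.mul_smul, he', smul_smul,
      pow_add]

theorem exists_struct.{u} {K : Type u} [Field K] (w : K) (hw : w ^ 3 = 1) {m : ℕ}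
    (c : Equiv.Perm (Fin m) → K) :
    ∃ C : (Fin m → V) → K, ∀ (R : Type u) [CommRing R] [Algebra K R] (v : Fin m → V),
      evalML R c (fun j => h (algebraMap K R w) (v j))
        = algebraMap K R (C v) • h (algebraMap K R w) (∑ j, v j) := by
  classical
  choose e he using fun L : List V => prod_h w hw L
  refine ⟨fun v => ∑ σ : Equiv.Perm (Fin m), c σ * w ^ e (List.ofFn fun k => v (σ k)), ?_⟩
  intro R _ _ v
  rw [evalML_apply, map_sum, Finset.sum_smul]
  refine Finset.sum_congr rfl fun σ _ => ?_
  have h1 : (List.ofFn fun k => h (algebraMap K R w) (v (σ k))).prod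
      = (algebraMap K R w) ^ e (List.ofFn fun k => v (σ k)) •
        h (algebraMap K R w) (∑ j, v j) := by
    have h2 := congrArg (fun M => (algebraMap K R).mapMatrix M) (he (List.ofFn fun k => v (σ k)))
    beta_reduce at h2
    rw [map_list_prod, List.map_ofFn, List.map_ofFn] at h2
    have h3 : (⇑(algebraMap K R).mapMatrix ∘ h w ∘ fun k => v (σ k))
        = fun k => h (algebraMap K R w) (v (σ k)) := by
      funext k
      exact h_map (algebraMap K R) w (v (σ k))
    rw [h3] at h2
    rw [h2]
    have h4 : (algebraMap K R).mapMatrix (w ^ e (List.ofFn fun k => v (σ k)) •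
        h w (List.ofFn fun k => v (σ k)).sum)
        = (algebraMap K R w) ^ e (List.ofFn fun k => v (σ k)) •
          (h w (List.ofFn fun k => v (σ k)).sum).map (algebraMap K R) := by
      ext a b
      simp [Matrix.smul_apply]
    rw [h4, h_map, List.sum_ofFn, Equiv.sum_comp σ v]
  rw [h1, smul_smul, map_mul, map_pow]

/-- expansion of the polynomial in the Pauli basis. -/
theorem evalML_expand {K R : Type*} [Field K] [CommRing R] [Algebra K R] (w : K) {m : ℕ}
    (c : Equiv.Perm (Fin m) → K) (C : (Fin m → V) → K)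
    (hC : ∀ v : Fin m → V, evalML R c (fun j => h (algebraMap K R w) (v j))
        = algebraMap K R (C v) • h (algebraMap K R w) (∑ j, v j))
    (i : Fin m) (X : Fin m → V → R) (y : V → R) :
    slot R c i (fun j => ∑ v : V, X j v • h (algebraMap K R w) v)
        (∑ b : V, y b • h (algebraMap K R w) b)
      = ∑ u : V, (slotMat C i X *ᵥ y) u • h (algebraMap K R w) u := by
  classical
  set H : V → M3 R := h (algebraMap K R w) with hH
  rw [slot_apply]
  have h1 : Function.update (fun j => ∑ v : V, X j v • H v) i (∑ b : V, y b • H b)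
      = fun j => ∑ v : V, (Function.update X i y j v) • H v := by
    funext j
    by_cases hj : j = i
    · subst hj; simp
    · simp [Function.update_of_ne hj]
  rw [h1, MultilinearMap.map_sum]
  have h2 : ∀ v : Fin m → V,
      (evalML R c fun j => Function.update X i y j (v j) • H (v j))
        = ((algebraMap K R (C v) * ∏ j ∈ Finset.univ.erase i, X j (v j)) * y (v i)) •
          H (∑ j, v j) := by
    intro v
    rw [MultilinearMap.map_smul_univ, hC v, smul_smul]
    congr 1
    rw [← Finset.mul_prod_erase Finset.univ _ (Finset.mem_univ i), Function.update_self]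
    have h3 : ∏ j ∈ Finset.univ.erase i, Function.update X i y j (v j)
        = ∏ j ∈ Finset.univ.erase i, X j (v j) := by
      refine Finset.prod_congr rfl fun j hj => ?_
      rw [Function.update_of_ne (Finset.ne_of_mem_erase hj)]
    rw [h3]
    ring
  rw [Finset.sum_congr rfl fun v _ => h2 v]
  simp only [Matrix.mulVec, dotProduct, slotMat]
  have h4 : ∀ u : V, (∑ b : V, (∑ v : Fin m → V, if v i = b ∧ ∑ j, v j = u then
      algebraMap K R (C v) * ∏ j ∈ Finset.univ.erase i, X j (v j) else 0) * y b) • H u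
      = ∑ v : Fin m → V, if ∑ j, v j = u then
        ((algebraMap K R (C v) * ∏ j ∈ Finset.univ.erase i, X j (v j)) * y (v i)) • H u
        else 0 := by
    intro u
    simp only [Finset.sum_mul]
    rw [Finset.sum_comm, Finset.sum_smul]
    refine Finset.sum_congr rfl fun v _ => ?_
    rw [Finset.sum_eq_single (v i)]
    · by_cases hu : ∑ j, v j = u
      · simp [hu]
      · simp [hu]
    · intro b _ hb
      rw [if_neg (fun hh => hb hh.1.symm), zero_mul]
    · intro hh
      exact absurd (Finset.mem_univ _) hh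
  rw [Finset.sum_congr rfl fun u _ => h4 u, Finset.sum_comm]
  refine Finset.sum_congr rfl fun v _ => ?_
  rw [Finset.sum_ite_eq]
  simp

end Pool.Agent.H24ML
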