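import Pool.Agent.Helper24.ML.Pauli
import Pool.Agent.Helper24.ML.Struct
import Pool.Agent.Helper24.ML.Sim
import Pool.Agent.Helper24.ML.Descent
import Pool.Agent.Helper24.ML.Limit

/-! Basic tools for the assembly. -/

open Matrix

namespace Pool.Agent.H24ML

universe u

/-- matrix with given Pauli coordinates -/
def toM {R : Type*} [CommRing R] (w : R) (y : V → R) : M3 R := ∑ v : V, y v • h w v

section toM

variable {R : Type*} [CommRing R]

theorem toM_add (w : R) (y z : V → R) : toM w (y + z) = toM w y + toM w z := by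
  simp [toM, add_smul, Finset.sum_add_distrib]

theorem toM_smul (w : R) (a : R) (y : V → R) : toM w (a • y) = a • toM w y := by
  simp [toM, mul_smul, Finset.smul_sum]

theorem toM_zero (w : R) : toM w 0 = 0 := by simp [toM]

/-- `toM` as a linear map -/
def toML (w : R) : (V → R) →ₗ[R] M3 R where
  toFun := toM w
  map_add' := toM_add w
  map_smul' := toM_smul w

theorem toML_apply (w : R) (y : V → R) : toML w y = toM w y := rfl

theorem toM_map {S : Type*} [CommRing S] (f : R →+* S) (w : R) (y : V → R) :
    (toM w y).map f = toM (f w) (fun v => f (y v)) := by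
  have h1 : ∀ M : M3 R, M.map f = f.mapMatrix M := fun M => rfl
  rw [h1, toM, map_sum, toM]
  refine Finset.sum_congr rfl fun v _ => ?_
  rw [← h_map f w v, ← h1]
  ext a b
  simp

theorem toM_single (w : R) (v : V) (a : R) : toM w (Pi.single v a) = a • h w v := by
  rw [toM, Finset.sum_eq_single v]
  · simp
  · intro u _ hu
    rw [Pi.single_eq_of_ne hu, zero_smul]
  · intro hh
    exact absurd (Finset.mem_univ _) hh

theorem trace_toM (w : R) (hw : 1 + w + w ^ 2 = 0) (y : V → R) :
    trace (toM w y) = 3 * y 0 := by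
  rw [toM, trace_sum]
  simp only [trace_smul, trace_h w hw, smul_eq_mul, mul_ite, mul_zero]
  rw [Finset.sum_ite_eq' Finset.univ (0 : V) (fun v => y v * 3), if_pos (Finset.mem_univ _)]
  ring

theorem coord_sum (w t : R) (v : V) {ι : Type*} (s : Finset ι) (f : ι → M3 R) :
    coord w t v (∑ i ∈ s, f i) = ∑ i ∈ s, coord w t v (f i) := by
  classical
  induction s using Finset.induction_on with
  | empty => simp [coord]
  | insert a s ha ih => rw [Finset.sum_insert ha, Finset.sum_insert ha, coord_add, ih]

theorem coord_toM (w t : R) (hw : 1 + w + w ^ 2 = 0) (ht : t * 3 = 1) (y : V → R) (v : V) :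
    coord w t v (toM w y) = y v := by
  rw [toM, coord_sum]
  simp only [coord_smul, coord_h w t hw ht, mul_ite, mul_one, mul_zero]
  rw [Finset.sum_ite_eq, if_pos (Finset.mem_univ _)]

theorem toM_coord (w t : R) (hw : 1 + w + w ^ 2 = 0) (ht : t * 3 = 1) (N : M3 R) :
    toM w (fun v => coord w t v N) = N := (sum_coord w t hw ht N).symm

end toM

section Sim

variable {F : Type*} [Field F]

theorem Sim.symm {A B : M3 F} (hAB : Sim A B) : Sim B A := by
  obtain ⟨g, hg⟩ := hAB
  refine ⟨g⁻¹, ?_⟩
  rw [hg, inv_inv]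
  simp only [Matrix.mul_assoc]
  rw [g.inv_mul, Matrix.mul_one, ← Matrix.mul_assoc, g.inv_mul, Matrix.one_mul]

theorem Sim.trans {A B D : M3 F} (hAB : Sim A B) (hBD : Sim B D) : Sim A D := by
  obtain ⟨g, hg⟩ := hAB
  obtain ⟨g', hg'⟩ := hBD
  refine ⟨g' * g, ?_⟩
  rw [hg', hg, _root_.mul_inv_rev, Units.val_mul, Units.val_mul]
  simp only [Matrix.mul_assoc]

end Sim

/-- The final step: descent from a field extension. -/
theorem fin_step {K Ω : Type*} [Field K] [IsAlgClosed K] [Field Ω] [Algebra K Ω] {m : ℕ}
    (c : Equiv.Perm (Fin m) → K) (A : M3 K) (M : M3 Ω) (i : Fin m) (a : Fin m → M3 Ω)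
    (hM : M ∈ LinearMap.range (slot Ω c i a)) (hS : Sim M (A.map (algebraMap K Ω))) :
    ∃ x : Fin m → M3 K, evalML K c x = A := by
  apply descend (L := Ω)
  obtain ⟨z, hz⟩ := hM
  obtain ⟨g, hg⟩ := hS
  refine ⟨fun j => (g : M3 Ω) * (Function.update a i z) j * ((g⁻¹ : (M3 Ω)ˣ) : M3 Ω), ?_⟩
  rw [evalML_conj, hg, ← hz, slot_apply]

section slots

variable {K : Type u} [Field K]

/-- expansion in terms of `toM` -/
theorem slot_toM {m : ℕ} (w : K) (c : Equiv.Perm (Fin m) → K) (C : (Fin m → V) → K)
    (hC : ∀ (R : Type u) [CommRing R] [Algebra K R] (v : Fin m → V),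
      evalML R c (fun j => h (algebraMap K R w) (v j))
        = algebraMap K R (C v) • h (algebraMap K R w) (∑ j, v j))
    (R : Type u) [CommRing R] [Algebra K R] (i : Fin m) (X : Fin m → V → R) (y : V → R) :
    slot R c i (fun j => toM (algebraMap K R w) (X j)) (toM (algebraMap K R w) y)
      = toM (algebraMap K R w) (slotMat C i X *ᵥ y) :=
  evalML_expand w c C (hC R) i X y

theorem exists_zero_sum {m : ℕ} (w t : K) (hw : 1 + w + w ^ 2 = 0) (ht : t * 3 = 1)
    (c : Equiv.Perm (Fin m) → K) (C : (Fin m → V) → K)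
    (hC : ∀ (R : Type u) [CommRing R] [Algebra K R] (v : Fin m → V),
      evalML R c (fun j => h (algebraMap K R w) (v j))
        = algebraMap K R (C v) • h (algebraMap K R w) (∑ j, v j))
    (i : Fin m) (x : Fin m → M3 K) (hx : trace (evalML K c x) ≠ 0) :
    ∃ v : Fin m → V, ∑ j, v j = 0 ∧ C v ≠ 0 := by
  have e1 : ∀ j, x j = toM w (fun v => coord w t v (x j)) := fun j =>
    (toM_coord w t hw ht (x j)).symm
  have e2 : evalML K c x = slot K c i x (x i) := by
    rw [slot_apply, Function.update_eq_self]
  have e3 : slot K c i x (x i) = toM w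
      (slotMat C i (fun j v => coord w t v (x j)) *ᵥ (fun v => coord w t v (x i))) := by
    have := slot_toM w c C hC K i (fun j v => coord w t v (x j)) (fun v => coord w t v (x i))
    simp only [Algebra.algebraMap_self, RingHom.id_apply] at this
    rw [← this]
    congr 1
    · congr 1
      funext j
      exact e1 j
    · exact e1 i
  rw [e2, e3, trace_toM w hw] at hx
  by_contra hcon
  push Not at hcon
  apply hx
  have e4 : (slotMat C i (fun j v => coord w t v (x j)) *ᵥ (fun v => coord w t v (x i))) 0
      = 0 := by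
    rw [Matrix.mulVec, dotProduct]
    refine Finset.sum_eq_zero fun b _ => ?_
    have e5 : slotMat C i (fun j v => coord w t v (x j)) 0 b = 0 := by
      simp only [slotMat]
      refine Finset.sum_eq_zero fun v _ => ?_
      by_cases hv : v i = b ∧ ∑ j, v j = 0
      · rw [if_pos hv, hcon v hv.2, map_zero, zero_mul]
      · rw [if_neg hv]
    rw [e5, zero_mul]
  rw [e4, mul_zero]

theorem exists_rank {m : ℕ} (w t : K) (hw : 1 + w + w ^ 2 = 0) (ht : t * 3 = 1)
    (c : Equiv.Perm (Fin m) → K) (C : (Fin m → V) → K)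
    (hC : ∀ (R : Type u) [CommRing R] [Algebra K R] (v : Fin m → V),
      evalML R c (fun j => h (algebraMap K R w) (v j))
        = algebraMap K R (C v) • h (algebraMap K R w) (∑ j, v j))
    (i : Fin m) (a : Fin m → M3 K) (n : ℕ)
    (ha : n ≤ Module.finrank K (LinearMap.range (slot K c i a))) :
    ∃ X : Fin m → V → K, n ≤ (slotMat C i X).rank := by
  refine ⟨fun j v => coord w t v (a j), ha.trans ?_⟩
  have e1 : ∀ j, a j = toM w (fun v => coord w t v (a j)) := fun j =>
    (toM_coord w t hw ht (a j)).symm
  have e2 : LinearMap.range (slot K c i a)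
      ≤ (LinearMap.range (slotMat C i (fun j v => coord w t v (a j))).mulVecLin).map
        (toML w) := by
    rintro _ ⟨z, rfl⟩
    have := slot_toM w c C hC K i (fun j v => coord w t v (a j)) (fun v => coord w t v z)
    simp only [Algebra.algebraMap_self, RingHom.id_apply] at this
    rw [toM_coord w t hw ht z] at this
    refine ⟨_, ⟨fun v => coord w t v z, rfl⟩, ?_⟩
    rw [toML_apply, Matrix.mulVecLin_apply, ← this]
    congr 2
    funext j
    exact (e1 j).symm
  calc Module.finrank K (LinearMap.range (slot K c i a))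
      ≤ Module.finrank K ((LinearMap.range
        (slotMat C i (fun j v => coord w t v (a j))).mulVecLin).map (toML w)) :=
        Submodule.finrank_mono e2
    _ ≤ Module.finrank K (LinearMap.range
        (slotMat C i (fun j v => coord w t v (a j))).mulVecLin) :=
        Submodule.finrank_map_le _ _
    _ = (slotMat C i (fun j v => coord w t v (a j))).rank := rfl

end slots

end Pool.Agent.H24ML
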