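import Pool.Agent.Helper24.ML.Defs

/-!
# Clifford group: symplectic automorphisms of the Pauli basis are inner (block CL, helper26)
-/

open Matrix

namespace Pool.Agent.H24ML

namespace CL

variable {K : Type*} [Field K]

theorem pX_cube (w : K) (hw : w ^ 3 = 1) : (pX w) ^ 3 = (1 : M3 K) := by
  rw [pow_succ, pow_two]
  ext i j
  fin_cases i <;> fin_cases j <;> simp [pX, Matrix.mul_apply, Fin.sum_univ_three] <;>
    first
    | linear_combination hw
    | linear_combination (w ^ 3 + 1) * hw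

theorem pY_cube : (pY : M3 K) ^ 3 = 1 := by
  rw [pow_succ, pow_two]
  ext i j
  fin_cases i <;> fin_cases j <;> simp [pY, Matrix.mul_apply, Fin.sum_univ_three]

/-- `Y X = w² X Y`. -/
theorem pY_mul_pX (w : K) (hw : w ^ 3 = 1) : pY * pX w = (w ^ 2) • (pX w * pY) := by
  ext i j
  fin_cases i <;> fin_cases j <;> simp [pX, pY, Matrix.mul_apply, Fin.sum_univ_three] <;>
    first
    | linear_combination (-1) * hw
    | linear_combination (-w) * hw

theorem pY_mul_pX_pow (w : K) (hw : w ^ 3 = 1) (n : ℕ) :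
    pY * pX w ^ n = ((w ^ 2) ^ n) • (pX w ^ n * pY) := by
  induction n with
  | zero => simp
  | succ n ih =>
    rw [pow_succ, ← mul_assoc, ih, smul_mul_assoc, mul_assoc, pY_mul_pX w hw, mul_smul_comm,
      smul_smul, ← pow_succ, ← mul_assoc]

theorem pY_pow_mul_pX_pow (w : K) (hw : w ^ 3 = 1) (m n : ℕ) :
    ∃ e : ℕ, pY ^ m * pX w ^ n = (w ^ e) • (pX w ^ n * pY ^ m) := by
  induction m with
  | zero => exact ⟨0, by simp⟩
  | succ m ih =>
    obtain ⟨e, he⟩ := ih
    refine ⟨2 * n + e, ?_⟩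
    rw [pow_succ, mul_assoc, pY_mul_pX_pow w hw, mul_smul_comm, ← mul_assoc, he, smul_mul_assoc,
      smul_smul, mul_assoc, ← pow_mul, ← pow_add]

theorem pow_val_add {M : Type*} [Monoid M] (x : M) (hx : x ^ 3 = 1) (a b : ZMod 3) :
    x ^ a.val * x ^ b.val = x ^ (a + b).val := by
  rw [← pow_add, ZMod.val_add]
  exact pow_eq_pow_mod _ hx

theorem pow_val_nsmul {M : Type*} [Monoid M] (x : M) (hx : x ^ 3 = 1) (a b : ZMod 3) :
    (x ^ a.val) ^ b.val = x ^ (b * a).val := by
  rw [← pow_mul, ZMod.val_mul, mul_comm]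
  exact pow_eq_pow_mod _ hx

theorem h_mul' (w : K) (hw : w ^ 3 = 1) (v u : V) :
    ∃ e : ℕ, h w v * h w u = (w ^ e) • h w (v + u) := by
  obtain ⟨e, he⟩ := pY_pow_mul_pX_pow w hw v.2.val u.1.val
  refine ⟨e, ?_⟩
  unfold h
  rw [Prod.fst_add, Prod.snd_add, ← pow_val_add _ (pX_cube w hw), ← pow_val_add _ pY_cube]
  calc pX w ^ v.1.val * pY ^ v.2.val * (pX w ^ u.1.val * pY ^ u.2.val)
      = pX w ^ v.1.val * (pY ^ v.2.val * pX w ^ u.1.val) * pY ^ u.2.val := by
        simp only [mul_assoc]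
    _ = _ := by
        rw [he]
        simp only [mul_assoc, smul_mul_assoc, mul_smul_comm]

theorem h_pow' (w : K) (hw : w ^ 3 = 1) (v : V) (n : ℕ) :
    ∃ e : ℕ, h w v ^ n = (w ^ e) • h w (n • v) := by
  induction n with
  | zero => exact ⟨0, by simp [h]⟩
  | succ n ih =>
    obtain ⟨e, he⟩ := ih
    obtain ⟨e', he'⟩ := h_mul' w hw (n • v) v
    refine ⟨e + e', ?_⟩
    rw [pow_succ, he, smul_mul_assoc, he', smul_smul, ← pow_add, succ_nsmul]

/-- The action of the pair `(d, e)` on `V`. -/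
def act (p : V × V) (a : V) : V := (a.1 * p.1.1 + a.2 * p.2.1, a.1 * p.1.2 + a.2 * p.2.2)

/-- The property to be proved. -/
def Good (w : K) (p : V × V) : Prop :=
  ∃ G : (M3 K)ˣ, ∀ a : V, ∃ k : K, k ≠ 0 ∧
    (G : M3 K) * h w a * ((G⁻¹ : (M3 K)ˣ) : M3 K) = k • h w (act p a)

theorem conj_pow (G : (M3 K)ˣ) (A : M3 K) (n : ℕ) :
    (G : M3 K) * A ^ n * ((G⁻¹ : (M3 K)ˣ) : M3 K)
      = ((G : M3 K) * A * ((G⁻¹ : (M3 K)ˣ) : M3 K)) ^ n := by
  induction n with
  | zero => simp
  | succ n ih =>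
    rw [pow_succ, pow_succ, ← ih]
    simp [mul_assoc]

/-- It suffices to know the images of the two generators. -/
theorem good_of_gen (w : K) (hw : w ^ 3 = 1) (p : V × V) (G : (M3 K)ˣ) (k l : K)
    (hk : k ≠ 0) (hl : l ≠ 0) (hX : (G : M3 K) * pX w = k • (h w p.1 * (G : M3 K)))
    (hY : (G : M3 K) * pY = l • (h w p.2 * (G : M3 K))) : Good w p := by
  have hw0 : w ≠ 0 := by
    rintro rfl
    simp at hw
  refine ⟨G, fun a => ?_⟩
  have hX' : (G : M3 K) * pX w * ((G⁻¹ : (M3 K)ˣ) : M3 K) = k • h w p.1 := by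
    rw [hX, smul_mul_assoc, mul_assoc, Units.mul_inv, mul_one]
  have hY' : (G : M3 K) * pY * ((G⁻¹ : (M3 K)ˣ) : M3 K) = l • h w p.2 := by
    rw [hY, smul_mul_assoc, mul_assoc, Units.mul_inv, mul_one]
  obtain ⟨e1, he1⟩ := h_pow' w hw p.1 a.1.val
  obtain ⟨e2, he2⟩ := h_pow' w hw p.2 a.2.val
  obtain ⟨e3, he3⟩ := h_mul' w hw (a.1.val • p.1) (a.2.val • p.2)
  have hact : a.1.val • p.1 + a.2.val • p.2 = act p a := by
    ext <;> simp [act]
  refine ⟨k ^ a.1.val * l ^ a.2.val * (w ^ e1 * w ^ e2 * w ^ e3), ?_, ?_⟩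
  · exact mul_ne_zero (mul_ne_zero (pow_ne_zero _ hk) (pow_ne_zero _ hl))
      (mul_ne_zero (mul_ne_zero (pow_ne_zero _ hw0) (pow_ne_zero _ hw0)) (pow_ne_zero _ hw0))
  · calc (G : M3 K) * h w a * ((G⁻¹ : (M3 K)ˣ) : M3 K)
        = ((G : M3 K) * pX w ^ a.1.val * ((G⁻¹ : (M3 K)ˣ) : M3 K)) *
          ((G : M3 K) * pY ^ a.2.val * ((G⁻¹ : (M3 K)ˣ) : M3 K)) := by
          simp [h, mul_assoc]
      _ = (k ^ a.1.val • (w ^ e1 • h w (a.1.val • p.1))) *
          (l ^ a.2.val • (w ^ e2 • h w (a.2.val • p.2))) := by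
          rw [conj_pow, conj_pow, hX', hY', smul_pow, smul_pow, he1, he2]
      _ = _ := by
          simp only [smul_mul_assoc, mul_smul_comm, he3, hact, smul_smul]
          congr 1
          ring

theorem good_comp (w : K) (p q : V × V) (hq : Good w q) (hp : Good w p) :
    Good w (act q p.1, act q p.2) := by
  obtain ⟨G, hG⟩ := hp
  obtain ⟨G', hG'⟩ := hq
  refine ⟨G' * G, fun a => ?_⟩
  obtain ⟨k, hk, h1⟩ := hG a
  obtain ⟨l, hl, h2⟩ := hG' (act p a)
  refine ⟨k * l, mul_ne_zero hk hl, ?_⟩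
  have hact : act (act q p.1, act q p.2) a = act q (act p a) := by
    ext <;> simp only [act] <;> ring
  rw [hact]
  calc ((G' * G : (M3 K)ˣ) : M3 K) * h w a * (((G' * G)⁻¹ : (M3 K)ˣ) : M3 K)
      = (G' : M3 K) * ((G : M3 K) * h w a * ((G⁻¹ : (M3 K)ˣ) : M3 K))
          * ((G'⁻¹ : (M3 K)ˣ) : M3 K) := by
        simp [mul_assoc]
    _ = _ := by
        rw [h1, mul_smul_comm, smul_mul_assoc, h2, smul_smul]

theorem good_one (w : K) (hw : w ^ 3 = 1) : Good w ((1, 0), (0, 1)) := by
  refine good_of_gen w hw _ 1 1 1 one_ne_zero one_ne_zero ?_ ?_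
  · simp [h, ZMod.val_one]
  · simp [h, ZMod.val_one]

theorem good_T (w : K) (hw : w ^ 3 = 1) : Good w ((1, 0), (1, 1)) := by
  have hdet : IsUnit (det (!![1, 0, 0; 0, w, 0; 0, 0, 1] : M3 K)) := by
    rw [Matrix.det_fin_three]
    simp only [Matrix.of_apply, Matrix.cons_val]
    refine isUnit_iff_ne_zero.mpr ?_
    intro h0
    have : w = 0 := by linear_combination h0
    rw [this] at hw
    simp at hw
  obtain ⟨G, hG⟩ := (Matrix.isUnit_iff_isUnit_det _).mpr hdet
  refine good_of_gen w hw _ G 1 1 one_ne_zero one_ne_zero ?_ ?_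
  · rw [hG]
    simp only [h, ZMod.val_one, ZMod.val_zero, pow_one, pow_zero, mul_one, one_smul]
    ext i j
    fin_cases i <;> fin_cases j <;> simp [pX, Matrix.mul_apply, Fin.sum_univ_three]
  · rw [hG]
    simp only [h, ZMod.val_one, pow_one, one_smul]
    ext i j
    fin_cases i <;> fin_cases j <;> simp [pX, pY, Matrix.mul_apply, Fin.sum_univ_three]
    linear_combination (-1) * hw

theorem good_S (w : K) (hw : 1 + w + w ^ 2 = 0) (h3 : (3 : K) ≠ 0) :
    Good w ((0, 1), (2, 0)) := by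
  have hw3 : w ^ 3 = 1 := by linear_combination (w - 1) * hw
  have hdet : IsUnit (det (!![1, 1, 1; 1, w ^ 2, w; 1, w, w ^ 2] : M3 K)) := by
    rw [Matrix.det_fin_three]
    simp only [Matrix.of_apply, Matrix.cons_val]
    refine isUnit_iff_ne_zero.mpr ?_
    intro h0
    apply h3
    have hd : 3 * (w - w ^ 2) = 0 := by linear_combination h0 - w * hw3
    have h9 : (9 : K) = 0 := by
      linear_combination 3 * (w ^ 2 - 3 * w + 3) * hw - (w - w ^ 2) * hd
    have : (3 : K) * 3 = 0 := by rw [← h9]; norm_num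
    rcases mul_eq_zero.mp this with h | h <;> exact h
  obtain ⟨G, hG⟩ := (Matrix.isUnit_iff_isUnit_det _).mpr hdet
  refine good_of_gen w hw3 _ G 1 1 one_ne_zero one_ne_zero ?_ ?_
  · rw [hG]
    simp only [h, ZMod.val_one, ZMod.val_zero, pow_one, pow_zero, one_mul, one_smul]
    ext i j
    fin_cases i <;> fin_cases j <;> simp [pX, pY, Matrix.mul_apply, Fin.sum_univ_three] <;>
      first
      | ring1
      | linear_combination hw3
      | linear_combination w * hw3
  · rw [hG]
    have h2 : (2 : ZMod 3).val = 2 := rfl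
    simp only [h, h2, ZMod.val_zero, pow_zero, mul_one, one_smul, pow_two (pX w)]
    ext i j
    fin_cases i <;> fin_cases j <;> simp [pX, pY, Matrix.mul_apply, Fin.sum_univ_three] <;>
      first
      | ring1
      | linear_combination hw3
      | linear_combination w * hw3
      | linear_combination (-1 : K) * hw3
      | linear_combination (-w) * hw3
      | linear_combination (-w ^ 3 - 1) * hw3
      | linear_combination (-w ^ 2) * hw3

/-- One step of a word in the two generators. -/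
def step (b : Bool) (p : V × V) : V × V :=
  if b then (act ((0, 1), (2, 0)) p.1, act ((0, 1), (2, 0)) p.2)
  else (act ((1, 0), (1, 1)) p.1, act ((1, 0), (1, 1)) p.2)

/-- Words in the two generators. -/
def word (l : List Bool) : V × V := l.foldr step ((1, 0), (0, 1))

theorem good_word (w : K) (hw : 1 + w + w ^ 2 = 0) (h3 : (3 : K) ≠ 0) (l : List Bool) :
    Good w (word l) := by
  have hw3 : w ^ 3 = 1 := by linear_combination (w - 1) * hw
  induction l with
  | nil => exact good_one w hw3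
  | cons b l ih =>
    have : word (b :: l) = step b (word l) := rfl
    rw [this]
    cases b
    · exact good_comp w (word l) ((1, 0), (1, 1)) (good_T w hw3) ih
    · exact good_comp w (word l) ((0, 1), (2, 0)) (good_S w hw h3) ih

/-- Representatives of the 24 elements of `SL_2(F_3)`. -/
def words : List (List Bool) :=
  [[], [true], [false], [true, true], [false, true], [true, false], [false, false],
   [true, true, true], [false, true, true], [true, false, true], [false, false, true],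
   [false, true, false], [true, false, false], [false, true, true, true],
   [true, false, true, true], [false, false, true, true], [true, false, false, true],
   [false, false, true, false], [false, true, false, false], [true, false, true, true, true],
   [false, false, true, true, true], [true, false, false, true, true],
   [false, true, false, false, true], [true, false, false, true, false]]

theorem exists_word : ∀ a b c d : ZMod 3, a * d - b * c = 1 →
    ∃ l ∈ words, word l = ((a, b), (c, d)) := by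
  decide +kernel

end CL

theorem clifford {K : Type*} [Field K] (w : K) (hw : 1 + w + w ^ 2 = 0) (h3 : (3 : K) ≠ 0)
    (d e : V) (hde : symp d e = 1) :
    ∃ G : (M3 K)ˣ, ∀ a : V, ∃ k : K, k ≠ 0 ∧
      (G : M3 K) * h w a * ((G⁻¹ : (M3 K)ˣ) : M3 K)
        = k • h w (a.1 * d.1 + a.2 * e.1, a.1 * d.2 + a.2 * e.2) := by
  obtain ⟨l, -, hl⟩ := CL.exists_word d.1 d.2 e.1 e.2 hde
  have hg := CL.good_word w hw h3 l
  rw [hl] at hg
  exact hg

end Pool.Agent.H24ML
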