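import Pool.Agent.Helper24.ML.Defs

/-! Finite combinatorics in the affine plane over `F_3`. -/

namespace Pool.Agent.H24ML

set_option maxRecDepth 100000 in
theorem comb1 (S : Finset V) (hS : S.card = 5) (h0 : (0 : V) ∉ S) :
    ∃ v w, v ∈ S ∧ -v ∈ S ∧ w ∈ S ∧ symp v w = 1 := by
  unfold symp
  revert S
  decide +kernel

set_option maxRecDepth 100000 in
theorem comb2 (S : Finset V) (hS : S.card = 6) (u0 : V) (hu : u0 ∈ S) :
    ∃ d e, symp d e = 1 ∧ ∀ a : ZMod 3, u0 + (a * d.1, a * d.2) ∈ S := by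
  unfold symp
  revert S
  revert u0
  decide +kernel

end Pool.Agent.H24ML
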