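import Pool.Agent.Helper24.ML.Fix

/-!
# Rank one points with prescribed small coordinates
-/

open Matrix

namespace Pool.Agent.H24ML

section formulas

variable {R : Type*} [CommRing R]

theorem trace_mul_vecMulVec' (A : M3 R) (p q : Fin 3 → R) :
    trace (A * vecMulVec p q) = ∑ i, ∑ j, A i j * (p j * q i) := rfl

theorem dr_pX_pow (w : R) (n : ℕ) :
    pX w ^ n = !![1, 0, 0; 0, w ^ n, 0; 0, 0, (w ^ n) ^ 2] := by
  induction n with
  | zero => ext i j; fin_cases i <;> fin_cases j <;> simp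
  | succ n ih =>
    rw [pow_succ, ih, pX]
    ext i j
    fin_cases i <;> fin_cases j <;> simp [Matrix.mul_apply, Fin.sum_univ_three] <;> ring

theorem dr_pY_sq : (pY : M3 R) ^ 2 = !![0, 1, 0; 0, 0, 1; 1, 0, 0] := by
  rw [pow_two, pY]
  ext i j
  fin_cases i <;> fin_cases j <;> simp [Matrix.mul_apply, Fin.sum_univ_three]

theorem dr_pY_four : (pY : M3 R) ^ 4 = pY := by
  have : (pY : M3 R) ^ 4 = pY ^ 2 * pY ^ 2 := by rw [← pow_add]
  rw [this, dr_pY_sq, pY]
  ext i j
  fin_cases i <;> fin_cases j <;> simp [Matrix.mul_apply, Fin.sum_univ_three]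

theorem dr_coord_b0 (w t : R) (a : ZMod 3) (p q : Fin 3 → R) :
    coord w t (a, 0) (vecMulVec p q) =
      t * (p 0 * q 0 + w ^ (2 * a.val) * (p 1 * q 1) + (w ^ (2 * a.val)) ^ 2 * (p 2 * q 2)) := by
  unfold coord
  rw [trace_mul_vecMulVec', dr_pX_pow]
  have h1 : (pY : M3 R) ^ (2 * ((a, (0 : ZMod 3)) : V).2.val) = 1 := by
    simp
  rw [h1, one_mul]
  simp [Fin.sum_univ_three]

theorem dr_coord_b1 (w t : R) (a : ZMod 3) (p q : Fin 3 → R) :
    coord w t (a, 1) (vecMulVec p q) =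
      t * (p 0 * q 2 + w ^ (2 * a.val) * (p 1 * q 0) + (w ^ (2 * a.val)) ^ 2 * (p 2 * q 1)) := by
  unfold coord
  rw [trace_mul_vecMulVec', dr_pX_pow]
  have h1 : (pY : M3 R) ^ (2 * ((a, (1 : ZMod 3)) : V).2.val) = pY ^ 2 := rfl
  rw [h1, dr_pY_sq]
  simp [Matrix.mul_apply, Fin.sum_univ_three]
  ring

theorem dr_coord_b2 (w t : R) (a : ZMod 3) (p q : Fin 3 → R) :
    coord w t (a, 2) (vecMulVec p q) =
      t * (p 0 * q 1 + w ^ (2 * a.val) * (p 1 * q 2) + (w ^ (2 * a.val)) ^ 2 * (p 2 * q 0)) := by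
  unfold coord
  rw [trace_mul_vecMulVec', dr_pX_pow]
  have h1 : (pY : M3 R) ^ (2 * ((a, (2 : ZMod 3)) : V).2.val) = pY ^ 4 := rfl
  rw [h1, dr_pY_four, pY]
  simp [Matrix.mul_apply, Fin.sum_univ_three]
  ring

end formulas

theorem cp_coord {K : Type*} [Field K] {n : ℕ} (w t : PowerSeries K) (v : V)
    (p q : (Fin n → PowerSeries K) → Fin 3 → PowerSeries K)
    (hp : ∀ i, CP (fun y => p y i)) (hq : ∀ i, CP (fun y => q y i)) :
    CP (fun y => coord w t v (vecMulVec (p y) (q y))) := by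
  have h1 : (fun y => coord w t v (vecMulVec (p y) (q y))) = fun y =>
      t * ∑ i, ∑ j, (pY ^ (2 * v.2.val) * pX w ^ (2 * v.1.val) : M3 (PowerSeries K)) i j *
        (p y j * q y i) := by
    funext y
    unfold coord
    rw [trace_mul_vecMulVec']
  rw [h1]
  exact (CP.const t).mul (CP.sum _ fun i _ => CP.sum _ fun j _ =>
    (CP.const _).mul ((hp j).mul (hq i)))

section main

variable {K : Type*} [Field K]

/-- the right-hand side of the equation for `u` -/
noncomputable def drR (w t : K) (Cs : Finset V) (r : V → V → PowerSeries K) (u : V)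
    (p q : Fin 3 → PowerSeries K) : PowerSeries K :=
  ∑ v ∈ Finset.univ \ Cs, r u v * coord (PowerSeries.C w) (PowerSeries.C t) v (vecMulVec p q)

theorem cp_drR {n : ℕ} (w t : K) (Cs : Finset V) (r : V → V → PowerSeries K) (u : V)
    (p q : (Fin n → PowerSeries K) → Fin 3 → PowerSeries K)
    (hp : ∀ i, CP (fun y => p y i)) (hq : ∀ i, CP (fun y => q y i)) :
    CP (fun y => drR w t Cs r u (p y) (q y)) :=
  CP.sum _ fun v _ => (CP.const _).mul (cp_coord _ _ v p q hp hq)

theorem unit_coord (w t : K) (ht : t * 3 = 1) (a : ZMod 3) (p q : Fin 3 → PowerSeries K)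
    (hp : p 0 = 1) (hq : q 0 = 1) (h1 : PowerSeries.X ∣ p 1) (h2 : PowerSeries.X ∣ p 2) :
    IsUnit (coord (PowerSeries.C w) (PowerSeries.C t) (a, 0) (vecMulVec p q)) := by
  rw [PowerSeries.isUnit_iff_constantCoeff, dr_coord_b0, hp, hq]
  have h1' := PowerSeries.X_dvd_iff.1 h1
  have h2' := PowerSeries.X_dvd_iff.1 h2
  simp only [map_mul, map_add, map_one, map_pow, h1', h2', PowerSeries.constantCoeff_C]
  rw [isUnit_iff_ne_zero]
  intro h
  have : t = 0 := by simpa using h
  rw [this] at ht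
  simp at ht

/-- equations of one kind at two places, of the other kind at one place -/
theorem dr_two_one (A B D : (Fin 3 → PowerSeries K) → PowerSeries K) (hA : CP A) (hB : CP B)
    (hD : CP D) (a a' c d d' δ : PowerSeries K) (hδ : δ * (a - a') = 1) (hd : d * d' = 1) :
    ∃ y : Fin 3 → PowerSeries K, (∀ i, PowerSeries.X ∣ y i) ∧
      y 1 + a * y 0 = PowerSeries.X * A y ∧ y 1 + a' * y 0 = PowerSeries.X * B y ∧
      c * (y 0 * y 1) + d * y 2 = PowerSeries.X * D y := by
  let G0 : (Fin 3 → PowerSeries K) → PowerSeries K := fun y => δ * (A y - B y)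
  let G1 : (Fin 3 → PowerSeries K) → PowerSeries K := fun y => A y - a * G0 y
  let G2 : (Fin 3 → PowerSeries K) → PowerSeries K := fun y => d' * (D y - c * (G0 y * y 1))
  have h0 : CP G0 := (CP.const _).mul (hA.sub hB)
  have h1 : CP G1 := hA.sub ((CP.const _).mul h0)
  have h2 : CP G2 := (CP.const _).mul (hD.sub ((CP.const _).mul (h0.mul (CP.proj 1))))
  obtain ⟨y, hy⟩ := fix_lemma ![G0, G1, G2]
    (by intro i; fin_cases i; exacts [h0, h1, h2]) (fun _ => 0)
  have e0 : y 0 = PowerSeries.X * G0 y := by simpa using hy 0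
  have e1 : y 1 = PowerSeries.X * G1 y := by simpa using hy 1
  have e2 : y 2 = PowerSeries.X * G2 y := by simpa using hy 2
  refine ⟨y, ?_, ?_, ?_, ?_⟩
  · intro i
    fin_cases i
    exacts [⟨_, e0⟩, ⟨_, e1⟩, ⟨_, e2⟩]
  · rw [e0, e1]
    simp only [G1]
    ring
  · rw [e0, e1]
    simp only [G1, G0]
    linear_combination (-PowerSeries.X * (A y - B y)) * hδ
  · rw [e2]
    simp only [G2]
    linear_combination (PowerSeries.X * (D y - c * (G0 y * y 1))) * hd + c * y 1 * e0

/-- three equations of the same kind -/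
theorem dr_three (A B D : (Fin 3 → PowerSeries K) → PowerSeries K) (hA : CP A) (hB : CP B)
    (hD : CP D) (w t : PowerSeries K) (hw : 1 + w + w ^ 2 = 0) (ht : t * 3 = 1) :
    ∃ y : Fin 3 → PowerSeries K, (∀ i, PowerSeries.X ∣ y i) ∧
      y 0 + y 1 + y 2 = PowerSeries.X * A y ∧
      y 0 + w ^ 2 * y 1 + (w ^ 2) ^ 2 * y 2 = PowerSeries.X * B y ∧
      y 0 + w * y 1 + w ^ 2 * y 2 = PowerSeries.X * D y := by
  let G0 : (Fin 3 → PowerSeries K) → PowerSeries K := fun y => t * (A y + B y + D y)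
  let G1 : (Fin 3 → PowerSeries K) → PowerSeries K := fun y => t * (A y + w * B y + w ^ 2 * D y)
  let G2 : (Fin 3 → PowerSeries K) → PowerSeries K := fun y => t * (A y + w ^ 2 * B y + w * D y)
  have h0 : CP G0 := (CP.const _).mul ((hA.add hB).add hD)
  have h1 : CP G1 := (CP.const _).mul ((hA.add ((CP.const _).mul hB)).add ((CP.const _).mul hD))
  have h2 : CP G2 := (CP.const _).mul ((hA.add ((CP.const _).mul hB)).add ((CP.const _).mul hD))
  obtain ⟨y, hy⟩ := fix_lemma ![G0, G1, G2]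
    (by intro i; fin_cases i; exacts [h0, h1, h2]) (fun _ => 0)
  have e0 : y 0 = PowerSeries.X * G0 y := by simpa using hy 0
  have e1 : y 1 = PowerSeries.X * G1 y := by simpa using hy 1
  have e2 : y 2 = PowerSeries.X * G2 y := by simpa using hy 2
  have hw3 : w ^ 3 = 1 := by linear_combination (w - 1) * hw
  refine ⟨y, ?_, ?_, ?_, ?_⟩
  · intro i
    fin_cases i
    exacts [⟨_, e0⟩, ⟨_, e1⟩, ⟨_, e2⟩]
  · rw [e0, e1, e2]
    simp only [G0, G1, G2]
    linear_combination (PowerSeries.X * t * (B y + D y)) * hw + PowerSeries.X * A y * ht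
  · rw [e0, e1, e2]
    simp only [G0, G1, G2]
    linear_combination (PowerSeries.X * t * (A y + D y)) * hw
      + (PowerSeries.X * t * (w * A y + (w ^ 3 + 2) * B y + (w + w ^ 2) * D y)) * hw3
      + PowerSeries.X * B y * ht
  · rw [e0, e1, e2]
    simp only [G0, G1, G2]
    linear_combination (PowerSeries.X * t * (A y + B y)) * hw
      + (PowerSeries.X * t * (w * B y + 2 * D y)) * hw3 + PowerSeries.X * D y * ht

/-- the possible sets `Cs` -/
theorem dr_cases (Cs : Finset V) (hC : Cs.card = 3) (hC' : ∀ u ∈ Cs, u.2 ≠ 0) :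
    (∃ a a' b : ZMod 3, a ≠ a' ∧ Cs = {(a, 1), (a', 1), (b, 2)}) ∨
    (∃ a a' b : ZMod 3, a ≠ a' ∧ Cs = {(a, 2), (a', 2), (b, 1)}) ∨
    Cs = {(0, 1), (1, 1), (2, 1)} ∨ Cs = {(0, 2), (1, 2), (2, 2)} := by
  have h1 : Cs ∈ (Finset.univ.filter fun u : V => u.2 ≠ 0).powersetCard 3 := by
    rw [Finset.mem_powersetCard]
    exact ⟨fun u hu => by simpa using hC' u hu, hC⟩
  revert Cs
  suffices H : ∀ Cs ∈ (Finset.univ.filter fun u : V => u.2 ≠ 0).powersetCard 3,
      (∃ a a' b : ZMod 3, a ≠ a' ∧ Cs = {(a, 1), (a', 1), (b, 2)}) ∨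
      (∃ a a' b : ZMod 3, a ≠ a' ∧ Cs = {(a, 2), (a', 2), (b, 1)}) ∨
      Cs = {(0, 1), (1, 1), (2, 1)} ∨ Cs = {(0, 2), (1, 2), (2, 2)} from
    fun Cs _ _ h => H Cs h
  decide +kernel

theorem dr_kappa {R : Type*} [CommRing R] (w : R) (hw : 1 + w + w ^ 2 = 0) (a a' : ZMod 3)
    (h : a ≠ a') : (w ^ (2 * a.val)) ^ 2 + w ^ (2 * a.val) * w ^ (2 * a'.val)
      + (w ^ (2 * a'.val)) ^ 2 = 0 := by
  have h3 : ∀ b : ZMod 3, b = 0 ∨ b = 1 ∨ b = 2 := by decide
  have v0 : (0 : ZMod 3).val = 0 := rfl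
  have v1 : (1 : ZMod 3).val = 1 := rfl
  have v2 : (2 : ZMod 3).val = 2 := rfl
  have h01 : 1 + w ^ 2 + w ^ 4 = 0 := by linear_combination (1 - w + w ^ 2) * hw
  rcases h3 a with rfl | rfl | rfl <;> rcases h3 a' with rfl | rfl | rfl <;>
    first
    | exact absurd rfl h
    | (simp only [v0, v1, v2]
       first
       | linear_combination h01
       | linear_combination (1 - w ^ 2 + w ^ 4) * h01
       | linear_combination w ^ 4 * h01)

theorem dr_cube {R : Type*} [CommRing R] (w : R) (hw : 1 + w + w ^ 2 = 0) (a : ZMod 3) :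
    (w ^ (2 * a.val)) ^ 3 = 1 := by
  have hw3 : w ^ 3 = 1 := by linear_combination (w - 1) * hw
  rw [← pow_mul, mul_comm, pow_mul, hw3, one_pow]

theorem dr_inv {R : Type*} [CommRing R] (t x y : R) (ht : t * 3 = 1) (hx : x ^ 3 = 1)
    (hy : y ^ 3 = 1) (hxy : x ^ 2 + x * y + y ^ 2 = 0) :
    (-t * (x * y) ^ 2 * (x - y)) * (x - y) = 1 := by
  linear_combination (-t * (x * y) ^ 2) * hxy + (x * y) ^ 3 * ht + y ^ 3 * hx + hy

end main

theorem dr_solve {K : Type*} [Field K] (w t : K) (hw : 1 + w + w ^ 2 = 0) (ht : t * 3 = 1)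
    (Cs : Finset V) (hC : Cs.card = 3) (hC' : ∀ u ∈ Cs, u.2 ≠ 0)
    (r : V → V → PowerSeries K) :
    ∃ p q : Fin 3 → PowerSeries K, p 0 = 1 ∧ q 0 = 1 ∧
      (∀ u ∈ Cs, coord (PowerSeries.C w) (PowerSeries.C t) u (vecMulVec p q)
        = PowerSeries.X * ∑ v ∈ Finset.univ \ Cs,
            r u v * coord (PowerSeries.C w) (PowerSeries.C t) v (vecMulVec p q)) ∧
      (∀ a : ZMod 3, IsUnit (coord (PowerSeries.C w) (PowerSeries.C t) (a, 0)
        (vecMulVec p q))) := by
  have hW : 1 + PowerSeries.C w + PowerSeries.C w ^ 2 = (0 : PowerSeries K) := by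
    rw [← map_one (PowerSeries.C (R := K)), ← map_pow, ← map_add, ← map_add, hw, map_zero]
  have hT : PowerSeries.C t * 3 = (1 : PowerSeries K) := by
    rw [← map_one (PowerSeries.C (R := K)), ← ht, map_mul, map_ofNat]
  -- it suffices to solve the equations multiplied by `3`
  have key : ∀ u : V, ∀ p q : Fin 3 → PowerSeries K, ∀ e : PowerSeries K,
      coord (PowerSeries.C w) (PowerSeries.C t) u (vecMulVec p q) = PowerSeries.C t * e →
      e = PowerSeries.X * (3 * drR w t Cs r u p q) →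
      coord (PowerSeries.C w) (PowerSeries.C t) u (vecMulVec p q)
        = PowerSeries.X * ∑ v ∈ Finset.univ \ Cs,
            r u v * coord (PowerSeries.C w) (PowerSeries.C t) v (vecMulVec p q) := by
    intro u p q e h1 h2
    rw [h1, h2]
    unfold drR
    linear_combination (PowerSeries.X * ∑ v ∈ Finset.univ \ Cs,
      r u v * coord (PowerSeries.C w) (PowerSeries.C t) v (vecMulVec p q)) * hT
  rcases dr_cases Cs hC hC' with ⟨a, a', b, hne, hCs⟩ | ⟨a, a', b, hne, hCs⟩ | hCs | hCs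
  · -- two equations with second index `1`, one with second index `2`; `q 1 = 0`
    let P : (Fin 3 → PowerSeries K) → Fin 3 → PowerSeries K := fun y => ![1, y 0, y 2]
    let Q : (Fin 3 → PowerSeries K) → Fin 3 → PowerSeries K := fun y => ![1, 0, y 1]
    have hP : ∀ i, CP (fun y => P y i) := by
      intro i
      fin_cases i
      exacts [CP.const 1, CP.proj 0, CP.proj 2]
    have hQ : ∀ i, CP (fun y => Q y i) := by
      intro i
      fin_cases i
      exacts [CP.const 1, CP.const 0, CP.proj 1]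
    have hR : ∀ u, CP (fun y => 3 * drR w t Cs r u (P y) (Q y)) := fun u =>
      (CP.const 3).mul (cp_drR w t Cs r u P Q hP hQ)
    obtain ⟨y, hy, e1, e2, e3⟩ := dr_two_one _ _ _ (hR (a, 1)) (hR (a', 1)) (hR (b, 2))
      (PowerSeries.C w ^ (2 * a.val)) (PowerSeries.C w ^ (2 * a'.val))
      (PowerSeries.C w ^ (2 * b.val)) ((PowerSeries.C w ^ (2 * b.val)) ^ 2)
      (PowerSeries.C w ^ (2 * b.val)) _
      (dr_inv (PowerSeries.C t) _ _ hT (dr_cube _ hW a) (dr_cube _ hW a')
        (dr_kappa _ hW a a' hne))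
      (by rw [← pow_succ]; exact dr_cube _ hW b)
    refine ⟨P y, Q y, rfl, rfl, ?_, fun c => unit_coord w t ht c _ _ rfl rfl (hy 0) (hy 2)⟩
    intro u hu
    rw [hCs] at hu
    simp only [Finset.mem_insert, Finset.mem_singleton] at hu
    rcases hu with rfl | rfl | rfl
    · refine key _ _ _ _ (dr_coord_b1 _ _ _ _ _) ?_
      rw [← e1]
      simp [P, Q]
    · refine key _ _ _ _ (dr_coord_b1 _ _ _ _ _) ?_
      rw [← e2]
      simp [P, Q]
    · refine key _ _ _ _ (dr_coord_b2 _ _ _ _ _) ?_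
      rw [← e3]
      simp [P, Q]
  · -- two equations with second index `2`, one with second index `1`; `q 2 = 0`
    let P : (Fin 3 → PowerSeries K) → Fin 3 → PowerSeries K := fun y => ![1, y 2, y 0]
    let Q : (Fin 3 → PowerSeries K) → Fin 3 → PowerSeries K := fun y => ![1, y 1, 0]
    have hP : ∀ i, CP (fun y => P y i) := by
      intro i
      fin_cases i
      exacts [CP.const 1, CP.proj 2, CP.proj 0]
    have hQ : ∀ i, CP (fun y => Q y i) := by
      intro i
      fin_cases i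
      exacts [CP.const 1, CP.proj 1, CP.const 0]
    have hR : ∀ u, CP (fun y => 3 * drR w t Cs r u (P y) (Q y)) := fun u =>
      (CP.const 3).mul (cp_drR w t Cs r u P Q hP hQ)
    have hsq : ∀ x y : PowerSeries K, x ^ 2 + x * y + y ^ 2 = 0 →
        (x ^ 2) ^ 2 + x ^ 2 * y ^ 2 + (y ^ 2) ^ 2 = 0 := by
      intro x y h
      linear_combination (x ^ 2 - x * y + y ^ 2) * h
    have hcu : ∀ x : PowerSeries K, x ^ 3 = 1 → (x ^ 2) ^ 3 = 1 := by
      intro x h
      linear_combination (x ^ 3 + 1) * h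
    obtain ⟨y, hy, e1, e2, e3⟩ := dr_two_one _ _ _ (hR (a, 2)) (hR (a', 2)) (hR (b, 1))
      ((PowerSeries.C w ^ (2 * a.val)) ^ 2) ((PowerSeries.C w ^ (2 * a'.val)) ^ 2)
      ((PowerSeries.C w ^ (2 * b.val)) ^ 2) (PowerSeries.C w ^ (2 * b.val))
      ((PowerSeries.C w ^ (2 * b.val)) ^ 2) _
      (dr_inv (PowerSeries.C t) _ _ hT (hcu _ (dr_cube _ hW a)) (hcu _ (dr_cube _ hW a'))
        (hsq _ _ (dr_kappa _ hW a a' hne)))
      (by rw [← pow_succ']; exact dr_cube _ hW b)
    refine ⟨P y, Q y, rfl, rfl, ?_, fun c => unit_coord w t ht c _ _ rfl rfl (hy 2) (hy 0)⟩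
    intro u hu
    rw [hCs] at hu
    simp only [Finset.mem_insert, Finset.mem_singleton] at hu
    rcases hu with rfl | rfl | rfl
    · refine key _ _ _ _ (dr_coord_b2 _ _ _ _ _) ?_
      rw [← e1]
      simp [P, Q]
    · refine key _ _ _ _ (dr_coord_b2 _ _ _ _ _) ?_
      rw [← e2]
      simp [P, Q]
    · refine key _ _ _ _ (dr_coord_b1 _ _ _ _ _) ?_
      rw [← e3]
      simp [P, Q]
      ring
  · -- all equations have second index `1`; `q 1 = 1`
    let P : (Fin 3 → PowerSeries K) → Fin 3 → PowerSeries K := fun y => ![1, y 1, y 2]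
    let Q : (Fin 3 → PowerSeries K) → Fin 3 → PowerSeries K := fun y => ![1, 1, y 0]
    have hP : ∀ i, CP (fun y => P y i) := by
      intro i
      fin_cases i
      exacts [CP.const 1, CP.proj 1, CP.proj 2]
    have hQ : ∀ i, CP (fun y => Q y i) := by
      intro i
      fin_cases i
      exacts [CP.const 1, CP.const 1, CP.proj 0]
    have hR : ∀ u, CP (fun y => 3 * drR w t Cs r u (P y) (Q y)) := fun u =>
      (CP.const 3).mul (cp_drR w t Cs r u P Q hP hQ)
    obtain ⟨y, hy, e1, e2, e3⟩ := dr_three _ _ _ (hR (0, 1)) (hR (1, 1)) (hR (2, 1))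
      (PowerSeries.C w) (PowerSeries.C t) hW hT
    have hW3 : (PowerSeries.C w : PowerSeries K) ^ 3 = 1 := by
      linear_combination (PowerSeries.C w - 1) * hW
    refine ⟨P y, Q y, rfl, rfl, ?_, fun c => unit_coord w t ht c _ _ rfl rfl (hy 1) (hy 2)⟩
    intro u hu
    rw [hCs] at hu
    simp only [Finset.mem_insert, Finset.mem_singleton] at hu
    rcases hu with rfl | rfl | rfl
    · refine key _ _ _ _ (dr_coord_b1 _ _ _ _ _) ?_
      rw [← e1]
      simp [P, Q]
    · refine key _ _ _ _ (dr_coord_b1 _ _ _ _ _) ?_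
      rw [← e2]
      have v1 : (1 : ZMod 3).val = 1 := rfl
      simp [P, Q, v1]
    · refine key _ _ _ _ (dr_coord_b1 _ _ _ _ _) ?_
      rw [← e3]
      have v2 : (2 : ZMod 3).val = 2 := rfl
      simp only [P, Q, v2]
      simp
      linear_combination (PowerSeries.C w * y 1 + (PowerSeries.C w ^ 2 * (PowerSeries.C w ^ 3 + 1)) * y 2) * hW3
  · -- all equations have second index `2`; `q 2 = 1`
    let P : (Fin 3 → PowerSeries K) → Fin 3 → PowerSeries K := fun y => ![1, y 1, y 2]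
    let Q : (Fin 3 → PowerSeries K) → Fin 3 → PowerSeries K := fun y => ![1, y 0, 1]
    have hP : ∀ i, CP (fun y => P y i) := by
      intro i
      fin_cases i
      exacts [CP.const 1, CP.proj 1, CP.proj 2]
    have hQ : ∀ i, CP (fun y => Q y i) := by
      intro i
      fin_cases i
      exacts [CP.const 1, CP.proj 0, CP.const 1]
    have hR : ∀ u, CP (fun y => 3 * drR w t Cs r u (P y) (Q y)) := fun u =>
      (CP.const 3).mul (cp_drR w t Cs r u P Q hP hQ)
    obtain ⟨y, hy, e1, e2, e3⟩ := dr_three _ _ _ (hR (0, 2)) (hR (1, 2)) (hR (2, 2))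
      (PowerSeries.C w) (PowerSeries.C t) hW hT
    have hW3 : (PowerSeries.C w : PowerSeries K) ^ 3 = 1 := by
      linear_combination (PowerSeries.C w - 1) * hW
    refine ⟨P y, Q y, rfl, rfl, ?_, fun c => unit_coord w t ht c _ _ rfl rfl (hy 1) (hy 2)⟩
    intro u hu
    rw [hCs] at hu
    simp only [Finset.mem_insert, Finset.mem_singleton] at hu
    rcases hu with rfl | rfl | rfl
    · refine key _ _ _ _ (dr_coord_b2 _ _ _ _ _) ?_
      rw [← e1]
      simp [P, Q]
    · refine key _ _ _ _ (dr_coord_b2 _ _ _ _ _) ?_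
      rw [← e2]
      have v1 : (1 : ZMod 3).val = 1 := rfl
      simp [P, Q, v1]
    · refine key _ _ _ _ (dr_coord_b2 _ _ _ _ _) ?_
      rw [← e3]
      have v2 : (2 : ZMod 3).val = 2 := rfl
      simp only [P, Q, v2]
      simp
      linear_combination (PowerSeries.C w * y 1 + (PowerSeries.C w ^ 2 * (PowerSeries.C w ^ 3 + 1)) * y 2) * hW3

end Pool.Agent.H24ML
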