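import Pool.Agent.Helper24.ML.Base
import Pool.Agent.Helper24.ML.Comb
import Pool.Agent.Helper24.ML.DR
import Pool.Agent.Helper24.ML.Clifford

/-! Rank one matrices in general position with respect to the limit set. -/

open Matrix

namespace Pool.Agent.H24ML

/-- extension of scalars of an invertible matrix -/
def mapU {R S : Type*} [CommRing R] [CommRing S] (f : R →+* S) (g : (M3 R)ˣ) : (M3 S)ˣ :=
  Units.map (f.mapMatrix : M3 R →+* M3 S).toMonoidHom g

theorem mapU_val {R S : Type*} [CommRing R] [CommRing S] (f : R →+* S) (g : (M3 R)ˣ) :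
    (mapU f g : M3 S) = (g : M3 R).map f := rfl

theorem mapU_inv {R S : Type*} [CommRing R] [CommRing S] (f : R →+* S) (g : (M3 R)ˣ) :
    (((mapU f g)⁻¹ : (M3 S)ˣ) : M3 S) = ((g⁻¹ : (M3 R)ˣ) : M3 R).map f := rfl

theorem map_smul' {R S : Type*} [CommRing R] [CommRing S] (f : R →+* S) (a : R) (M : M3 R) :
    (a • M).map f = f a • M.map f := by
  ext i j; simp

/-- the affine map -/
def aff (u0 d e : V) (a : V) : V := u0 + (a.1 * d.1 + a.2 * e.1, a.1 * d.2 + a.2 * e.2)

theorem aff_inj (u0 d e : V) (hde : symp d e = 1) : Function.Injective (aff u0 d e) := by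
  intro a b hab
  have h0 := add_left_cancel hab
  have h1 := congrArg Prod.fst h0
  have h2 := congrArg Prod.snd h0
  simp only at h1 h2
  unfold symp at hde
  have h3 : a.1 = b.1 := by
    linear_combination (-(a.1 - b.1)) * hde + e.2 * h1 - e.1 * h2
  have h4 : a.2 = b.2 := by
    linear_combination (-(a.2 - b.2)) * hde - d.2 * h1 + d.1 * h2
  exact Prod.ext h3 h4

theorem drg {K : Type*} [Field K] (w t : K) (hw : 1 + w + w ^ 2 = 0) (ht : t * 3 = 1)
    (S : Finset V) (hS : S.card = 5) (u0 : V) (hu0 : u0 ∉ S)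
    (g : V → V → PowerSeries K)
    (hg1 : ∀ v ∈ S, g v v = 1) (hg2 : ∀ v ∈ S, ∀ u ∈ S, u ≠ v → g v u = 0)
    (hg3 : ∀ v ∈ S, ∀ u ∉ S, PowerSeries.X ∣ g v u)
    (f : V → PowerSeries K) (hf0 : f u0 = 1) (hfS : ∀ v ∈ S, f v = 0)
    (hf : ∀ u, u ∉ S → u ≠ u0 → PowerSeries.X ∣ f u) :
    ∃ (n : V → PowerSeries K) (p q : Fin 3 → PowerSeries K) (lam : PowerSeries K),
      toM (PowerSeries.C w) n = vecMulVec p q ∧ n u0 ≠ 0 ∧ IsUnit lam ∧
      ∀ u, n u = ∑ v ∈ S, n v * g v u + lam * f u := by
  classical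
  have h3 : (3 : K) ≠ 0 := by
    intro hh; rw [hh, mul_zero] at ht; exact zero_ne_one ht
  have hw3 : w ^ 3 = 1 := cube_of_quad w hw
  have hw0 : w ≠ 0 := by
    intro hh; rw [hh] at hw3; norm_num at hw3
  -- divisibilities
  have e1 : ∀ v u, ∃ r, v ∈ S → u ∉ S → g v u = PowerSeries.X * r := by
    intro v u
    by_cases hv : v ∈ S
    · by_cases hu : u ∈ S
      · exact ⟨0, fun _ hh => absurd hu hh⟩
      · obtain ⟨r, hr⟩ := hg3 v hv u hu
        exact ⟨r, fun _ _ => hr⟩
    · exact ⟨0, fun hh => absurd hh hv⟩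
  choose gh hgh using e1
  have e2 : ∀ u, ∃ r, u ∉ S → u ≠ u0 → f u = PowerSeries.X * r := by
    intro u
    by_cases hu : u ∈ S
    · exact ⟨0, fun hh => absurd hu hh⟩
    · by_cases hu' : u = u0
      · exact ⟨0, fun _ hh => absurd hu' hh⟩
      · obtain ⟨r, hr⟩ := hf u hu hu'
        exact ⟨r, fun _ _ => hr⟩
  choose fh hfh using e2
  set S'' := insert u0 S with hS''
  have hcard : S''.card = 6 := by rw [hS'', Finset.card_insert_of_notMem hu0, hS]
  obtain ⟨d, e, hde, hline⟩ := comb2 S'' hcard u0 (Finset.mem_insert_self _ _)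
  obtain ⟨G, hG⟩ := clifford w hw h3 d e hde
  choose k hk0 hk using hG
  have e3 : ∀ a : V, ∃ ex : ℕ, h w u0 * h w (a.1 * d.1 + a.2 * e.1, a.1 * d.2 + a.2 * e.2)
      = w ^ ex • h w (aff u0 d e a) := fun a => h_mul w hw3 _ _
  choose ex hex using e3
  set kap : V → K := fun a => k a * w ^ ex a with hkap
  have hkap0 : ∀ a, kap a ≠ 0 := fun a => mul_ne_zero (hk0 a) (pow_ne_zero _ hw0)
  have hconj : ∀ a, h w u0 * (G : M3 K) * h w a * ((G⁻¹ : (M3 K)ˣ) : M3 K)
      = kap a • h w (aff u0 d e a) := by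
    intro a
    rw [Matrix.mul_assoc (h w u0), Matrix.mul_assoc (h w u0), hk a, Matrix.mul_smul, hex a,
      smul_smul]
  have hbij : Function.Bijective (aff u0 d e) :=
    Finite.injective_iff_bijective.1 (aff_inj u0 d e hde)
  set Aq : V ≃ V := Equiv.ofBijective _ hbij with hAq
  have hAqa : ∀ a, Aq a = aff u0 d e a := fun a => rfl
  set Cs : Finset V := (S''ᶜ).map Aq.symm.toEmbedding with hCs
  have hmem : ∀ a, a ∈ Cs ↔ Aq a ∉ S'' := by
    intro a
    rw [hCs, Finset.mem_map_equiv, Equiv.symm_symm, Finset.mem_compl]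
  have hCcard : Cs.card = 3 := by
    rw [hCs, Finset.card_map, Finset.card_compl, hcard]
    rfl
  have hC' : ∀ u ∈ Cs, u.2 ≠ 0 := by
    intro u hu hu2
    rw [hmem, hAqa] at hu
    apply hu
    have := hline u.1
    rw [aff, hu2]
    simpa using this
  set r0 : V → V → PowerSeries K := fun u v =>
    if v = u0 then fh u else gh v u - g v u0 * fh u with hr0
  obtain ⟨p, q, hp0, hq0, heq, hunit⟩ := dr_solve w t hw ht Cs hCcard hC'
    (fun a b => PowerSeries.C (kap a)⁻¹ * r0 (Aq a) (Aq b) * PowerSeries.C (kap b))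
  set n' : V → PowerSeries K := fun a =>
    coord (PowerSeries.C w) (PowerSeries.C t) a (vecMulVec p q) with hn'
  set n : V → PowerSeries K := fun u =>
    PowerSeries.C (kap (Aq.symm u)) * n' (Aq.symm u) with hn
  have hnA : ∀ a, n (Aq a) = PowerSeries.C (kap a) * n' a := by
    intro a
    simp only [hn, Equiv.symm_apply_apply]
  have hAq0 : Aq 0 = u0 := by
    rw [hAqa, aff]; simp
  have hnu0 : IsUnit (n u0) := by
    rw [← hAq0, hnA]
    refine IsUnit.mul ?_ ?_
    · exact (PowerSeries.C (R := K)).isUnit_map (isUnit_iff_ne_zero.2 (hkap0 0))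
    · exact hunit 0
  have hwO : 1 + PowerSeries.C w + PowerSeries.C w ^ 2 = 0 := by
    rw [← map_pow, ← map_one (PowerSeries.C (R := K)), ← map_add, ← map_add, hw, map_zero]
  have htO : PowerSeries.C t * 3 = 1 := by
    have : (3 : PowerSeries K) = PowerSeries.C 3 := by
      rw [map_ofNat]
    rw [this, ← map_mul, ht, map_one]
  set lam : PowerSeries K := n u0 - ∑ v ∈ S, n v * g v u0 with hlam
  refine ⟨n, (h (PowerSeries.C w) u0 * (mapU (PowerSeries.C (R := K)) G : M3 (PowerSeries K)))
      *ᵥ p, q ᵥ* (((mapU (PowerSeries.C (R := K)) G)⁻¹ : (M3 (PowerSeries K))ˣ) :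
        M3 (PowerSeries K)), lam, ?_, hnu0.ne_zero, ?_, ?_⟩
  · -- rank one
    have e4 : toM (PowerSeries.C w) n = ∑ a : V, n' a •
        (h (PowerSeries.C w) u0 * (mapU (PowerSeries.C (R := K)) G : M3 (PowerSeries K))
          * h (PowerSeries.C w) a *
          (((mapU (PowerSeries.C (R := K)) G)⁻¹ : (M3 (PowerSeries K))ˣ) :
        M3 (PowerSeries K))) := by
      rw [toM, ← Equiv.sum_comp Aq]
      refine Finset.sum_congr rfl fun a _ => ?_
      rw [hnA, mul_comm, mul_smul]
      congr 1
      have := congrArg (fun M => (PowerSeries.C (R := K)).mapMatrix M) (hconj a)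
      simp only [map_mul] at this
      simp only [RingHom.mapMatrix_apply] at this
      rw [h_map, h_map, map_smul', h_map] at this
      rw [mapU_val, mapU_inv, this]
      rfl
    rw [e4]
    have e5 : vecMulVec p q = ∑ a : V, n' a • h (PowerSeries.C w) a :=
      sum_coord (PowerSeries.C w) (PowerSeries.C t) hwO htO _
    have e6 : ∀ (P Q : M3 (PowerSeries K)), (∑ a : V, n' a • (P * h (PowerSeries.C w) a * Q))
        = P * vecMulVec p q * Q := by
      intro P Q
      rw [e5, Finset.mul_sum, Finset.sum_mul]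
      refine Finset.sum_congr rfl fun a _ => ?_
      rw [Matrix.mul_smul, Matrix.smul_mul]
    rw [e6, Matrix.mul_vecMulVec, Matrix.vecMulVec_mul]
  · -- lam is a unit
    rw [PowerSeries.isUnit_iff_constantCoeff] at hnu0 ⊢
    rw [hlam, map_sub, map_sum]
    rw [Finset.sum_eq_zero, sub_zero]
    · exact hnu0
    · intro v hv
      obtain ⟨r, hr⟩ := hg3 v hv u0 hu0
      rw [hr]
      simp
  · intro u
    by_cases hu : u ∈ S
    · rw [hfS u hu, mul_zero, add_zero, Finset.sum_eq_single u]
      · rw [hg1 u hu, mul_one]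
      · intro v hv hvu
        rw [hg2 v hv u hu (Ne.symm hvu), mul_zero]
      · intro hh; exact absurd hu hh
    · by_cases hu' : u = u0
      · subst hu'
        rw [hf0, mul_one, hlam]
        ring
      · have huC : Aq.symm u ∈ Cs := by
          rw [hmem, Equiv.apply_symm_apply, hS'', Finset.mem_insert]
          push Not
          exact ⟨hu', hu⟩
        have e7 : n' (Aq.symm u) = PowerSeries.X * ∑ v ∈ Finset.univ \ Cs,
            (PowerSeries.C (kap (Aq.symm u))⁻¹ * r0 u (Aq v) * PowerSeries.C (kap v)) * n' v := by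
          have := heq (Aq.symm u) huC
          simp only [Equiv.apply_symm_apply] at this
          exact this
        have e8 : n u = PowerSeries.X * ∑ v ∈ Finset.univ \ Cs, r0 u (Aq v) * n (Aq v) := by
          have e9 : n u = PowerSeries.C (kap (Aq.symm u)) * n' (Aq.symm u) := rfl
          rw [e9, e7, Finset.mul_sum, Finset.mul_sum, Finset.mul_sum]
          refine Finset.sum_congr rfl fun v _ => ?_
          rw [hnA]
          have e10 : PowerSeries.C (kap (Aq.symm u)) * PowerSeries.C (kap (Aq.symm u))⁻¹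
              = (1 : PowerSeries K) := by
            rw [← map_mul, mul_inv_cancel₀ (hkap0 _), map_one]
          linear_combination (PowerSeries.X * r0 u (Aq v) * PowerSeries.C (kap v) * n' v) * e10
        have e11 : ∑ v ∈ Finset.univ \ Cs, r0 u (Aq v) * n (Aq v)
            = ∑ v ∈ S'', r0 u v * n v := by
          have e12 : S'' = (Finset.univ \ Cs).map Aq.toEmbedding := by
            ext v
            rw [Finset.mem_map_equiv, Finset.mem_sdiff, hmem, Equiv.apply_symm_apply]
            simp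
          rw [e12, Finset.sum_map]
          rfl
        rw [e8, e11, hS'', Finset.sum_insert hu0]
        have e13 : r0 u u0 = fh u := by simp [hr0]
        have e14 : ∀ v ∈ S, r0 u v = gh v u - g v u0 * fh u := by
          intro v hv
          have : v ≠ u0 := fun hh => hu0 (hh ▸ hv)
          simp [hr0, this]
        have e16 : ∑ v ∈ S, r0 u v * n v = ∑ v ∈ S, (gh v u - g v u0 * fh u) * n v :=
          Finset.sum_congr rfl fun v hv => by rw [e14 v hv]
        have e17 : ∑ v ∈ S, n v * g v u = ∑ v ∈ S, n v * (PowerSeries.X * gh v u) :=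
          Finset.sum_congr rfl fun v hv => by rw [hgh v u hv hu]
        rw [e13, e16, e17, hfh u hu hu']
        rw [hlam, mul_add, sub_mul, Finset.sum_mul, Finset.mul_sum]
        have e15 : ∑ v ∈ S, PowerSeries.X * ((gh v u - g v u0 * fh u) * n v)
            = ∑ v ∈ S, n v * (PowerSeries.X * gh v u)
              - ∑ v ∈ S, n v * g v u0 * (PowerSeries.X * fh u) := by
          rw [← Finset.sum_sub_distrib]
          refine Finset.sum_congr rfl fun v _ => ?_
          ring
        rw [e15]
        ring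

end Pool.Agent.H24ML
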