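import Pool.Agent.Helper24.ML.Defs

/-!
Every five dimensional linear space of `3 x 3` matrices over an algebraically closed field contains
a matrix of rank one (Krull's height theorem in the coordinate ring of the Segre cone and the
Nullstellensatz).
-/

open Matrix MvPolynomial

namespace Pool.Agent.H24ML

namespace LA

variable (F : Type*) [Field F]

/-- The map from the coordinate ring of matrices to the coordinate ring of pairs of vectors. -/
noncomputable def phi : MvPolynomial (Fin 3 × Fin 3) F →ₐ[F] MvPolynomial (Fin 3 ⊕ Fin 3) F :=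
  aeval (fun ij => X (Sum.inl ij.1) * X (Sum.inr ij.2))

/-- Set the variables of `s` to zero. -/
noncomputable def psi (s : Finset (Fin 3 ⊕ Fin 3)) :
    MvPolynomial (Fin 3 ⊕ Fin 3) F →ₐ[F] MvPolynomial (Fin 3 ⊕ Fin 3) F :=
  aeval (fun v => if v ∈ s then 0 else X v)

lemma psi_psi {s t : Finset (Fin 3 ⊕ Fin 3)} (h : s ⊆ t) (x : MvPolynomial (Fin 3 ⊕ Fin 3) F) :
    psi F t (psi F s x) = psi F t x := by
  have : (psi F t).comp (psi F s) = psi F t := by
    apply MvPolynomial.algHom_ext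
    intro v
    simp only [psi, AlgHom.comp_apply, aeval_X]
    by_cases hv : v ∈ s
    · simp [hv, h hv]
    · simp [hv]
  exact DFunLike.congr_fun this x

/-- The ideal of the Segre cone. -/
noncomputable def P0 : Ideal (MvPolynomial (Fin 3 × Fin 3) F) := RingHom.ker (phi F)

/-- The evaluation on a part of the Segre cone. -/
noncomputable def lam (s : Finset (Fin 3 ⊕ Fin 3)) :
    (MvPolynomial (Fin 3 × Fin 3) F ⧸ P0 F) →+* MvPolynomial (Fin 3 ⊕ Fin 3) F :=
  Ideal.Quotient.lift (P0 F) (((psi F s).comp (phi F)) : _ →+* _) (by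
    intro a ha
    have h1 : phi F a = 0 := ha
    change psi F s (phi F a) = 0
    rw [h1, map_zero])

lemma lam_mk (s : Finset (Fin 3 ⊕ Fin 3)) (a : MvPolynomial (Fin 3 × Fin 3) F) :
    lam F s (Ideal.Quotient.mk _ a) = psi F s (phi F a) := rfl

/-- The prime of a part of the Segre cone. -/
noncomputable def Q (s : Finset (Fin 3 ⊕ Fin 3)) :
    Ideal (MvPolynomial (Fin 3 × Fin 3) F ⧸ P0 F) := RingHom.ker (lam F s)

instance (s : Finset (Fin 3 ⊕ Fin 3)) : (Q F s).IsPrime := RingHom.ker_isPrime _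

lemma X_mem_Q (s : Finset (Fin 3 ⊕ Fin 3)) (i j : Fin 3) :
    (Ideal.Quotient.mk (P0 F) (X (i, j))) ∈ Q F s ↔ Sum.inl i ∈ s ∨ Sum.inr j ∈ s := by
  rw [Q, RingHom.mem_ker, lam_mk]
  simp only [phi, psi, aeval_X, map_mul, mul_eq_zero]
  constructor
  · rintro (h | h)
    · left
      by_contra hcon
      rw [if_neg hcon] at h
      exact X_ne_zero _ h
    · right
      by_contra hcon
      rw [if_neg hcon] at h
      exact X_ne_zero _ h
  · rintro (h | h)
    · left; rw [if_pos h]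
    · right; rw [if_pos h]

lemma Q_mono {s t : Finset (Fin 3 ⊕ Fin 3)} (h : s ⊆ t) : Q F s ≤ Q F t := by
  intro x hx
  obtain ⟨a, rfl⟩ := Ideal.Quotient.mk_surjective x
  rw [Q, RingHom.mem_ker, lam_mk] at hx ⊢
  rw [← psi_psi F h, hx, map_zero]

lemma Q_lt {s t : Finset (Fin 3 ⊕ Fin 3)} (h : s ⊆ t) (i j : Fin 3)
    (h1 : ¬ (Sum.inl i ∈ s ∨ Sum.inr j ∈ s)) (h2 : Sum.inl i ∈ t ∨ Sum.inr j ∈ t) :
    Q F s < Q F t := by
  refine lt_of_le_of_ne (Q_mono F h) fun h3 => h1 ?_
  rw [← X_mem_Q F, h3, X_mem_Q]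
  exact h2

lemma height_Q : 5 ≤ (Q F Finset.univ).height := by
  have h1 := Ideal.height_add_one_le_of_lt_of_isPrime
    (Q_lt F (s := ∅) (t := {Sum.inl 2}) (by decide) 2 0 (by decide) (by decide))
  have h2 := Ideal.height_add_one_le_of_lt_of_isPrime
    (Q_lt F (s := {Sum.inl 2}) (t := {Sum.inl 2, Sum.inl 1}) (by decide) 1 0 (by decide)
      (by decide))
  have h3 := Ideal.height_add_one_le_of_lt_of_isPrime
    (Q_lt F (s := {Sum.inl 2, Sum.inl 1}) (t := {Sum.inl 2, Sum.inl 1, Sum.inr 2}) (by decide) 0 2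
      (by decide) (by decide))
  have h4 := Ideal.height_add_one_le_of_lt_of_isPrime
    (Q_lt F (s := {Sum.inl 2, Sum.inl 1, Sum.inr 2})
      (t := {Sum.inl 2, Sum.inl 1, Sum.inr 2, Sum.inr 1}) (by decide) 0 1
      (by decide) (by decide))
  have h5 := Ideal.height_add_one_le_of_lt_of_isPrime
    (Q_lt F (s := {Sum.inl 2, Sum.inl 1, Sum.inr 2, Sum.inr 1})
      (t := Finset.univ) (by decide) 0 0 (by decide) (by decide))
  have e1 : (1 : ℕ∞) ≤ (Q F {Sum.inl 2}).height := le_trans (by simp) h1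
  have e2 : (2 : ℕ∞) ≤ (Q F {Sum.inl 2, Sum.inl 1}).height := by
    refine le_trans ?_ h2
    calc (2 : ℕ∞) = 1 + 1 := by norm_num
      _ ≤ _ := by gcongr
  have e3 : (3 : ℕ∞) ≤ (Q F {Sum.inl 2, Sum.inl 1, Sum.inr 2}).height := by
    refine le_trans ?_ h3
    calc (3 : ℕ∞) = 2 + 1 := by norm_num
      _ ≤ _ := by gcongr
  have e4 : (4 : ℕ∞) ≤ (Q F {Sum.inl 2, Sum.inl 1, Sum.inr 2, Sum.inr 1}).height := by
    refine le_trans ?_ h4
    calc (4 : ℕ∞) = 3 + 1 := by norm_num
      _ ≤ _ := by gcongr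
  refine le_trans ?_ h5
  calc (5 : ℕ∞) = 4 + 1 := by norm_num
    _ ≤ _ := by gcongr

/-- The linear form of a matrix. -/
noncomputable def lin (B : M3 F) : MvPolynomial (Fin 3 × Fin 3) F :=
  ∑ i, ∑ j, C (B j i) * X (i, j)

variable {F}

/-- Four linear forms have a common nontrivial zero on the Segre cone. -/
theorem exists_zero [IsAlgClosed F] (B : Fin 4 → M3 F) :
    ∃ a : Fin 3 × Fin 3 → F, a ≠ 0 ∧ (∀ i j k l, a (i, j) * a (k, l) = a (i, l) * a (k, j)) ∧
      ∀ t, ∑ i, ∑ j, B t j i * a (i, j) = 0 := by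
  classical
  let mk := Ideal.Quotient.mk (P0 F)
  let S : Finset (MvPolynomial (Fin 3 × Fin 3) F ⧸ P0 F) :=
    Finset.univ.image fun t => mk (lin F (B t))
  have hS : S.card ≤ 4 := by
    refine le_trans Finset.card_image_le ?_
    simp
  have hle : Ideal.span (S : Set _) ≤ Q F Finset.univ := by
    rw [Ideal.span_le]
    intro x hx
    rw [Finset.mem_coe, Finset.mem_image] at hx
    obtain ⟨t, -, rfl⟩ := hx
    rw [lin, map_sum]
    refine Submodule.sum_mem _ fun i _ => ?_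
    rw [map_sum]
    refine Submodule.sum_mem _ fun j _ => ?_
    rw [map_mul]
    exact Ideal.mul_mem_left _ _ ((X_mem_Q F _ i j).mpr (Or.inl (Finset.mem_univ _)))
  have hnot : Q F Finset.univ ∉ (Ideal.span (S : Set _)).minimalPrimes := by
    intro hmin
    have h1 := Ideal.height_le_card_of_mem_minimalPrimes_span_finset hmin
    have h2 := height_Q F
    have h3 : ((5 : ℕ) : ℕ∞) ≤ ((4 : ℕ) : ℕ∞) :=
      le_trans h2 (le_trans h1 (by exact_mod_cast hS))
    have h4 : (5 : ℕ) ≤ 4 := by exact_mod_cast h3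
    omega
  obtain ⟨P, hP, hPS, hPQ, hne⟩ : ∃ P : Ideal (MvPolynomial (Fin 3 × Fin 3) F ⧸ P0 F), P.IsPrime ∧
      Ideal.span (S : Set _) ≤ P ∧ P ≤ Q F Finset.univ ∧ ¬ (Q F Finset.univ ≤ P) := by
    by_contra hcon
    push Not at hcon
    exact hnot ⟨⟨inferInstance, hle⟩, fun P hP hPQ => hcon P hP.1 hP.2 hPQ⟩
  have hPc : (P.comap mk).IsPrime := Ideal.comap_isPrime _ _
  obtain ⟨a, ha, ha0⟩ : ∃ a ∈ zeroLocus F (P.comap mk), a ≠ 0 := by
    by_contra hcon
    push Not at hcon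
    apply hne
    intro x hx
    obtain ⟨y, rfl⟩ := Ideal.Quotient.mk_surjective x
    change y ∈ P.comap mk
    rw [← IsPrime.vanishingIdeal_zeroLocus (K := F) (P.comap mk)]
    intro z hz
    rw [hcon z hz]
    have h1 : psi F Finset.univ (phi F y) = 0 := hx
    have h2 : (aeval (0 : Fin 3 × Fin 3 → F) : MvPolynomial (Fin 3 × Fin 3) F →ₐ[F] F) =
        ((aeval (0 : Fin 3 ⊕ Fin 3 → F)).comp (psi F Finset.univ)).comp (phi F) := by
      apply MvPolynomial.algHom_ext
      intro v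
      simp [psi, phi]
    rw [h2]
    change aeval (0 : Fin 3 ⊕ Fin 3 → F) (psi F Finset.univ (phi F y)) = 0
    rw [h1, map_zero]
  refine ⟨a, ha0, fun i j k l => ?_, fun t => ?_⟩
  · have h1 : (X (i, j) * X (k, l) - X (i, l) * X (k, j) : MvPolynomial (Fin 3 × Fin 3) F) ∈
        P.comap mk := by
      have h2 : mk (X (i, j) * X (k, l) - X (i, l) * X (k, j)) = 0 := by
        apply Ideal.Quotient.eq_zero_iff_mem.mpr
        change phi F _ = 0
        simp only [phi, map_sub, map_mul, aeval_X]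
        ring
      rw [Ideal.mem_comap, h2]
      exact zero_mem _
    have h3 := ha _ h1
    simp only [map_sub, map_mul, aeval_X] at h3
    exact sub_eq_zero.mp h3
  · have h1 : lin F (B t) ∈ P.comap mk :=
      hPS (Ideal.subset_span (Finset.mem_coe.mpr
        (Finset.mem_image_of_mem _ (Finset.mem_univ t))))
    have h3 := ha _ h1
    simpa [lin] using h3

end LA

/-- Every five dimensional space of `3 x 3` matrices contains a matrix of rank one. -/
theorem la_rank_one {F : Type*} [Field F] [IsAlgClosed F] (B : Fin 3 → M3 F) :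
    ∃ p q : Fin 3 → F, p ≠ 0 ∧ q ≠ 0 ∧ q ⬝ᵥ p = 0 ∧ ∀ i, q ⬝ᵥ (B i *ᵥ p) = 0 := by
  obtain ⟨a, ha0, hmin, hlin⟩ := LA.exists_zero (Fin.cons 1 B : Fin 4 → M3 F)
  obtain ⟨⟨i0, j0⟩, h0⟩ : ∃ v, a v ≠ 0 := by
    by_contra hcon
    push Not at hcon
    exact ha0 (funext hcon)
  have key : ∀ M : M3 F, (∑ i, ∑ j, M j i * a (i, j) = 0) →
      (fun j => a (i0, j)) ⬝ᵥ (M *ᵥ (fun i => a (i, j0))) = 0 := by
    intro M hM
    have h1 : (fun j => a (i0, j)) ⬝ᵥ (M *ᵥ (fun i => a (i, j0))) =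
        a (i0, j0) * ∑ i, ∑ j, M j i * a (i, j) := by
      simp only [dotProduct, Matrix.mulVec, Finset.mul_sum]
      rw [Finset.sum_comm]
      refine Finset.sum_congr rfl fun i _ => Finset.sum_congr rfl fun j _ => ?_
      have h2 := hmin i0 j i j0
      linear_combination M j i * h2
    rw [h1, hM, mul_zero]
  refine ⟨fun i => a (i, j0), fun j => a (i0, j), fun h => h0 (congrFun h i0),
    fun h => h0 (congrFun h j0), ?_, fun i => key _ (by simpa using hlin i.succ)⟩
  have h1 := key 1 (by simpa using hlin 0)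
  rwa [Matrix.one_mulVec] at h1

end Pool.Agent.H24ML
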