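import Pool.Agent.Helper24.ML.Fix

/-!
# The contraction in two unknowns for nonderogatory classes
-/

open Matrix

namespace Pool.Agent.H24ML

section ND

variable {R : Type*} [CommRing R]

/-- `- X + Y`. -/
def ndM (W : R) : M3 R := !![-1, 0, 1; 1, -W, 0; 0, 1, -W ^ 2]

/-- The linear part of the second coefficient at `- X + Y`. -/
def ndL2 (W : R) (N : M3 R) : R :=
  N 0 0 - N 2 0 - N 0 1 + W * N 1 1 - N 1 2 + W ^ 2 * N 2 2

/-- The linear part of the determinant at `- X + Y`. -/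
def ndL3 (W : R) (N : M3 R) : R :=
  W ^ 3 * N 0 0 + W ^ 2 * N 0 1 + N 0 2 + N 1 0 + W ^ 2 * N 1 1 + N 1 2 + W * N 2 0 + N 2 1
    + W * N 2 2

/-- The quadratic part of the determinant at `- X + Y`. -/
def ndT (W : R) (N : M3 R) : R :=
  -(N 1 1 * N 2 2 - N 1 2 * N 2 1) + (N 1 0 * N 2 1 - N 1 1 * N 2 0)
    - (N 0 1 * N 2 2 - N 0 2 * N 2 1) - W * (N 0 0 * N 2 2 - N 0 2 * N 2 0)
    - (N 0 0 * N 1 2 - N 0 2 * N 1 0) - W ^ 2 * (N 0 0 * N 1 1 - N 0 1 * N 1 0)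

theorem nd_c2 (W x : R) (hW : 1 + W + W ^ 2 = 0) (N : M3 R) :
    c2 (ndM W + x • N) = x * ndL2 W N + x ^ 2 * c2 N := by
  simp only [c2, ndL2, ndM, Matrix.add_apply, Matrix.smul_apply, smul_eq_mul, Matrix.of_apply,
    Matrix.cons_val', Matrix.cons_val_zero, Matrix.cons_val_one, Matrix.cons_val,
    Matrix.cons_val_fin_one]
  linear_combination (W - x * (N 0 0 + N 1 1 + N 2 2)) * hW

theorem nd_det (W x : R) (hW : 1 + W + W ^ 2 = 0) (N : M3 R) :
    det (ndM W + x • N) = x * ndL3 W N + x ^ 2 * ndT W N + x ^ 3 * det N := by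
  rw [Matrix.det_fin_three, Matrix.det_fin_three]
  simp only [ndL3, ndT, ndM, Matrix.add_apply, Matrix.smul_apply, smul_eq_mul, Matrix.of_apply,
    Matrix.cons_val', Matrix.cons_val_zero, Matrix.cons_val_one, Matrix.cons_val,
    Matrix.cons_val_fin_one]
  linear_combination (1 - W) * hW

theorem pX_sq (W : R) : pX W ^ 2 = !![1, 0, 0; 0, W ^ 2, 0; 0, 0, W ^ 4] := by
  ext i j
  fin_cases i <;> fin_cases j <;>
    (simp [pX, sq, Matrix.mul_apply, Fin.sum_univ_three]; try ring)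

theorem nd_L2 (W X x y : R) (hW : 1 + W + W ^ 2 = 0) (D0 d1 d2 : M3 R) :
    ndL2 W (x • pX W + y • pX W ^ 2 + D0 + X • (x • d1 + y • d2)) =
      3 * y + ndL2 W D0 + X * (x * ndL2 W d1 + y * ndL2 W d2) := by
  rw [pX_sq]
  simp only [ndL2, pX, Matrix.add_apply, Matrix.smul_apply, smul_eq_mul, Matrix.of_apply,
    Matrix.cons_val', Matrix.cons_val_zero, Matrix.cons_val_one, Matrix.cons_val,
    Matrix.cons_val_fin_one]
  linear_combination (x * (1 - W + W ^ 2) + y * (W - 1) * (W ^ 3 + 2)) * hW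

theorem nd_L3 (W X x y : R) (hW : 1 + W + W ^ 2 = 0) (D0 d1 d2 : M3 R) :
    ndL3 W (x • pX W + y • pX W ^ 2 + D0 + X • (x • d1 + y • d2)) =
      3 * x + ndL3 W D0 + X * (x * ndL3 W d1 + y * ndL3 W d2) := by
  rw [pX_sq]
  simp only [ndL3, pX, Matrix.add_apply, Matrix.smul_apply, smul_eq_mul, Matrix.of_apply,
    Matrix.cons_val', Matrix.cons_val_zero, Matrix.cons_val_one, Matrix.cons_val,
    Matrix.cons_val_fin_one]
  linear_combination (3 * x * (W - 1) + y * W ^ 3) * hW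

theorem nd_M (W X x y : R) (d1 d2 d3 z1 : M3 R) :
    (-1 + X * x) • (pX W + X • d1) + (X * y) • (pX W ^ 2 + X • d2) + (pY + X • d3) + X • z1 =
      ndM W + X • (x • pX W + y • pX W ^ 2 + (-d1 + d3 + z1) + X • (x • d1 + y • d2)) := by
  rw [pX_sq]
  ext i j
  fin_cases i <;> fin_cases j <;> simp [pX, pY, ndM] <;> ring

theorem nd_cyc (M : M3 R) : det (Cyc M ![1, 0, 0]) =
    M 1 0 * (M 2 0 * M 0 0 + M 2 1 * M 1 0 + M 2 2 * M 2 0)
      - M 2 0 * (M 1 0 * M 0 0 + M 1 1 * M 1 0 + M 1 2 * M 2 0) := by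
  rw [Matrix.det_fin_three]
  simp [Cyc, -Matrix.mulVec_mulVec, Matrix.mulVec, dotProduct, Fin.sum_univ_three]

end ND

section ND2

variable {K : Type*} [Field K]

/-- The perturbation. -/
noncomputable def ndN (W : PowerSeries K) (D0 d1 d2 : M3 (PowerSeries K))
    (a : Fin 2 → PowerSeries K) : M3 (PowerSeries K) :=
  a 0 • pX W + a 1 • pX W ^ 2 + D0 + (PowerSeries.X : PowerSeries K) • (a 0 • d1 + a 1 • d2)

theorem ndN_CP (W : PowerSeries K) (D0 d1 d2 : M3 (PowerSeries K)) (i j : Fin 3) :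
    CP (fun a => ndN W D0 d1 d2 a i j) := by
  have e : (fun a => ndN W D0 d1 d2 a i j) = fun a : Fin 2 → PowerSeries K =>
      a 0 * pX W i j + a 1 * (pX W ^ 2) i j + D0 i j
        + PowerSeries.X * (a 0 * d1 i j + a 1 * d2 i j) := by
    funext a
    simp [ndN]
    ring
  rw [e]
  exact CP.add (CP.add (CP.add (CP.mul (CP.proj 0) (CP.const _)) (CP.mul (CP.proj 1) (CP.const _)))
    (CP.const _)) (CP.mul (CP.const _) (CP.add (CP.mul (CP.proj 0) (CP.const _))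
    (CP.mul (CP.proj 1) (CP.const _))))

theorem c2_CP {n : ℕ} {N : (Fin n → PowerSeries K) → M3 (PowerSeries K)}
    (h : ∀ i j, CP (fun a => N a i j)) : CP (fun a => c2 (N a)) := by
  have h2 : ∀ i j k l, CP (fun a => N a i j * N a k l) := fun i j k l => CP.mul (h i j) (h k l)
  exact CP.add (CP.add (CP.sub (h2 _ _ _ _) (h2 _ _ _ _)) (CP.sub (h2 _ _ _ _) (h2 _ _ _ _)))
    (CP.sub (h2 _ _ _ _) (h2 _ _ _ _))

theorem det_CP {n : ℕ} {N : (Fin n → PowerSeries K) → M3 (PowerSeries K)}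
    (h : ∀ i j, CP (fun a => N a i j)) : CP (fun a => det (N a)) := by
  have h3 : ∀ i j k l p q, CP (fun a => N a i j * N a k l * N a p q) :=
    fun i j k l p q => CP.mul (CP.mul (h i j) (h k l)) (h p q)
  have e : (fun a => det (N a)) = fun a : Fin n → PowerSeries K =>
      N a 0 0 * N a 1 1 * N a 2 2 - N a 0 0 * N a 1 2 * N a 2 1 - N a 0 1 * N a 1 0 * N a 2 2
        + N a 0 1 * N a 1 2 * N a 2 0 + N a 0 2 * N a 1 0 * N a 2 1
        - N a 0 2 * N a 1 1 * N a 2 0 := by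
    funext a
    rw [Matrix.det_fin_three]
  rw [e]
  exact CP.sub (CP.add (CP.add (CP.sub (CP.sub (h3 _ _ _ _ _ _) (h3 _ _ _ _ _ _))
    (h3 _ _ _ _ _ _)) (h3 _ _ _ _ _ _)) (h3 _ _ _ _ _ _)) (h3 _ _ _ _ _ _)

theorem ndT_CP {n : ℕ} {N : (Fin n → PowerSeries K) → M3 (PowerSeries K)} (W : PowerSeries K)
    (h : ∀ i j, CP (fun a => N a i j)) : CP (fun a => ndT W (N a)) := by
  have h2 : ∀ i j k l p q r s, CP (fun a => N a i j * N a k l - N a p q * N a r s) :=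
    fun i j k l p q r s => CP.sub (CP.mul (h i j) (h k l)) (CP.mul (h p q) (h r s))
  exact CP.sub (CP.sub (CP.sub (CP.sub (CP.add (CP.neg (h2 _ _ _ _ _ _ _ _))
    (h2 _ _ _ _ _ _ _ _)) (h2 _ _ _ _ _ _ _ _)) (CP.mul (CP.const W) (h2 _ _ _ _ _ _ _ _)))
    (h2 _ _ _ _ _ _ _ _)) (CP.mul (CP.const (W ^ 2)) (h2 _ _ _ _ _ _ _ _))

theorem nd_solve {K : Type*} [Field K] (w : K) (hw : 1 + w + w ^ 2 = 0) (h3 : (3 : K) ≠ 0)
    (d1 d2 d3 z1 : M3 (PowerSeries K)) (g2 g3 : PowerSeries K) :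
    ∃ x y : PowerSeries K, ∃ M : M3 (PowerSeries K),
      M = (-1 + PowerSeries.X * x) • (pX (PowerSeries.C w) + (PowerSeries.X : PowerSeries K) • d1)
        + (PowerSeries.X * y) • (pX (PowerSeries.C w) ^ 2 + (PowerSeries.X : PowerSeries K) • d2)
        + (pY + (PowerSeries.X : PowerSeries K) • d3) + (PowerSeries.X : PowerSeries K) • z1 ∧
      c2 M = PowerSeries.X ^ 2 * g2 ∧ det M = PowerSeries.X ^ 3 * g3 ∧
      IsUnit (det (Cyc M ![1, 0, 0])) := by
  set W : PowerSeries K := PowerSeries.C w with hWdef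
  have hW : 1 + W + W ^ 2 = 0 := by
    have h1 := congrArg (PowerSeries.C (R := K)) hw
    simpa using h1
  set X : PowerSeries K := PowerSeries.X with hX
  set t : PowerSeries K := PowerSeries.C (3⁻¹ : K) with ht
  have ht3 : 3 * t = 1 := by
    have h1 : PowerSeries.C (R := K) (3 * 3⁻¹) = PowerSeries.C 1 := by
      rw [mul_inv_cancel₀ h3]
    rw [map_mul, map_one] at h1
    have h2 : PowerSeries.C (3 : K) = 3 := map_ofNat _ 3
    rwa [h2] at h1
  set D0 : M3 (PowerSeries K) := - d1 + d3 + z1 with hD0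
  have hN := ndN_CP W D0 d1 d2
  obtain ⟨a, ha⟩ := fix_lemma (n := 2)
    ![fun a => t * (X * g3 - X * det (ndN W D0 d1 d2 a) - ndT W (ndN W D0 d1 d2 a)
        - a 0 * ndL3 W d1 - a 1 * ndL3 W d2),
      fun a => t * (g2 - c2 (ndN W D0 d1 d2 a) - a 0 * ndL2 W d1 - a 1 * ndL2 W d2)]
    (by
      intro i
      fin_cases i
      · exact CP.mul (CP.const _) (CP.sub (CP.sub (CP.sub (CP.sub (CP.const _)
          (CP.mul (CP.const _) (det_CP hN))) (ndT_CP W hN)) (CP.mul (CP.proj 0) (CP.const _)))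
          (CP.mul (CP.proj 1) (CP.const _)))
      · exact CP.mul (CP.const _) (CP.sub (CP.sub (CP.sub (CP.const _) (c2_CP hN))
          (CP.mul (CP.proj 0) (CP.const _))) (CP.mul (CP.proj 1) (CP.const _))))
    ![- t * ndL3 W D0, - t * ndL2 W D0]
  have h0 := ha 0
  have h1 := ha 1
  simp only [Matrix.cons_val_zero, Matrix.cons_val_one] at h0 h1
  set N := ndN W D0 d1 d2 a with hNdef
  have hM : (-1 + X * a 0) • (pX W + X • d1) + (X * a 1) • (pX W ^ 2 + X • d2)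
      + (pY + X • d3) + X • z1 = ndM W + X • N := by
    exact nd_M W X (a 0) (a 1) d1 d2 d3 z1
  refine ⟨a 0, a 1, _, rfl, ?_, ?_, ?_⟩
  · rw [hM, nd_c2 W X hW]
    have e := nd_L2 W X (a 0) (a 1) hW D0 d1 d2
    have e' : ndL2 W N = _ := e
    rw [e']
    linear_combination (3 * X) * h1 + X * (-ndL2 W D0 + X * (g2 - c2 N - a 0 * ndL2 W d1
      - a 1 * ndL2 W d2)) * ht3
  · rw [hM, nd_det W X hW]
    have e := nd_L3 W X (a 0) (a 1) hW D0 d1 d2
    have e' : ndL3 W N = _ := e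
    rw [e']
    linear_combination (3 * X) * h0 + X * (-ndL3 W D0 + X * (X * g3 - X * det N - ndT W N
      - a 0 * ndL3 W d1 - a 1 * ndL3 W d2)) * ht3
  · rw [hM, PowerSeries.isUnit_iff_constantCoeff, nd_cyc]
    simp [ndM, hX]

end ND2

end Pool.Agent.H24ML
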