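import Pool.Agent.Helper24.ML.Base
import Pool.Agent.Helper24.ML.Drg
import Pool.Agent.Helper24.ML.ND
import Pool.Agent.Helper24.ML.LA

/-! The three families of targets. -/

open Matrix

namespace Pool.Agent.H24ML

universe u

section small

variable {R S : Type*} [CommRing R] [CommRing S]

theorem trace_map' (f : R →+* S) (M : M3 R) : trace (M.map f) = f (trace M) := by
  simp [trace, Fin.sum_univ_three]

theorem c2_map (f : R →+* S) (M : M3 R) : c2 (M.map f) = f (c2 M) := by
  simp [c2]

theorem det_map' (f : R →+* S) (M : M3 R) : det (M.map f) = f (det M) := by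
  rw [RingHom.map_det]; rfl

theorem cyc_map (f : R →+* S) (M : M3 R) (v : Fin 3 → R) :
    Cyc (M.map f) (fun i => f (v i)) = (Cyc M v).map f := by
  ext i j
  fin_cases i <;> fin_cases j <;>
    simp [Cyc, mulVec, dotProduct, Fin.sum_univ_three, Matrix.mul_apply]

theorem c2_smul (s : R) (M : M3 R) : c2 (s • M) = s ^ 2 * c2 M := by
  simp [c2]; ring

theorem det_smul' (s : R) (M : M3 R) : det (s • M) = s ^ 3 * det M := by
  simp

theorem det_cyc_smul (s : R) (M : M3 R) (v : Fin 3 → R) :
    det (Cyc (s • M) v) = s ^ 3 * det (Cyc M v) := by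
  rw [det_fin_three, det_fin_three]
  simp [Cyc, mulVec, dotProduct, Fin.sum_univ_three]
  ring

theorem vecMulVec_map (f : R →+* S) (p q : Fin 3 → R) :
    (vecMulVec p q).map f = vecMulVec (fun i => f (p i)) (fun i => f (q i)) := by
  ext i j
  simp [vecMulVec_apply]

theorem dot_map (f : R →+* S) (p q : Fin 3 → R) :
    (fun i => f (p i)) ⬝ᵥ (fun i => f (q i)) = f (p ⬝ᵥ q) := by
  simp [dotProduct]

theorem add_map' (f : R →+* S) (M N : M3 R) : (M + N).map f = M.map f + N.map f := by
  ext i j; simp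

theorem mul_map' (f : R →+* S) (M N : M3 R) : (M * N).map f = M.map f * N.map f :=
  map_mul (f.mapMatrix : M3 R →+* M3 S) M N

theorem one_map' (f : R →+* S) : (1 : M3 R).map f = 1 :=
  map_one (f.mapMatrix : M3 R →+* M3 S)

theorem sum_map' (f : R →+* S) {ι : Type*} (s : Finset ι) (F : ι → M3 R) :
    (∑ i ∈ s, F i).map f = ∑ i ∈ s, (F i).map f :=
  map_sum (f.mapMatrix : M3 R →+* M3 S) F s

end small

section W

variable {K : Type u} [Field K] {m : ℕ}

/-- the image of the slot map at the power series point -/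
noncomputable def Wm (w : K) (c : Equiv.Perm (Fin m) → K) (i : Fin m)
    (X : Fin m → V → PowerSeries K) : Submodule (FF K) (M3 (FF K)) :=
  LinearMap.range (slot (FF K) c i (fun j => toM (algebraMap K (FF K) w)
    (fun v => algebraMap (PowerSeries K) (FF K) (X j v))))

theorem mem_Wm (w : K) (c : Equiv.Perm (Fin m) → K) (C : (Fin m → V) → K)
    (hC : ∀ (R : Type u) [CommRing R] [Algebra K R] (v : Fin m → V),
      evalML R c (fun j => h (algebraMap K R w) (v j))
        = algebraMap K R (C v) • h (algebraMap K R w) (∑ j, v j))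
    (i : Fin m) (X : Fin m → V → PowerSeries K) (y : V → FF K) (hy : y ∈ Wsp C i X) :
    toM (algebraMap K (FF K) w) y ∈ Wm w c i X := by
  obtain ⟨y', rfl⟩ := hy
  refine ⟨toM (algebraMap K (FF K) w) y', ?_⟩
  rw [slot_toM w c C hC, Matrix.mulVecLin_apply]

theorem map_C_w (w : K) : algebraMap (PowerSeries K) (FF K) (PowerSeries.C w)
    = algebraMap K (FF K) w := by
  rw [IsScalarTower.algebraMap_apply K (PowerSeries K) (FF K)]
  rfl

theorem inj_FF : Function.Injective (algebraMap (PowerSeries K) (FF K)) :=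
  IsFractionRing.injective _ _

theorem quad_map {S : Type*} [CommRing S] (f : K →+* S) (w : K) (hw : 1 + w + w ^ 2 = 0) :
    1 + f w + (f w) ^ 2 = 0 := by
  rw [← map_pow, ← map_one f, ← map_add, ← map_add, hw, map_zero]

theorem third_map {S : Type*} [CommRing S] (f : K →+* S) (t : K) (ht : t * 3 = 1) :
    f t * 3 = 1 := by
  have : (3 : S) = f 3 := by rw [map_ofNat]
  rw [this, ← map_mul, ht, map_one]

theorem three_ne {t : K} (ht : t * 3 = 1) : (3 : K) ≠ 0 := by
  intro hh; rw [hh, mul_zero] at ht; exact zero_ne_one ht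

/-- columns of the slot matrix are in `Wsp` -/
theorem col_mem (C : (Fin m → V) → K) (i : Fin m) (X : Fin m → V → PowerSeries K) (b : V) :
    (fun u => algebraMap (PowerSeries K) (FF K) (slotMat C i X u b)) ∈ Wsp C i X := by
  refine ⟨Pi.single b 1, ?_⟩
  funext u
  rw [Matrix.mulVecLin_apply, Matrix.mulVec_single_one]
  have := slotMat_map (IsScalarTower.toAlgHom K (PowerSeries K) (FF K)) C i X u b
  simp only [IsScalarTower.coe_toAlgHom'] at this
  rw [this]
  rfl

end W

section cases

variable {K : Type u} [Field K] [IsAlgClosed K] {m : ℕ}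

/-- targets with a cyclic vector -/
theorem case_nd (w t : K) (hw : 1 + w + w ^ 2 = 0) (ht : t * 3 = 1)
    (c : Equiv.Perm (Fin m) → K) (C : (Fin m → V) → K)
    (hC : ∀ (R : Type u) [CommRing R] [Algebra K R] (v : Fin m → V),
      evalML R c (fun j => h (algebraMap K R w) (v j))
        = algebraMap K R (C v) • h (algebraMap K R w) (∑ j, v j))
    (i : Fin m) (X : Fin m → V → PowerSeries K)
    (S : Finset V) (hS : S.card = 5) (h0S : (0 : V) ∉ S) (b0 : V)
    (hb0 : slotMat C i X 0 b0 ≠ 0) (g : V → V → PowerSeries K)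
    (hg1 : ∀ v ∈ S, g v v = 1) (hg0 : ∀ v ∈ S, g v 0 = 0)
    (hg2 : ∀ v ∈ S, ∀ u ∈ S, u ≠ v → g v u = 0)
    (hg3 : ∀ v ∈ S, ∀ u ∉ S, PowerSeries.X ∣ g v u)
    (hgW : ∀ v ∈ S, (fun u => algebraMap (PowerSeries K) (FF K) (g v u)) ∈ Wsp C i X)
    (A : M3 K) (v0 : Fin 3 → K) (hv0 : det (Cyc A v0) ≠ 0) :
    ∃ x : Fin m → M3 K, evalML K c x = A := by
  classical
  have h3 : (3 : K) ≠ 0 := three_ne ht
  have hwO := quad_map (PowerSeries.C (R := K)) w hw
  obtain ⟨v1, v3, hv1, hv1', hv3, hsymp⟩ := comb1 S hS h0S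
  obtain ⟨G, hG⟩ := clifford w hw h3 v1 v3 hsymp
  -- remainders
  have e1 : ∀ v ∈ S, ∃ R : M3 (PowerSeries K), toM (PowerSeries.C w) (g v)
      = h (PowerSeries.C w) v + (PowerSeries.X : PowerSeries K) • R := by
    intro v hv
    have e2 : ∀ u, ∃ r, g v u = (Pi.single v 1 : V → PowerSeries K) u + PowerSeries.X * r := by
      intro u
      by_cases huv : u = v
      · subst huv
        exact ⟨0, by rw [hg1 u hv]; simp⟩
      · rw [Pi.single_eq_of_ne huv]
        by_cases hu : u ∈ S
        · exact ⟨0, by rw [hg2 v hv u hu huv]; simp⟩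
        · obtain ⟨r, hr⟩ := hg3 v hv u hu
          exact ⟨r, by rw [hr, zero_add]⟩
    choose r hr using e2
    refine ⟨toM (PowerSeries.C w) r, ?_⟩
    rw [← toM_smul]
    have e3 : h (PowerSeries.C w) v = toM (PowerSeries.C w) (Pi.single v 1) := by
      rw [toM_single, one_smul]
    rw [e3, ← toM_add]
    congr 1
    funext u
    rw [hr u]
    rfl
  obtain ⟨R1, hR1⟩ := e1 v1 hv1
  obtain ⟨R2, hR2⟩ := e1 (-v1) hv1'
  obtain ⟨R3, hR3⟩ := e1 v3 hv3
  -- the Clifford element over power series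
  have e4 : ∀ a : V, ∃ k : K, k ≠ 0 ∧ (mapU (PowerSeries.C (R := K)) G : M3 (PowerSeries K))
      * h (PowerSeries.C w) a * (((mapU (PowerSeries.C (R := K)) G)⁻¹ :
        (M3 (PowerSeries K))ˣ) : M3 (PowerSeries K))
      = PowerSeries.C k • h (PowerSeries.C w)
        (a.1 * v1.1 + a.2 * v3.1, a.1 * v1.2 + a.2 * v3.2) := by
    intro a
    obtain ⟨k, hk0, hk⟩ := hG a
    refine ⟨k, hk0, ?_⟩
    have := congrArg (fun M => M.map (PowerSeries.C (R := K))) hk
    rw [mul_map', mul_map', h_map, map_smul', h_map] at this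
    rw [mapU_val, mapU_inv, this]
  set GO := mapU (PowerSeries.C (R := K)) G with hGO
  obtain ⟨k1, hk1, hk1'⟩ := e4 (1, 0)
  obtain ⟨k2, hk2, hk2'⟩ := e4 (2, 0)
  obtain ⟨k3, hk3, hk3'⟩ := e4 (0, 1)
  have e5 : ((1 : ZMod 3) * v1.1 + 0 * v3.1, (1 : ZMod 3) * v1.2 + 0 * v3.2) = v1 := by simp
  have e6 : ((2 : ZMod 3) * v1.1 + 0 * v3.1, (2 : ZMod 3) * v1.2 + 0 * v3.2) = -v1 := by
    have : ∀ x : ZMod 3, 2 * x = -x := by decide
    rw [this, this]
    rw [zero_mul, zero_mul, add_zero, add_zero]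
    rfl
  have e7 : ((0 : ZMod 3) * v1.1 + 1 * v3.1, (0 : ZMod 3) * v1.2 + 1 * v3.2) = v3 := by simp
  have e8 : h (PowerSeries.C w) ((1, 0) : V) = pX (PowerSeries.C w) := by
    have : h (PowerSeries.C w) ((1, 0) : V) = pX (PowerSeries.C w) ^ 1 * pY ^ 0 := rfl
    rw [this, pow_one, pow_zero, mul_one]
  have e9 : h (PowerSeries.C w) ((2, 0) : V) = pX (PowerSeries.C w) ^ 2 := by
    have : h (PowerSeries.C w) ((2, 0) : V) = pX (PowerSeries.C w) ^ 2 * pY ^ 0 := rfl
    rw [this, pow_zero, mul_one]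
  have e10 : h (PowerSeries.C w) ((0, 1) : V) = pY := by
    have : h (PowerSeries.C w) ((0, 1) : V) = pX (PowerSeries.C w) ^ 0 * pY ^ 1 := rfl
    rw [this, pow_one, pow_zero, one_mul]
  rw [e5, e8] at hk1'
  rw [e6, e9] at hk2'
  rw [e7, e10] at hk3'
  -- the trace direction
  obtain ⟨Z, τ, hτ, hZ, hZW⟩ : ∃ (Z : M3 (PowerSeries K)) (τ : PowerSeries K), τ ≠ 0 ∧
      trace Z = PowerSeries.C (trace A) * τ ∧
      Z.map (algebraMap (PowerSeries K) (FF K)) ∈ Wm w c i X := by
    by_cases hA : trace A = 0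
    · refine ⟨0, 1, one_ne_zero, by simp [hA], ?_⟩
      have : (0 : M3 (PowerSeries K)).map (algebraMap (PowerSeries K) (FF K)) = 0 := by
        ext i j; simp
      rw [this]
      exact Submodule.zero_mem _
    · refine ⟨toM (PowerSeries.C w) (fun u => slotMat C i X u b0),
        PowerSeries.C (trace A)⁻¹ * (3 * slotMat C i X 0 b0), ?_, ?_, ?_⟩
      · refine mul_ne_zero ?_ (mul_ne_zero ?_ hb0)
        · intro hh
          have : (trace A)⁻¹ = 0 := by
            have := congrArg (PowerSeries.constantCoeff (R := K)) hh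
            simpa using this
          exact hA (inv_eq_zero.1 this)
        · intro hh
          have := congrArg (PowerSeries.constantCoeff (R := K)) hh
          rw [map_ofNat, map_zero] at this
          exact h3 this
      · rw [trace_toM _ hwO, ← mul_assoc, ← map_mul, mul_inv_cancel₀ hA, map_one, one_mul]
      · rw [toM_map, map_C_w]
        exact mem_Wm w c C hC i X _ (col_mem C i X b0)
  set gi : M3 (PowerSeries K) := ((GO⁻¹ : (M3 (PowerSeries K))ˣ) : M3 (PowerSeries K)) with hgi
  have hGg : (GO : M3 (PowerSeries K)) * gi = 1 := GO.mul_inv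
  have hgG : gi * (GO : M3 (PowerSeries K)) = 1 := GO.inv_mul
  obtain ⟨x, y, M, hM, hc2, hdet, hcyc⟩ := nd_solve w hw h3
    (gi * (PowerSeries.C k1 • R1) * (GO : M3 (PowerSeries K)))
    (gi * (PowerSeries.C k2 • R2) * (GO : M3 (PowerSeries K)))
    (gi * (PowerSeries.C k3 • R3) * (GO : M3 (PowerSeries K)))
    (gi * Z * (GO : M3 (PowerSeries K)))
    (PowerSeries.C (c2 A) * τ ^ 2) (PowerSeries.C (det A) * τ ^ 3)
  have hcancel : ∀ N : M3 (PowerSeries K), (GO : M3 (PowerSeries K)) *
      (gi * N * (GO : M3 (PowerSeries K))) * gi = N := by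
    intro N
    calc (GO : M3 (PowerSeries K)) * (gi * N * (GO : M3 (PowerSeries K))) * gi
        = ((GO : M3 (PowerSeries K)) * gi) * N * ((GO : M3 (PowerSeries K)) * gi) := by
          simp only [Matrix.mul_assoc]
      _ = N := by rw [hGg, Matrix.one_mul, Matrix.mul_one]
  have hconj : (GO : M3 (PowerSeries K)) * M * gi
      = ((-1 + PowerSeries.X * x) * PowerSeries.C k1) • toM (PowerSeries.C w) (g v1)
        + ((PowerSeries.X * y) * PowerSeries.C k2) • toM (PowerSeries.C w) (g (-v1))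
        + PowerSeries.C k3 • toM (PowerSeries.C w) (g v3)
        + (PowerSeries.X : PowerSeries K) • Z := by
    rw [hM, hR1, hR2, hR3]
    simp only [Matrix.mul_add, Matrix.add_mul, Matrix.mul_smul, Matrix.smul_mul, smul_add]
    rw [hk1', hk2', hk3']
    have q1 := hcancel (PowerSeries.C k1 • R1)
    have q2 := hcancel (PowerSeries.C k2 • R2)
    have q3 := hcancel (PowerSeries.C k3 • R3)
    have q4 := hcancel Z
    simp only [Matrix.mul_smul, Matrix.smul_mul] at q1 q2 q3
    rw [q1, q2, q3, q4]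
    simp only [smul_smul]
    have c1 : (-1 + PowerSeries.X * x) * (PowerSeries.X * PowerSeries.C k1)
        = (-1 + PowerSeries.X * x) * PowerSeries.C k1 * PowerSeries.X := by ring
    have c2 : PowerSeries.X * y * (PowerSeries.X * PowerSeries.C k2)
        = PowerSeries.X * y * PowerSeries.C k2 * PowerSeries.X := by ring
    have c3 : (PowerSeries.X : PowerSeries K) * PowerSeries.C k3
        = PowerSeries.C k3 * PowerSeries.X := by ring
    rw [c1, c2, c3]
  have htr : trace M = PowerSeries.X * trace Z := by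
    have e11 : trace M = trace ((GO : M3 (PowerSeries K)) * M * gi) := by
      rw [trace_mul_comm, ← Matrix.mul_assoc, hgG, Matrix.one_mul]
    rw [e11, hconj]
    simp only [trace_add, trace_smul, trace_toM _ hwO, hg0 v1 hv1, hg0 _ hv1', hg0 v3 hv3]
    simp
  -- over the field of fractions
  set ι : PowerSeries K →+* FF K := algebraMap (PowerSeries K) (FF K) with hι
  have hX : ι PowerSeries.X ≠ 0 := by
    intro hh
    rw [← map_zero ι] at hh
    exact PowerSeries.X_ne_zero (inj_FF hh)
  have hτ' : ι τ ≠ 0 := by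
    intro hh
    rw [← map_zero ι] at hh
    exact hτ (inj_FF hh)
  set s : FF K := (ι PowerSeries.X * ι τ)⁻¹ with hs
  have hs0 : s ≠ 0 := inv_ne_zero (mul_ne_zero hX hτ')
  have hs1 : s * (ι PowerSeries.X * ι τ) = 1 := inv_mul_cancel₀ (mul_ne_zero hX hτ')
  have hmemW : ((GO : M3 (PowerSeries K)) * M * gi).map ι ∈ Wm w c i X := by
    rw [hconj, add_map', add_map', add_map', map_smul', map_smul', map_smul', map_smul',
      toM_map, toM_map, toM_map, map_C_w]
    refine Submodule.add_mem _ (Submodule.add_mem _ (Submodule.add_mem _ ?_ ?_) ?_) ?_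
    · exact Submodule.smul_mem _ _ (mem_Wm w c C hC i X _ (hgW v1 hv1))
    · exact Submodule.smul_mem _ _ (mem_Wm w c C hC i X _ (hgW _ hv1'))
    · exact Submodule.smul_mem _ _ (mem_Wm w c C hC i X _ (hgW v3 hv3))
    · exact Submodule.smul_mem _ _ hZW
  have hsim : Sim (s • M.map ι) (A.map (algebraMap K (FF K))) := by
    refine sim_of_cyclic _ _ (fun j => ι (![1, 0, 0] j)) (fun j => algebraMap K (FF K) (v0 j))
      ?_ ?_ ?_ ?_ ?_
    · rw [det_cyc_smul, cyc_map, det_map']
      refine mul_ne_zero (pow_ne_zero _ hs0) ?_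
      exact (hcyc.map ι).ne_zero
    · rw [cyc_map, det_map']
      intro hh
      rw [← map_zero (algebraMap K (FF K))] at hh
      exact hv0 ((algebraMap K (FF K)).injective hh)
    · rw [trace_smul, trace_map', trace_map', htr, hZ, map_mul, map_mul, map_C_w, smul_eq_mul]
      linear_combination (algebraMap K (FF K) (trace A)) * hs1
    · rw [c2_smul, c2_map, c2_map, hc2, map_mul, map_mul, map_pow, map_pow, map_C_w]
      linear_combination (algebraMap K (FF K) (c2 A)) *
        (s * (ι PowerSeries.X * ι τ) + 1) * hs1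
    · rw [det_smul', det_map', det_map', hdet, map_mul, map_mul, map_pow, map_pow, map_C_w]
      linear_combination (algebraMap K (FF K) (det A)) *
        ((s * (ι PowerSeries.X * ι τ)) ^ 2 + s * (ι PowerSeries.X * ι τ) + 1) * hs1
  have hsim2 : Sim (s • M.map ι) (s • ((GO : M3 (PowerSeries K)) * M * gi).map ι) := by
    refine ⟨mapU ι GO, ?_⟩
    rw [mul_map', mul_map', Matrix.mul_smul, Matrix.smul_mul]
    rfl
  exact fin_step c A _ i _ (Submodule.smul_mem _ s hmemW) (hsim2.symm.trans hsim)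

end cases

end Pool.Agent.H24ML
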