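import Mathlib

/-!
# Definitions for the rank six theorem on multilinear polynomials on 3 x 3 matrices
-/

open Matrix

namespace Pool.Agent.H24ML

/-- `3 x 3` matrices. -/
abbrev M3 (R : Type*) := Matrix (Fin 3) (Fin 3) R

/-- The index group of the Pauli basis. -/
abbrev V := ZMod 3 × ZMod 3

/-- The multilinear polynomial `∑ σ, c σ x_{σ 0} ⋯ x_{σ (m-1)}` as a multilinear map on
`M3 R`, for a commutative `K`-algebra `R`. -/
noncomputable def evalML {K : Type*} [Field K] (R : Type*) [CommRing R] [Algebra K R] {m : ℕ}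
    (c : Equiv.Perm (Fin m) → K) : MultilinearMap R (fun _ : Fin m => M3 R) (M3 R) :=
  ∑ σ : Equiv.Perm (Fin m),
    algebraMap K R (c σ) • (MultilinearMap.mkPiAlgebraFin R m (M3 R)).domDomCongr σ

theorem evalML_apply {K : Type*} [Field K] (R : Type*) [CommRing R] [Algebra K R] {m : ℕ}
    (c : Equiv.Perm (Fin m) → K) (x : Fin m → M3 R) :
    evalML R c x = ∑ σ : Equiv.Perm (Fin m),
      algebraMap K R (c σ) • (List.ofFn fun k => x (σ k)).prod := by
  simp [evalML]

/-- The linear map `z ↦ p(a_1, …, z, …, a_m)` (slot `i`). -/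
noncomputable def slot {K : Type*} [Field K] (R : Type*) [CommRing R] [Algebra K R] {m : ℕ}
    (c : Equiv.Perm (Fin m) → K) (i : Fin m) (a : Fin m → M3 R) : M3 R →ₗ[R] M3 R :=
  (evalML R c).toLinearMap a i

theorem slot_apply {K : Type*} [Field K] (R : Type*) [CommRing R] [Algebra K R] {m : ℕ}
    (c : Equiv.Perm (Fin m) → K) (i : Fin m) (a : Fin m → M3 R) (z : M3 R) :
    slot R c i a z = evalML R c (Function.update a i z) := rfl

/-- The diagonal matrix `diag (1, w, w^2)`. -/
def pX {R : Type*} [CommRing R] (w : R) : M3 R := !![1, 0, 0; 0, w, 0; 0, 0, w ^ 2]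

/-- The cyclic shift. -/
def pY {R : Type*} [CommRing R] : M3 R := !![0, 0, 1; 1, 0, 0; 0, 1, 0]

/-- The Pauli (Weyl) matrices `X^a Y^b`. -/
def h {R : Type*} [CommRing R] (w : R) (v : V) : M3 R := pX w ^ v.1.val * pY ^ v.2.val

/-- The coordinate functionals dual to `h`: `coord w v N = (1/3) tr (h_v⁻¹ N)`; here
`X⁻¹ = X²`, `Y⁻¹ = Y²`. The scalar `t` plays the role of `1/3`. -/
def coord {R : Type*} [CommRing R] (w t : R) (v : V) (N : M3 R) : R :=
  t * trace (pY ^ (2 * v.2.val) * pX w ^ (2 * v.1.val) * N)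

/-- The symplectic form on `V`. -/
def symp (v u : V) : ZMod 3 := v.1 * u.2 - v.2 * u.1

/-- The second coefficient of the characteristic polynomial (sum of the principal
`2 x 2` minors). -/
def c2 {R : Type*} [CommRing R] (M : M3 R) : R :=
  M 0 0 * M 1 1 - M 0 1 * M 1 0 + (M 0 0 * M 2 2 - M 0 2 * M 2 0)
    + (M 1 1 * M 2 2 - M 1 2 * M 2 1)

/-- Slot matrix of a graded multilinear map with structure constants `C`, where the slots
`j ≠ i` are evaluated at `X j : V → R` and slot `i` is linear: entry `(u, b)`. -/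
noncomputable def slotMat {K : Type*} [Field K] {R : Type*} [CommRing R] [Algebra K R] {m : ℕ}
    (C : (Fin m → V) → K) (i : Fin m) (X : Fin m → V → R) : Matrix V V R :=
  fun u b => ∑ v : Fin m → V, if v i = b ∧ ∑ j, v j = u then
    algebraMap K R (C v) * ∏ j ∈ Finset.univ.erase i, X j (v j) else 0

/-- `IsCyclic' M v`: the vectors `v, M v, M² v` are a basis (nonzero determinant). -/
def Cyc {R : Type*} [CommRing R] (M : M3 R) (v : Fin 3 → R) : M3 R :=
  Matrix.of ![v, M *ᵥ v, M *ᵥ (M *ᵥ v)]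

end Pool.Agent.H24ML
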