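import Pool.Agent.Helper24.ML.Defs

/-!
# Congruence preserving functions and a fixed point lemma in `K[[X]]`
-/

namespace Pool.Agent.H24ML

/-- Congruence preserving functions. -/
def CP {K : Type*} [Field K] {n : ℕ} (f : (Fin n → PowerSeries K) → PowerSeries K) : Prop :=
  ∀ (k : ℕ) (a b : Fin n → PowerSeries K),
    (∀ i, (PowerSeries.X : PowerSeries K) ^ k ∣ a i - b i) →
      (PowerSeries.X : PowerSeries K) ^ k ∣ f a - f b

section CP

variable {K : Type*} [Field K] {n : ℕ}

theorem CP.const (c : PowerSeries K) : CP (fun _ : Fin n → PowerSeries K => c) := by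
  intro k a b _
  simp

theorem CP.proj (i : Fin n) : CP (fun a : Fin n → PowerSeries K => a i) := by
  intro k a b h
  exact h i

theorem CP.add {f g : (Fin n → PowerSeries K) → PowerSeries K} (hf : CP f) (hg : CP g) :
    CP (fun a => f a + g a) := by
  intro k a b h
  have := dvd_add (hf k a b h) (hg k a b h)
  convert this using 1
  ring

theorem CP.neg {f : (Fin n → PowerSeries K) → PowerSeries K} (hf : CP f) :
    CP (fun a => - f a) := by
  intro k a b h
  have := (dvd_neg).2 (hf k a b h)
  convert this using 1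
  ring

theorem CP.sub {f g : (Fin n → PowerSeries K) → PowerSeries K} (hf : CP f) (hg : CP g) :
    CP (fun a => f a - g a) := by
  intro k a b h
  have := dvd_sub (hf k a b h) (hg k a b h)
  convert this using 1
  ring

theorem CP.mul {f g : (Fin n → PowerSeries K) → PowerSeries K} (hf : CP f) (hg : CP g) :
    CP (fun a => f a * g a) := by
  intro k a b h
  have := dvd_add ((hf k a b h).mul_right (g a)) ((hg k a b h).mul_left (f b))
  convert this using 1
  ring

theorem CP.pow {f : (Fin n → PowerSeries K) → PowerSeries K} (hf : CP f) (m : ℕ) :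
    CP (fun a => f a ^ m) := by
  induction m with
  | zero => simpa using CP.const (n := n) (1 : PowerSeries K)
  | succ m ih => simpa [pow_succ] using ih.mul hf

theorem CP.sum {ι : Type*} (s : Finset ι) {f : ι → (Fin n → PowerSeries K) → PowerSeries K}
    (hf : ∀ i ∈ s, CP (f i)) : CP (fun a => ∑ i ∈ s, f i a) := by
  intro k a b h
  rw [← Finset.sum_sub_distrib]
  exact Finset.dvd_sum fun i hi => hf i hi k a b h

/-- Composition. -/
theorem CP.comp {m : ℕ} {f : (Fin m → PowerSeries K) → PowerSeries K} (hf : CP f)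
    {g : Fin m → (Fin n → PowerSeries K) → PowerSeries K} (hg : ∀ i, CP (g i)) :
    CP (fun a => f (fun i => g i a)) := by
  intro k a b h
  exact hf k _ _ fun i => hg i k a b h

end CP

theorem fix_lemma {K : Type*} [Field K] {n : ℕ}
    (H : Fin n → (Fin n → PowerSeries K) → PowerSeries K) (hH : ∀ i, CP (H i))
    (C : Fin n → PowerSeries K) :
    ∃ a : Fin n → PowerSeries K, ∀ i, a i = C i + PowerSeries.X * H i a := by
  let s : ℕ → Fin n → PowerSeries K := fun m =>
    Nat.rec (fun _ => 0) (fun _ a i => C i + PowerSeries.X * H i a) m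
  have hs : ∀ m i, s (m + 1) i = C i + PowerSeries.X * H i (s m) := fun m i => rfl
  have h1 : ∀ m i, (PowerSeries.X : PowerSeries K) ^ m ∣ s (m + 1) i - s m i := by
    intro m
    induction m with
    | zero => intro i; simp
    | succ m ih =>
      intro i
      have h2 : s (m + 1 + 1) i - s (m + 1) i
          = PowerSeries.X * (H i (s (m + 1)) - H i (s m)) := by
        rw [hs (m + 1), hs m]; ring
      rw [h2, pow_succ']
      exact mul_dvd_mul_left _ (hH i m _ _ ih)
  have h2 : ∀ m k i, (PowerSeries.X : PowerSeries K) ^ m ∣ s (m + k) i - s m i := by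
    intro m k
    induction k with
    | zero => intro i; simp
    | succ k ih =>
      intro i
      have h3 : (PowerSeries.X : PowerSeries K) ^ m ∣ s (m + k + 1) i - s (m + k) i :=
        (pow_dvd_pow _ (Nat.le_add_right m k)).trans (h1 (m + k) i)
      have := dvd_add h3 (ih i)
      rw [sub_add_sub_cancel] at this
      exact this
  let a : Fin n → PowerSeries K := fun i =>
    PowerSeries.mk fun m => PowerSeries.coeff m (s (m + 1) i)
  have h3 : ∀ m i, (PowerSeries.X : PowerSeries K) ^ m ∣ a i - s m i := by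
    intro m i
    rw [PowerSeries.X_pow_dvd_iff]
    intro j hj
    obtain ⟨d, rfl⟩ : ∃ d, m = j + 1 + d := ⟨m - (j + 1), by omega⟩
    have h4 := (PowerSeries.X_pow_dvd_iff.1 (h2 (j + 1) d i)) j (Nat.lt_succ_self j)
    rw [map_sub] at h4 ⊢
    rw [PowerSeries.coeff_mk]
    rw [sub_eq_zero] at h4 ⊢
    exact h4.symm
  refine ⟨a, fun i => ?_⟩
  rw [← sub_eq_zero]
  ext m
  have h4 : (PowerSeries.X : PowerSeries K) ^ (m + 1) ∣
      a i - (C i + PowerSeries.X * H i a) := by
    have h5 : a i - (C i + PowerSeries.X * H i a)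
        = (a i - s (m + 1 + 1) i) + PowerSeries.X * (H i (s (m + 1)) - H i a) := by
      rw [hs (m + 1)]; ring
    rw [h5]
    refine dvd_add ((pow_dvd_pow _ (Nat.le_succ _)).trans (h3 (m + 1 + 1) i)) ?_
    refine Dvd.dvd.mul_left ?_ _
    refine hH i (m + 1) _ _ fun j => ?_
    have := (dvd_neg).2 (h3 (m + 1) j)
    rwa [neg_sub] at this
  simpa using (PowerSeries.X_pow_dvd_iff.1 h4) m (Nat.lt_succ_self m)

end Pool.Agent.H24ML
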