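import Pool.Agent.Helper24.ML.Cases

/-! Derogatory targets and the main theorem. -/

open Matrix

namespace Pool.Agent.H24ML

universe u

section cases

variable {K : Type u} [Field K] [IsAlgClosed K] {m : ℕ}

/-- A rank one matrix shifted by a scalar matrix hits all the derogatory targets of the
right shape. -/
theorem dr_final (w t : K) (hw : 1 + w + w ^ 2 = 0) (ht : t * 3 = 1)
    (c : Equiv.Perm (Fin m) → K) (C : (Fin m → V) → K)
    (hC : ∀ (R : Type u) [CommRing R] [Algebra K R] (v : Fin m → V),
      evalML R c (fun j => h (algebraMap K R w) (v j))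
        = algebraMap K R (C v) • h (algebraMap K R w) (∑ j, v j))
    (i : Fin m) (X : Fin m → V → PowerSeries K)
    (al : K) (p0 q0 : Fin 3 → K) (hp0 : p0 ≠ 0) (hq0 : q0 ≠ 0)
    (n : V → PowerSeries K) (p q : Fin 3 → PowerSeries K)
    (hn : toM (PowerSeries.C w) n = vecMulVec p q) (u0 : V) (hnu : n u0 ≠ 0)
    (M : V → FF K) (hM : M ∈ Wsp C i X) (β s : FF K) (hs : s ≠ 0)
    (hβ : ∀ u, M u = algebraMap (PowerSeries K) (FF K) (n u) + (if u = 0 then β else 0))
    (h1 : s * β = algebraMap K (FF K) al)
    (h2 : s * (3 * algebraMap (PowerSeries K) (FF K) (n 0)) = algebraMap K (FF K) (q0 ⬝ᵥ p0)) :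
    ∃ x : Fin m → M3 K, evalML K c x = al • (1 : M3 K) + vecMulVec p0 q0 := by
  classical
  have hwO := quad_map (PowerSeries.C (R := K)) w hw
  have htO := third_map (PowerSeries.C (R := K)) t ht
  set ι : PowerSeries K →+* FF K := algebraMap (PowerSeries K) (FF K) with hι
  have hp : p ≠ 0 := by
    rintro rfl
    rw [zero_vecMulVec] at hn
    apply hnu
    rw [← coord_toM (PowerSeries.C w) (PowerSeries.C t) hwO htO n u0, hn]
    simp [coord]
  have hq : q ≠ 0 := by
    rintro rfl
    rw [vecMulVec_zero] at hn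
    apply hnu
    rw [← coord_toM (PowerSeries.C w) (PowerSeries.C t) hwO htO n u0, hn]
    simp [coord]
  have hinj : ∀ r : Fin 3 → PowerSeries K, r ≠ 0 → (fun j => ι (r j)) ≠ 0 := by
    intro r hr hh
    apply hr
    funext j
    have := congrFun hh j
    exact inj_FF (this.trans (map_zero ι).symm)
  have hinjK : ∀ r : Fin 3 → K, r ≠ 0 → (fun j => algebraMap K (FF K) (r j)) ≠ 0 := by
    intro r hr hh
    apply hr
    funext j
    have := congrFun hh j
    exact (algebraMap K (FF K)).injective (by simpa using this)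
  have hMM : toM (algebraMap K (FF K) w) M
      = β • (1 : M3 (FF K)) + vecMulVec (fun j => ι (p j)) (fun j => ι (q j)) := by
    have e1 : M = (fun u => ι (n u)) + Pi.single 0 β := by
      funext u
      rw [hβ u, Pi.add_apply]
      congr 1
      by_cases hu : u = 0
      · subst hu; simp
      · rw [if_neg hu, Pi.single_eq_of_ne hu]
    rw [e1, toM_add, toM_single, h_zero, ← map_C_w, ← toM_map, hn, vecMulVec_map, add_comm]
  have htr : (fun j => ι (q j)) ⬝ᵥ (fun j => ι (p j)) = 3 * ι (n 0) := by
    rw [dot_map, dotProduct_comm, ← trace_vecMulVec, ← hn, trace_toM _ hwO, map_mul, map_ofNat]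
  have hmem := Submodule.smul_mem _ s (mem_Wm w c C hC i X M hM)
  rw [hMM, smul_add, smul_smul, h1, ← smul_vecMulVec] at hmem
  refine fin_step c _ _ i _ hmem ?_
  rw [add_map', map_smul', one_map', vecMulVec_map]
  refine sim_rank_one _ _ _ _ _ ?_ (hinj q hq) (hinjK p0 hp0) (hinjK q0 hq0) ?_
  · exact smul_ne_zero hs (hinj p hp)
  · rw [dotProduct_smul, htr, smul_eq_mul, h2, dot_map]

/-- the rank one nilpotent case, via the algebraic closure of the power series field -/
theorem case_la (w t : K) (hw : 1 + w + w ^ 2 = 0) (ht : t * 3 = 1)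
    (c : Equiv.Perm (Fin m) → K) (C : (Fin m → V) → K)
    (hC : ∀ (R : Type u) [CommRing R] [Algebra K R] (v : Fin m → V),
      evalML R c (fun j => h (algebraMap K R w) (v j))
        = algebraMap K R (C v) • h (algebraMap K R w) (∑ j, v j))
    (i : Fin m) (X : Fin m → V → PowerSeries K)
    (S : Finset V) (hS : S.card = 5) (h0S : (0 : V) ∉ S) (g : V → V → PowerSeries K)
    (hg1 : ∀ v ∈ S, g v v = 1) (hg0 : ∀ v ∈ S, g v 0 = 0)
    (hg2 : ∀ v ∈ S, ∀ u ∈ S, u ≠ v → g v u = 0)
    (hgW : ∀ v ∈ S, (fun u => algebraMap (PowerSeries K) (FF K) (g v u)) ∈ Wsp C i X)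
    (al : K) (hal : al = 0 ∨ Pi.single 0 1 ∈ Wsp C i X)
    (p0 q0 : Fin 3 → K) (hp0 : p0 ≠ 0) (hq0 : q0 ≠ 0) (hpq : q0 ⬝ᵥ p0 = 0) :
    ∃ x : Fin m → M3 K, evalML K c x = al • (1 : M3 K) + vecMulVec p0 q0 := by
  classical
  set Ω := AlgebraicClosure (FF K) with hΩ
  set j : FF K →+* Ω := algebraMap (FF K) Ω with hj
  set κ : K →+* Ω := algebraMap K Ω with hκ
  have hjκ : ∀ a : K, j (algebraMap K (FF K) a) = κ a := fun a =>
    (IsScalarTower.algebraMap_apply K (FF K) Ω a).symm
  have hwΩ := quad_map κ w hw
  have htΩ := third_map κ t ht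
  set ι : PowerSeries K →+* FF K := algebraMap (PowerSeries K) (FF K) with hι
  set a' : Fin m → M3 (FF K) := fun k => toM (algebraMap K (FF K) w)
    (fun v => ι (X k v)) with ha'
  -- the image space over Ω
  set WΩ : Submodule Ω (M3 Ω) := LinearMap.range (slot Ω c i (fun k => (a' k).map j)) with hWΩ
  have hWmap : ∀ M ∈ Wm w c i X, M.map j ∈ WΩ := by
    rintro M ⟨z, rfl⟩
    refine ⟨z.map j, ?_⟩
    rw [slot_apply, slot_apply]
    have e1 := evalML_map (IsScalarTower.toAlgHom K (FF K) Ω) c (Function.update a' i z)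
    have e2 : (Function.update (fun k => (a' k).map j) i (z.map j))
        = fun k => ((Function.update a' i z) k).map (IsScalarTower.toAlgHom K (FF K) Ω) := by
      funext k
      by_cases hk : k = i
      · subst hk; simp only [Function.update_self]; rfl
      · simp only [Function.update_of_ne hk]; rfl
    rw [e2, e1]
    rfl
  -- enumeration of the remaining three indices
  set T3 : Finset V := (insert 0 S)ᶜ with hT3
  have hT3c : T3.card = 3 := by
    rw [hT3, Finset.card_compl, Finset.card_insert_of_notMem h0S, hS]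
    rfl
  set en : Fin 3 ≃ T3 := (T3.equivFinOfCardEq hT3c).symm with hen
  set P : V → M3 Ω := fun v => pY ^ (2 * v.2.val) * pX (κ w) ^ (2 * v.1.val) with hP
  have hcoord : ∀ (v : V) (N : M3 Ω), coord (κ w) (κ t) v N = κ t * trace (P v * N) :=
    fun v N => rfl
  set B : Fin 3 → M3 Ω := fun k =>
    κ t • (P (en k) - ∑ v ∈ S, j (ι (g v (en k))) • P v) with hB
  obtain ⟨p, q, hp, hq, hqp, hBq⟩ := la_rank_one B
  set N : M3 Ω := vecMulVec p q with hN
  have htrB : ∀ D : M3 Ω, trace (D * N) = q ⬝ᵥ (D *ᵥ p) := by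
    intro D
    rw [hN, Matrix.mul_vecMulVec, trace_vecMulVec, dotProduct_comm]
  set n : V → Ω := fun v => coord (κ w) (κ t) v N with hn
  have hN2 : N = toM (κ w) n := (toM_coord (κ w) (κ t) hwΩ htΩ N).symm
  have hnu : ∀ u, n u = ∑ v ∈ S, n v * j (ι (g v u)) := by
    intro u
    by_cases hu : u ∈ S
    · rw [Finset.sum_eq_single u]
      · rw [hg1 u hu, map_one, map_one, mul_one]
      · intro v hv hvu
        rw [hg2 v hv u hu (Ne.symm hvu), map_zero, map_zero, mul_zero]
      · intro hh; exact absurd hu hh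
    · by_cases hu' : u = 0
      · subst hu'
        rw [Finset.sum_eq_zero]
        · rw [hn]
          simp only
          rw [coord_zero_eq, hN, trace_vecMulVec, dotProduct_comm, hqp, mul_zero]
        · intro v hv
          rw [hg0 v hv, map_zero, map_zero, mul_zero]
      · have huT : u ∈ T3 := by
          rw [hT3, Finset.mem_compl, Finset.mem_insert]
          push Not
          exact ⟨hu', hu⟩
        obtain ⟨k, hk⟩ := en.surjective ⟨u, huT⟩
        have e3 := hBq k
        rw [← htrB, hB] at e3
        simp only [hk] at e3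
        rw [Matrix.smul_mul, trace_smul, Matrix.sub_mul, trace_sub, Finset.sum_mul, trace_sum,
          smul_eq_mul, mul_sub, ← hcoord, Finset.mul_sum, sub_eq_zero] at e3
        rw [hn]
        simp only
        rw [e3]
        refine Finset.sum_congr rfl fun v _ => ?_
        rw [Matrix.smul_mul, trace_smul, smul_eq_mul, hcoord]
        ring
  have hN3 : N = ∑ v ∈ S, n v • (toM (algebraMap K (FF K) w) (fun u => ι (g v u))).map j := by
    rw [hN2]
    have e4 : n = ∑ v ∈ S, n v • (fun u => j (ι (g v u))) := by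
      funext u
      rw [Finset.sum_apply]
      simp only [Pi.smul_apply, smul_eq_mul]
      exact hnu u
    conv_lhs => rw [e4]
    rw [← toML_apply, map_sum]
    refine Finset.sum_congr rfl fun v _ => ?_
    rw [map_smul, toML_apply, toM_map, hjκ]
  have hNW : N ∈ WΩ := by
    rw [hN3]
    refine Submodule.sum_mem _ fun v hv => Submodule.smul_mem _ _ (hWmap _ ?_)
    exact mem_Wm w c C hC i X _ (hgW v hv)
  have h1W : κ al • (1 : M3 Ω) ∈ WΩ := by
    rcases hal with rfl | hal
    · rw [map_zero, zero_smul]; exact Submodule.zero_mem _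
    · refine Submodule.smul_mem _ _ ?_
      have e5 := hWmap _ (mem_Wm w c C hC i X _ hal)
      rw [toM_single, h_zero, one_smul, one_map'] at e5
      exact e5
  have hfin := Submodule.add_mem _ h1W hNW
  refine fin_step c _ _ i _ hfin ?_
  rw [add_map', map_smul', one_map', vecMulVec_map]
  have hinjK : ∀ r : Fin 3 → K, r ≠ 0 → (fun l => κ (r l)) ≠ 0 := by
    intro r hr hh
    apply hr
    funext l
    have := congrFun hh l
    exact κ.injective (by simpa using this)
  refine sim_rank_one _ _ _ _ _ hp hq (hinjK p0 hp0) (hinjK q0 hq0) ?_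
  rw [hqp, dot_map, hpq, map_zero]

/-- **Main theorem.** -/
theorem rank_six (h3 : (3 : K) ≠ 0) (c : Equiv.Perm (Fin m) → K)
    (htr : ∃ x : Fin m → M3 K, trace (evalML K c x) ≠ 0)
    (h6 : ∃ (i : Fin m) (a : Fin m → M3 K),
      6 ≤ Module.finrank K (LinearMap.range (slot K c i a)))
    (A : M3 K) : ∃ x : Fin m → M3 K, evalML K c x = A := by
  classical
  obtain ⟨w, hw⟩ : ∃ w : K, 1 + w + w ^ 2 = 0 := by
    obtain ⟨w, hw⟩ := IsAlgClosed.exists_root
      (Polynomial.X ^ 2 + Polynomial.X + 1 : Polynomial K) (by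
        have : (Polynomial.X ^ 2 + Polynomial.X + 1 : Polynomial K).degree = 2 := by
          compute_degree!
        rw [this]
        norm_num)
    refine ⟨w, ?_⟩
    rw [Polynomial.IsRoot.def] at hw
    simp only [Polynomial.eval_add, Polynomial.eval_pow, Polynomial.eval_X,
      Polynomial.eval_one] at hw
    rw [← hw]
    ring
  set t : K := (3 : K)⁻¹ with ht'
  have ht : t * 3 = 1 := inv_mul_cancel₀ h3
  obtain ⟨C, hC⟩ := exists_struct w (cube_of_quad w hw) c
  obtain ⟨x0, hx0⟩ := htr
  obtain ⟨i, a, ha⟩ := h6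
  have h0 := exists_zero_sum w t hw ht c C hC i x0 hx0
  have h6' := exists_rank w t hw ht c C hC i a 6 ha
  obtain ⟨X, S, b0, g, hS, h0S, hb0, hg, he⟩ := heisenberg_limit C i h0 h6'
  have hg1 : ∀ v ∈ S, g v v = 1 := fun v hv => (hg v hv).1
  have hg0 : ∀ v ∈ S, g v 0 = 0 := fun v hv => (hg v hv).2.1
  have hg2 : ∀ v ∈ S, ∀ u ∈ S, u ≠ v → g v u = 0 := fun v hv => (hg v hv).2.2.1
  have hg3 : ∀ v ∈ S, ∀ u ∉ S, PowerSeries.X ∣ g v u := fun v hv => (hg v hv).2.2.2.1
  have hgW : ∀ v ∈ S, (fun u => algebraMap (PowerSeries K) (FF K) (g v u)) ∈ Wsp C i X :=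
    fun v hv => (hg v hv).2.2.2.2
  set ι : PowerSeries K →+* FF K := algebraMap (PowerSeries K) (FF K) with hι
  rcases trichotomy A with ⟨v0, hv0⟩ | ⟨al, p0, q0, hp0, hq0, hA⟩ | ⟨al, hA⟩
  · exact case_nd w t hw ht c C hC i X S hS h0S b0 hb0 g hg1 hg0 hg2 hg3 hgW A v0 hv0
  · rw [hA]
    have h3' : (algebraMap K (FF K)) 3 ≠ 0 := by
      intro hh
      rw [← map_zero (algebraMap K (FF K))] at hh
      exact h3 ((algebraMap K (FF K)).injective hh)
    have h3L : (3 : FF K) ≠ 0 := by rwa [map_ofNat] at h3'
    set T : K := 3 * al + q0 ⬝ᵥ p0 with hT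
    by_cases hT0 : T = 0
    · by_cases hal : al = 0
      · refine case_la w t hw ht c C hC i X S hS h0S g hg1 hg0 hg2 hgW al (Or.inl hal)
          p0 q0 hp0 hq0 ?_
        rw [hT, hal, mul_zero, zero_add] at hT0
        exact hT0
      · -- target of trace zero
        obtain ⟨n, p, q, lam, hn, hnu, hlam, hn2⟩ := drg w t hw ht S hS 0 h0S g hg1 hg2 hg3
          (Pi.single 0 1) (by simp) (fun v hv => Pi.single_eq_of_ne
            (fun hh : v = 0 => h0S (by rw [← hh]; exact hv)) 1) (fun u _ hu => by
              rw [Pi.single_eq_of_ne hu]; exact dvd_zero _)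
        have hlam0 : ι lam ≠ 0 := (hlam.map ι).ne_zero
        have hn0 : n 0 = lam := by
          rw [hn2 0, Finset.sum_eq_zero, zero_add]
          · simp
          · intro v hv
            rw [hg0 v hv, mul_zero]
        have hal' : algebraMap K (FF K) al ≠ 0 := by
          intro hh
          rw [← map_zero (algebraMap K (FF K))] at hh
          exact hal ((algebraMap K (FF K)).injective hh)
        refine dr_final w t hw ht c C hC i X al p0 q0 hp0 hq0 n p q hn 0 hnu
          (∑ v ∈ S, ι (n v) • (fun u => ι (g v u))) ?_ (-ι lam)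
          (-(algebraMap K (FF K) al) / ι lam) ?_ ?_ ?_ ?_
        · exact Submodule.sum_mem _ fun v hv => Submodule.smul_mem _ _ (hgW v hv)
        · exact div_ne_zero (neg_ne_zero.2 hal') hlam0
        · intro u
          rw [← hι, hn2 u, map_add, map_sum, Finset.sum_apply]
          simp only [Pi.smul_apply, smul_eq_mul, map_mul]
          by_cases hu : u = 0
          · subst hu
            rw [Pi.single_eq_same, if_pos rfl, map_one]
            ring
          · rw [if_neg hu, Pi.single_eq_of_ne hu, map_zero]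
            ring
        · field_simp
        · have e1 : q0 ⬝ᵥ p0 = -(3 * al) := by
            have := hT0
            rw [hT] at this
            linear_combination this
          rw [← hι, hn0, e1, map_neg, map_mul, map_ofNat]
          field_simp
    · -- target of nonzero trace
      have hTL : algebraMap K (FF K) T ≠ 0 := by
        intro hh
        rw [← map_zero (algebraMap K (FF K))] at hh
        exact hT0 ((algebraMap K (FF K)).injective hh)
      set e : K := 1 - 3 * al / T with he'
      have heT : e * T = q0 ⬝ᵥ p0 := by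
        rw [he', sub_mul, div_mul_cancel₀ _ hT0, hT]
        ring
      rcases he e with ⟨he0, hsing⟩ | ⟨u0, hu0, f, z, hz, hz0, hfz, hf0, hfS, hfX⟩
      · refine case_la w t hw ht c C hC i X S hS h0S g hg1 hg0 hg2 hgW al (Or.inr hsing)
          p0 q0 hp0 hq0 ?_
        rw [← heT, he0, zero_mul]
      · obtain ⟨n, p, q, lam, hn, hnu, hlam, hn2⟩ := drg w t hw ht S hS u0 hu0 g hg1 hg2 hg3
          f hf0 hfS hfX
        have hlam0 : ι lam ≠ 0 := (hlam.map ι).ne_zero
        have hn0 : ι (n 0) = ι lam * (algebraMap K (FF K) e * z 0) := by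
          rw [hn2 0, Finset.sum_eq_zero, zero_add, map_mul, hfz 0, if_pos rfl]
          intro v hv
          rw [hg0 v hv, mul_zero]
        refine dr_final w t hw ht c C hC i X al p0 q0 hp0 hq0 n p q hn u0 hnu
          (∑ v ∈ S, ι (n v) • (fun u => ι (g v u)) + ι lam • z) ?_
          (ι lam * ((1 - algebraMap K (FF K) e) * z 0))
          (algebraMap K (FF K) T / (3 * (ι lam * z 0))) ?_ ?_ ?_ ?_
        · exact Submodule.add_mem _
            (Submodule.sum_mem _ fun v hv => Submodule.smul_mem _ _ (hgW v hv))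
            (Submodule.smul_mem _ _ hz)
        · exact div_ne_zero hTL (mul_ne_zero h3L (mul_ne_zero hlam0 hz0))
        · intro u
          rw [hn2 u, map_add, map_sum, Pi.add_apply, Finset.sum_apply, map_mul, hfz u]
          simp only [Pi.smul_apply, smul_eq_mul, map_mul]
          by_cases hu : u = 0
          · subst hu; simp only [if_true]; ring
          · simp only [if_neg hu]; ring
        · have e1 : algebraMap K (FF K) T * (1 - algebraMap K (FF K) e)
              = 3 * algebraMap K (FF K) al := by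
            have : T * (1 - e) = 3 * al := by
              rw [mul_sub, mul_one, mul_comm T e, heT, hT]; ring
            rw [← map_one (algebraMap K (FF K)), ← map_sub, ← map_mul, this, map_mul,
              map_ofNat]
          field_simp
          linear_combination e1
        · have e1 : algebraMap K (FF K) T * algebraMap K (FF K) e
              = algebraMap K (FF K) (q0 ⬝ᵥ p0) := by
            rw [← map_mul, mul_comm, heT]
          rw [hn0]
          field_simp
          linear_combination e1
  · -- scalar targets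
    rw [hA]
    obtain ⟨v, hv, hCv⟩ := h0
    have e1 := hC K v
    simp only [Algebra.algebraMap_self, RingHom.id_apply] at e1
    rw [hv, h_zero] at e1
    refine ⟨Function.update (fun j => h w (v j)) i ((al / C v) • h w (v i)), ?_⟩
    rw [MultilinearMap.map_update_smul, Function.update_eq_self, e1, smul_smul,
      div_mul_cancel₀ _ hCv]

end cases

end Pool.Agent.H24ML
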