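import Pool.Agent.Helper24.ML.Defs

/-!
# Pauli algebra for `3 x 3` matrices (block PA)
-/

open Matrix

namespace Pool.Agent.H24ML

theorem pX_pow {R : Type*} [CommRing R] (w : R) (k : ℕ) :
    pX w ^ k = !![1, 0, 0; 0, w ^ k, 0; 0, 0, w ^ (2 * k)] := by
  induction k with
  | zero =>
    ext i j
    fin_cases i <;> fin_cases j <;> simp
  | succ k ih =>
    rw [pow_succ, ih]
    ext i j
    fin_cases i <;> fin_cases j <;> simp [pX, Matrix.mul_apply, Fin.sum_univ_three] <;> ring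

theorem pX_cube {R : Type*} [CommRing R] (w : R) (hw : w ^ 3 = 1) : pX w ^ 3 = 1 := by
  rw [pX_pow]
  ext i j
  fin_cases i <;> fin_cases j <;> simp [hw]
  linear_combination (w ^ 3 + 1) * hw

theorem pY_sq {R : Type*} [CommRing R] :
    (pY : M3 R) ^ 2 = !![0, 1, 0; 0, 0, 1; 1, 0, 0] := by
  rw [pow_two]
  ext i j
  fin_cases i <;> fin_cases j <;> simp [pY, Matrix.mul_apply, Fin.sum_univ_three]

theorem pY_cube {R : Type*} [CommRing R] : (pY : M3 R) ^ 3 = 1 := by
  rw [pow_succ, pY_sq]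
  ext i j
  fin_cases i <;> fin_cases j <;>
    simp [pY, Matrix.mul_apply, Fin.sum_univ_three]

/-- `XY = w YX`. -/
theorem pX_mul_pY {R : Type*} [CommRing R] (w : R) (hw : w ^ 3 = 1) :
    pX w * pY = w • (pY * pX w) := by
  ext i j
  fin_cases i <;> fin_cases j <;>
    simp [pX, pY, Matrix.mul_apply, Fin.sum_univ_three]
  · linear_combination -hw
  · ring

/-- `YX = w² XY`. -/
theorem pY_mul_pX {R : Type*} [CommRing R] (w : R) (hw : w ^ 3 = 1) :
    pY * pX w = w ^ 2 • (pX w * pY) := by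
  rw [pX_mul_pY w hw, smul_smul, ← pow_succ, hw, one_smul]

theorem pY_pow_mul_pX {R : Type*} [CommRing R] (w : R) (hw : w ^ 3 = 1) (b : ℕ) :
    pY ^ b * pX w = w ^ (2 * b) • (pX w * pY ^ b) := by
  induction b with
  | zero => simp
  | succ b ih =>
    rw [pow_succ, Matrix.mul_assoc, pY_mul_pX w hw, Matrix.mul_smul, ← Matrix.mul_assoc, ih,
      Matrix.smul_mul, smul_smul, Matrix.mul_assoc, ← pow_succ, ← pow_add]
    ring_nf

theorem pY_pow_mul_pX_pow {R : Type*} [CommRing R] (w : R) (hw : w ^ 3 = 1) (b c : ℕ) :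
    pY ^ b * pX w ^ c = w ^ (2 * b * c) • (pX w ^ c * pY ^ b) := by
  induction c with
  | zero => simp
  | succ c ih =>
    rw [pow_succ, ← Matrix.mul_assoc, ih, Matrix.smul_mul, Matrix.mul_assoc,
      pY_pow_mul_pX w hw, Matrix.mul_smul, smul_smul, ← Matrix.mul_assoc, ← pow_add]
    ring_nf

theorem pX_pow_mod {R : Type*} [CommRing R] (w : R) (hw : w ^ 3 = 1) (k : ℕ) :
    pX w ^ k = pX w ^ (k % 3) := pow_eq_pow_mod k (pX_cube w hw)

theorem pY_pow_mod {R : Type*} [CommRing R] (k : ℕ) :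
    (pY : M3 R) ^ k = pY ^ (k % 3) := pow_eq_pow_mod k pY_cube

/-- `h` with representatives of the exponents. -/
theorem h_cast {R : Type*} [CommRing R] (w : R) (hw : w ^ 3 = 1) (a b : ℕ) :
    pX w ^ a * pY ^ b = h w ((a : ZMod 3), (b : ZMod 3)) := by
  rw [h, ZMod.val_natCast, ZMod.val_natCast, ← pX_pow_mod w hw, ← pY_pow_mod]

theorem h_map {R S : Type*} [CommRing R] [CommRing S] (f : R →+* S) (w : R) (v : V) :
    (h w v).map f = h (f w) v := by
  have h1 : (pX w).map f = pX (f w) := by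
    ext i j
    fin_cases i <;> fin_cases j <;> simp [pX]
  have h2 : (pY : M3 R).map f = pY := by
    ext i j
    fin_cases i <;> fin_cases j <;> simp [pY]
  have h3 : ∀ M : M3 R, M.map f = f.mapMatrix M := fun M => rfl
  rw [h3, h, map_mul, map_pow, map_pow, ← h3, ← h3, h1, h2, h]

theorem h_zero {R : Type*} [CommRing R] (w : R) : h w 0 = 1 := by
  simp [h]

/-- products of Pauli matrices -/
theorem h_mul {R : Type*} [CommRing R] (w : R) (hw : w ^ 3 = 1) (v u : V) :
    ∃ e : ℕ, h w v * h w u = w ^ e • h w (v + u) := by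
  refine ⟨2 * v.2.val * u.1.val, ?_⟩
  have e1 : h w v * h w u = pX w ^ v.1.val * (pY ^ v.2.val * pX w ^ u.1.val) * pY ^ u.2.val := by
    simp only [h, Matrix.mul_assoc]
  rw [e1, pY_pow_mul_pX_pow w hw, Matrix.mul_smul, Matrix.smul_mul]
  congr 1
  have e2 : pX w ^ v.1.val * (pX w ^ u.1.val * pY ^ v.2.val) * pY ^ u.2.val
      = pX w ^ (v.1.val + u.1.val) * pY ^ (v.2.val + u.2.val) := by
    rw [pow_add, pow_add]
    simp only [Matrix.mul_assoc]
  rw [e2, h_cast w hw]
  simp [Prod.add_def]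

theorem det_h {R : Type*} [CommRing R] (w : R) (hw : w ^ 3 = 1) (v : V) :
    det (h w v) = 1 := by
  have h1 : det (pX w) = 1 := by
    simp [pX, Matrix.det_fin_three]
    linear_combination hw
  have h2 : det (pY : M3 R) = 1 := by
    simp [pY, Matrix.det_fin_three]
  rw [h, det_mul, det_pow, det_pow, h1, h2]
  simp

theorem cube_of_quad {R : Type*} [CommRing R] (w : R) (hw : 1 + w + w ^ 2 = 0) : w ^ 3 = 1 := by
  linear_combination (w - 1) * hw

theorem sum_pow {R : Type*} [CommRing R] (w : R) (hw : 1 + w + w ^ 2 = 0) (a : ℕ) :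
    1 + w ^ a + w ^ (2 * a) = if a % 3 = 0 then 3 else 0 := by
  have hw3 := cube_of_quad w hw
  have e : w ^ a = w ^ (a % 3) := pow_eq_pow_mod a hw3
  have e2 : w ^ (2 * a) = (w ^ (a % 3)) ^ 2 := by rw [← e]; ring
  rw [e2, e]
  have h3 : a % 3 < 3 := Nat.mod_lt _ (by norm_num)
  generalize a % 3 = k at h3
  interval_cases k
  · norm_num
  · simpa using hw
  · simp only [OfNat.ofNat_ne_zero, if_false]
    linear_combination (w ^ 2 - w + 1) * hw

theorem trace_XY {R : Type*} [CommRing R] (w : R) (a b : ℕ) :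
    trace (pX w ^ a * pY ^ b) = if b % 3 = 0 then 1 + w ^ a + w ^ (2 * a) else 0 := by
  rw [pY_pow_mod b, pX_pow]
  have h3 : b % 3 < 3 := Nat.mod_lt _ (by norm_num)
  generalize b % 3 = k at h3
  interval_cases k
  · simp [trace, Fin.sum_univ_three]
  · simp [trace, Fin.sum_univ_three, pY]
  · simp [trace, Fin.sum_univ_three, pY_sq]

theorem trace_h {R : Type*} [CommRing R] (w : R) (hw : 1 + w + w ^ 2 = 0) (v : V) :
    trace (h w v) = if v = 0 then 3 else 0 := by
  rw [h, trace_XY, sum_pow w hw]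
  obtain ⟨a, b⟩ := v
  have ha : a.val % 3 = a.val := Nat.mod_eq_of_lt (ZMod.val_lt a)
  have hb : b.val % 3 = b.val := Nat.mod_eq_of_lt (ZMod.val_lt b)
  simp only [ha, hb, ZMod.val_eq_zero, Prod.mk_eq_zero]
  by_cases h1 : a = 0 <;> by_cases h2 : b = 0 <;> simp [h1, h2]

theorem coord_h {R : Type*} [CommRing R] (w t : R) (hw : 1 + w + w ^ 2 = 0) (ht : t * 3 = 1)
    (v u : V) : coord w t v (h w u) = if v = u then 1 else 0 := by
  have hw3 := cube_of_quad w hw
  have e : trace (pY ^ (2 * v.2.val) * pX w ^ (2 * v.1.val) * h w u)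
      = trace (h w (u - v)) := by
    have e1 : trace (pY ^ (2 * v.2.val) * pX w ^ (2 * v.1.val) * h w u)
        = trace (pX w ^ (2 * v.1.val + u.1.val) * pY ^ (u.2.val + 2 * v.2.val)) := by
      rw [h, Matrix.mul_assoc, Matrix.trace_mul_comm, pow_add, pow_add]
      simp only [Matrix.mul_assoc]
    rw [e1, h_cast w hw3]
    congr 2
    have key : ∀ x y : ZMod 3, 2 * x + y = y - x := by decide
    have key' : ∀ x y : ZMod 3, y + 2 * x = y - x := by decide
    ext
    · simp [key]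
    · simp [key']
  rw [coord, e, trace_h w hw]
  by_cases hvu : v = u
  · simp [hvu, ht]
  · have : u - v ≠ 0 := fun h0 => hvu (sub_eq_zero.1 h0).symm
    simp [hvu, this]

theorem coord_add {R : Type*} [CommRing R] (w t : R) (v : V) (N M : M3 R) :
    coord w t v (N + M) = coord w t v N + coord w t v M := by
  simp only [coord, Matrix.mul_add, trace_add]
  ring

theorem coord_smul {R : Type*} [CommRing R] (w t : R) (v : V) (a : R) (N : M3 R) :
    coord w t v (a • N) = a * coord w t v N := by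
  simp only [coord, Matrix.mul_smul, trace_smul, smul_eq_mul]
  ring

theorem coord_map {R S : Type*} [CommRing R] [CommRing S] (f : R →+* S) (w t : R) (v : V)
    (N : M3 R) : coord (f w) (f t) v (N.map f) = f (coord w t v N) := by
  have h1 : (pX w).map f = pX (f w) := by
    ext i j
    fin_cases i <;> fin_cases j <;> simp [pX]
  have h2 : (pY : M3 R).map f = pY := by
    ext i j
    fin_cases i <;> fin_cases j <;> simp [pY]
  have h3 : ∀ M : M3 R, M.map f = f.mapMatrix M := fun M => rfl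
  have h4 : ∀ M : M3 R, trace (f.mapMatrix M) = f (trace M) := fun M => by
    simp [trace, Fin.sum_univ_three]
  rw [coord, coord, map_mul, ← h4, map_mul, map_mul, map_pow, map_pow, ← h3, ← h3, ← h3, h1, h2]

theorem coord_zero_eq {R : Type*} [CommRing R] (w t : R) (N : M3 R) :
    coord w t 0 N = t * trace N := by
  simp [coord]

theorem sum_Z3 {M : Type*} [AddCommMonoid M] (f : ZMod 3 → M) :
    ∑ a, f a = f 0 + f 1 + f 2 := Fin.sum_univ_three f

theorem coord_b0 {R : Type*} [CommRing R] (w : R) (a : ℕ) (N : M3 R) :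
    trace (pX w ^ a * N) = N 0 0 + w ^ a * N 1 1 + w ^ (2 * a) * N 2 2 := by
  rw [pX_pow]
  simp [trace, Fin.sum_univ_three, vecMul, dotProduct]

theorem coord_b2 {R : Type*} [CommRing R] (w : R) (a : ℕ) (N : M3 R) :
    trace (pY ^ 2 * pX w ^ a * N) = N 2 1 * w ^ (2 * a) + w ^ a * N 1 0 + N 0 2 := by
  rw [pX_pow, pY_sq]
  simp [trace, Fin.sum_univ_three, vecMul, dotProduct]
  ring

theorem coord_b1 {R : Type*} [CommRing R] (w : R) (a : ℕ) (N : M3 R) :
    trace (pY * pX w ^ a * N) = w ^ (2 * a) * N 2 0 + N 0 1 + w ^ a * N 1 2 := by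
  rw [pX_pow]
  simp [trace, Fin.sum_univ_three, vecMul, dotProduct, pY]

theorem coord_eq0 {R : Type*} [CommRing R] (w t : R) (a : ZMod 3) (N : M3 R) :
    coord w t (a, 0) N
      = t * (N 0 0 + w ^ (2 * a.val) * N 1 1 + w ^ (2 * (2 * a.val)) * N 2 2) := by
  rw [coord, ← coord_b0]
  simp

theorem coord_eq1 {R : Type*} [CommRing R] (w t : R) (a : ZMod 3) (N : M3 R) :
    coord w t (a, 1) N
      = t * (N 2 1 * w ^ (2 * (2 * a.val)) + w ^ (2 * a.val) * N 1 0 + N 0 2) := by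
  rw [coord, ← coord_b2]
  rfl

theorem coord_eq2 {R : Type*} [CommRing R] (w t : R) (a : ZMod 3) (N : M3 R) :
    coord w t (a, 2) N
      = t * (w ^ (2 * (2 * a.val)) * N 2 0 + N 0 1 + w ^ (2 * a.val) * N 1 2) := by
  have e : (pY : M3 R) ^ (2 * ((a, 2) : V).2.val) = pY := by
    have e1 : 2 * ((a, 2) : V).2.val = 4 := rfl
    rw [e1, pY_pow_mod]
    norm_num
  rw [coord, e, ← coord_b1]

theorem h_eq0 {R : Type*} [CommRing R] (w : R) (a : ZMod 3) :
    h w (a, 0) = !![1, 0, 0; 0, w ^ a.val, 0; 0, 0, w ^ (2 * a.val)] := by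
  rw [← pX_pow, h]
  simp

theorem h_eq1 {R : Type*} [CommRing R] (w : R) (a : ZMod 3) :
    h w (a, 1) = !![0, 0, 1; w ^ a.val, 0, 0; 0, w ^ (2 * a.val), 0] := by
  have v1 : (1 : ZMod 3).val = 1 := rfl
  rw [h, pX_pow]
  ext i j
  fin_cases i <;> fin_cases j <;>
    simp [pY, v1]

theorem h_eq2 {R : Type*} [CommRing R] (w : R) (a : ZMod 3) :
    h w (a, 2) = !![0, 1, 0; 0, 0, w ^ a.val; w ^ (2 * a.val), 0, 0] := by
  have v2 : (2 : ZMod 3).val = 2 := rfl
  rw [h, pX_pow]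
  ext i j
  fin_cases i <;> fin_cases j <;>
    simp [pY_sq, v2]

theorem sum_coord {R : Type*} [CommRing R] (w t : R) (hw : 1 + w + w ^ 2 = 0) (ht : t * 3 = 1)
    (N : M3 R) : N = ∑ v : V, coord w t v N • h w v := by
  have hw3 := cube_of_quad w hw
  have v0 : (0 : ZMod 3).val = 0 := rfl
  have v1 : (1 : ZMod 3).val = 1 := rfl
  have v2 : (2 : ZMod 3).val = 2 := rfl
  rw [Fintype.sum_prod_type, sum_Z3]
  simp only [sum_Z3, coord_eq0, coord_eq1, coord_eq2, h_eq0, h_eq1, h_eq2, v0, v1, v2]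
  ext i j
  have E2 : 1 + w ^ 2 + w ^ 4 = 0 := by simpa using sum_pow w hw 2
  have E4 : 1 + w ^ 4 + w ^ 8 = 0 := by simpa using sum_pow w hw 4
  have E5 : 1 + w ^ 5 + w ^ 10 = 0 := by simpa using sum_pow w hw 5
  fin_cases i <;> fin_cases j <;> simp
  · linear_combination (-N 0 0) * ht - t * N 1 1 * E2 - t * N 2 2 * E4
  · linear_combination (-N 0 1) * ht - t * N 1 2 * E2 - t * N 2 0 * E4
  · linear_combination (-N 0 2) * ht - t * N 1 0 * E2 - t * N 2 1 * E4
  · linear_combination (-N 1 0) * ht - t * N 1 0 * ((w ^ 3 + 2)) * hw3 - t * N 0 2 * hw - t * N 2 1 * E5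
  · linear_combination (-N 1 1) * ht - t * N 1 1 * ((w ^ 3 + 2)) * hw3 - t * N 0 0 * hw - t * N 2 2 * E5
  · linear_combination (-N 1 2) * ht - t * N 1 2 * ((w ^ 3 + 2)) * hw3 - t * N 0 1 * hw - t * N 2 0 * E5
  · linear_combination (-N 2 0) * ht - t * N 2 0 * ((w ^ 3 + 1) * (w ^ 6 + 2)) * hw3 - t * N 0 1 * E2 - t * N 1 2 * E4
  · linear_combination (-N 2 1) * ht - t * N 2 1 * ((w ^ 3 + 1) * (w ^ 6 + 2)) * hw3 - t * N 0 2 * E2 - t * N 1 0 * E4
  · linear_combination (-N 2 2) * ht - t * N 2 2 * ((w ^ 3 + 1) * (w ^ 6 + 2)) * hw3 - t * N 0 0 * E2 - t * N 1 1 * E4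

end Pool.Agent.H24ML
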