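import Pool.Agent.Helper24.ML.Main

/-! Multilinear polynomials which are not identities of the upper triangular `2 x 2` matrices
have a slot of rank at least six. -/

open Matrix

namespace Pool.Agent.H24ML

universe u

section UT

variable {K : Type u} [Field K] {m : ℕ}

/-- value of the multilinear polynomial `∑ σ, c σ x_{σ 0} ⋯ x_{σ (m-1)}` on square matrices -/
noncomputable def ev {n : ℕ} (c : Equiv.Perm (Fin m) → K)
    (x : Fin m → Matrix (Fin n) (Fin n) K) : Matrix (Fin n) (Fin n) K :=
  ∑ σ : Equiv.Perm (Fin m), c σ • (List.ofFn fun k => x (σ k)).prod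

theorem ev_eq (c : Equiv.Perm (Fin m) → K) (x : Fin m → M3 K) : evalML K c x = ev c x := by
  rw [evalML_apply]; rfl

/-- weights -/
def wgt {R : Type*} [CommRing R] {n : ℕ} (k0 : Fin n) (a b : Fin n → R) : R :=
  ∏ t, if t < k0 then a t else if t = k0 then 1 else b t

theorem wgt_zero {R : Type*} [CommRing R] {n : ℕ} (a b : Fin (n + 1) → R) :
    wgt 0 a b = ∏ t : Fin n, b t.succ := by
  rw [wgt, Fin.prod_univ_succ]
  simp

theorem wgt_succ {R : Type*} [CommRing R] {n : ℕ} (k0 : Fin n) (a b : Fin (n + 1) → R) :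
    wgt k0.succ a b = a 0 * wgt k0 (fun t => a t.succ) (fun t => b t.succ) := by
  rw [wgt, Fin.prod_univ_succ, wgt]
  simp [Fin.succ_inj]

/-- product of upper triangular `2 x 2` matrices -/
theorem prod_ut {n : ℕ} (a b u : Fin n → K) :
    (List.ofFn fun t => (!![a t, u t; 0, b t] : Matrix (Fin 2) (Fin 2) K)).prod
      = !![∏ t, a t, ∑ k, u k * wgt k a b; 0, ∏ t, b t] := by
  induction n with
  | zero => simp [Matrix.one_fin_two]
  | succ n ih =>
    rw [List.ofFn_succ, List.prod_cons, ih, Matrix.mul_fin_two, Fin.prod_univ_succ,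
      Fin.prod_univ_succ, Fin.sum_univ_succ, wgt_zero]
    congr 1
    ext i j
    fin_cases i <;> fin_cases j
    · simp
    · simp only [wgt_succ, Finset.mul_sum]
      simp
      rw [add_comm]
      congr 1
      refine Finset.sum_congr rfl fun k _ => ?_
      ring
    · simp
    · simp

theorem prod_diag {N n : ℕ} (f : Fin n → Fin N → K) :
    (List.ofFn fun t => diagonal (f t)).prod = diagonal (fun k => ∏ t, f t k) := by
  induction n with
  | zero => simp
  | succ n ih =>
    rw [List.ofFn_succ, List.prod_cons, ih, diagonal_mul_diagonal]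
    congr 1
    funext k
    rw [Fin.prod_univ_succ]

theorem diag_single {N : ℕ} (d : Fin N → K) (k l : Fin N) (a : K) :
    diagonal d * single k l a = d k • single k l a := by
  ext i j
  by_cases hi : i = k
  · simp [diagonal_mul, single_apply, hi]
  · simp [diagonal_mul, single_apply, Ne.symm hi]

theorem single_diag {N : ℕ} (d : Fin N → K) (k l : Fin N) (a : K) :
    single k l a * diagonal d = d l • single k l a := by
  ext i j
  by_cases hj : j = l
  · simp [mul_diagonal, single_apply, hj, mul_comm]
  · simp [mul_diagonal, single_apply, Ne.symm hj]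

theorem prod_slot {N n : ℕ} (f : Fin n → Fin N → K) (k l : Fin N) (k0 : Fin n) :
    (List.ofFn fun t => if t = k0 then single k l (1 : K) else diagonal (f t)).prod
      = wgt k0 (fun t => f t k) (fun t => f t l) • single k l 1 := by
  induction n with
  | zero => exact k0.elim0
  | succ n ih =>
    rw [List.ofFn_succ, List.prod_cons]
    refine Fin.cases ?_ (fun k1 => ?_) k0
    · have e1 : (fun t : Fin n => if t.succ = 0 then single k l (1 : K)
          else diagonal (f t.succ)) = fun t => diagonal (f t.succ) := by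
        funext t; rw [if_neg (Fin.succ_ne_zero t)]
      rw [e1, prod_diag, if_pos rfl, single_diag, wgt_zero]
    · have e1 : (fun t : Fin n => if t.succ = k1.succ then single k l (1 : K)
          else diagonal (f t.succ)) = fun t => if t = k1 then single k l (1 : K)
          else diagonal (f t.succ) := by
        funext t; simp only [Fin.succ_inj]
      rw [e1, ih (fun t => f t.succ) k1, if_neg (Fin.succ_ne_zero k1).symm, Matrix.mul_smul,
        diag_single, smul_smul, wgt_succ, mul_comm]

/-- the polynomials `g_i` -/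
noncomputable def gg {R : Type*} [CommRing R] [Algebra K R] (c : Equiv.Perm (Fin m) → K)
    (i : Fin m) (a b : Fin m → R) : R :=
  ∑ σ : Equiv.Perm (Fin m), algebraMap K R (c σ) *
    wgt (σ.symm i) (fun t => a (σ t)) (fun t => b (σ t))

theorem gg_map {R S : Type*} [CommRing R] [CommRing S] [Algebra K R] [Algebra K S]
    (f : R →ₐ[K] S) (c : Equiv.Perm (Fin m) → K) (i : Fin m) (a b : Fin m → R) :
    f (gg c i a b) = gg c i (fun j => f (a j)) (fun j => f (b j)) := by
  rw [gg, map_sum, gg]
  refine Finset.sum_congr rfl fun σ _ => ?_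
  rw [map_mul, AlgHom.commutes, wgt, map_prod, wgt]
  congr 1
  refine Finset.prod_congr rfl fun t _ => ?_
  split_ifs <;> simp

theorem ev_slot {N : ℕ} (c : Equiv.Perm (Fin m) → K) (i : Fin m) (f : Fin m → Fin N → K)
    (k l : Fin N) :
    ev c (Function.update (fun j => diagonal (f j)) i (single k l 1))
      = gg c i (fun j => f j k) (fun j => f j l) • single k l 1 := by
  rw [ev, gg, Finset.sum_smul]
  refine Finset.sum_congr rfl fun σ _ => ?_
  have e1 : (fun t => Function.update (fun j => diagonal (f j)) i (single k l (1 : K)) (σ t))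
      = fun t => if t = σ.symm i then single k l (1 : K) else diagonal (f (σ t)) := by
    funext t
    by_cases ht : t = σ.symm i
    · rw [if_pos ht, ht, Equiv.apply_symm_apply, Function.update_self]
    · rw [if_neg ht, Function.update_of_ne]
      intro hh
      exact ht (by rw [← hh, Equiv.symm_apply_apply])
  rw [e1, prod_slot (fun t => f (σ t)) k l (σ.symm i), smul_smul]
  rfl

theorem ev_ut (c : Equiv.Perm (Fin m) → K) (a b u : Fin m → K) :
    ev c (fun j => (!![a j, u j; 0, b j] : Matrix (Fin 2) (Fin 2) K))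
      = !![(∑ σ, c σ) * ∏ j, a j, ∑ i, u i * gg c i a b; 0, (∑ σ, c σ) * ∏ j, b j] := by
  have e1 : ∀ σ : Equiv.Perm (Fin m),
      (List.ofFn fun t => (!![a (σ t), u (σ t); 0, b (σ t)] : Matrix (Fin 2) (Fin 2) K)).prod
      = !![∏ j, a j, ∑ i, u i * wgt (σ.symm i) (fun t => a (σ t)) (fun t => b (σ t));
          0, ∏ j, b j] := by
    intro σ
    rw [prod_ut (fun t => a (σ t)) (fun t => b (σ t)) (fun t => u (σ t)),
      Equiv.prod_comp σ a, Equiv.prod_comp σ b]
    rw [← Equiv.sum_comp σ.symm
      (fun k => u (σ k) * wgt k (fun t => a (σ t)) (fun t => b (σ t)))]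
    simp
  rw [ev]
  simp only [e1]
  ext i j
  rw [Matrix.sum_apply]
  fin_cases i <;> fin_cases j
  · simp [Finset.sum_mul]
  · simp only [Matrix.smul_apply, smul_eq_mul, gg]
    simp only [Finset.mul_sum]
    simp
    rw [Finset.sum_comm]
    refine Finset.sum_congr rfl fun i _ => ?_
    rw [Finset.mul_sum]
    refine Finset.sum_congr rfl fun σ _ => ?_
    ring
  · simp
  · simp [Finset.sum_mul]

/-- if `p` is not an identity of the upper triangular matrices then some `g_i` is not zero -/
theorem exists_gg (hm : 0 < m) (c : Equiv.Perm (Fin m) → K)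
    (y : Fin m → Matrix (Fin 2) (Fin 2) K) (hy : ∀ j, y j 1 0 = 0) (hy' : ev c y ≠ 0) :
    ∃ (i : Fin m) (a b : Fin m → K), gg c i a b ≠ 0 := by
  by_contra hcon
  push Not at hcon
  apply hy'
  have e1 : y = fun j => !![y j 0 0, y j 0 1; 0, y j 1 1] := by
    funext j
    ext k l
    fin_cases k <;> fin_cases l <;> simp [hy j]
  have hs : ∑ σ, c σ = 0 := by
    have := hcon ⟨0, hm⟩ 1 1
    simpa [gg, wgt] using this
  rw [e1, ev_ut, hs]
  simp [hcon]
  ext k l
  fin_cases k <;> fin_cases l <;> simp

theorem exists_generic [Infinite K] (c : Equiv.Perm (Fin m) → K) (i : Fin m) (a b : Fin m → K)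
    (hab : gg c i a b ≠ 0) :
    ∃ d : Fin m → Fin 3 → K, ∀ k l : Fin 3, k ≠ l →
      gg c i (fun j => d j k) (fun j => d j l) ≠ 0 := by
  classical
  set G : Fin 3 → Fin 3 → MvPolynomial (Fin m × Fin 3) K := fun k l =>
    gg c i (fun j => MvPolynomial.X (j, k)) (fun j => MvPolynomial.X (j, l)) with hG
  have hev : ∀ (d : Fin m × Fin 3 → K) (k l : Fin 3), MvPolynomial.eval d (G k l)
      = gg c i (fun j => d (j, k)) (fun j => d (j, l)) := by
    intro d k l
    have := gg_map (MvPolynomial.aeval d) c i
      (fun j => MvPolynomial.X (j, k)) (fun j => MvPolynomial.X (j, l))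
    simp only [MvPolynomial.aeval_X] at this
    rw [← this]
    rfl
  have hne : ∀ k l : Fin 3, k ≠ l → G k l ≠ 0 := by
    intro k l hkl h0
    have := hev (fun jk => if jk.2 = k then a jk.1 else b jk.1) k l
    rw [h0, map_zero] at this
    simp only [if_true, if_neg (Ne.symm hkl)] at this
    exact hab this.symm
  have hprod : (∏ kl ∈ (Finset.univ : Finset (Fin 3 × Fin 3)).filter (fun kl => kl.1 ≠ kl.2),
      G kl.1 kl.2) ≠ 0 := by
    rw [Finset.prod_ne_zero_iff]
    intro kl hkl
    exact hne _ _ (Finset.mem_filter.1 hkl).2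
  obtain ⟨d, hd⟩ : ∃ d : Fin m × Fin 3 → K, MvPolynomial.eval d
      (∏ kl ∈ (Finset.univ : Finset (Fin 3 × Fin 3)).filter (fun kl => kl.1 ≠ kl.2),
      G kl.1 kl.2) ≠ 0 := by
    by_contra hcon
    push Not at hcon
    apply hprod
    apply MvPolynomial.funext
    intro x
    rw [hcon x, map_zero]
  refine ⟨fun j k => d (j, k), fun k l hkl => ?_⟩
  rw [map_prod, Finset.prod_ne_zero_iff] at hd
  have := hd (k, l) (Finset.mem_filter.2 ⟨Finset.mem_univ _, hkl⟩)
  rwa [hev] at this

theorem exists_six [Infinite K] (hm : 0 < m) (c : Equiv.Perm (Fin m) → K)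
    (y : Fin m → Matrix (Fin 2) (Fin 2) K) (hy : ∀ j, y j 1 0 = 0) (hy' : ev c y ≠ 0) :
    ∃ (i : Fin m) (a : Fin m → M3 K) (z : Fin 6 → M3 K),
      LinearIndependent K (fun k => ev c (Function.update a i (z k))) := by
  obtain ⟨i, a, b, hab⟩ := exists_gg hm c y hy hy'
  obtain ⟨d, hd⟩ := exists_generic c i a b hab
  set kk : Fin 6 → Fin 3 := ![0, 0, 1, 1, 2, 2] with hkk
  set ll : Fin 6 → Fin 3 := ![1, 2, 0, 2, 0, 1] with hll
  refine ⟨i, fun j => diagonal (d j), fun r => single (kk r) (ll r) 1, ?_⟩
  simp only [ev_slot]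
  rw [Fintype.linearIndependent_iff]
  intro r hr
  have h01 := congrFun (congrFun hr 0) 1
  have h02 := congrFun (congrFun hr 0) 2
  have h10 := congrFun (congrFun hr 1) 0
  have h12 := congrFun (congrFun hr 1) 2
  have h20 := congrFun (congrFun hr 2) 0
  have h21 := congrFun (congrFun hr 2) 1
  simp [Fin.sum_univ_succ, hkk, hll, single_apply, Matrix.sum_apply] at h01 h02 h10 h12 h20 h21
  intro s
  fin_cases s
  · exact h01.resolve_right (hd 0 1 (by decide))
  · exact h02.resolve_right (hd 0 2 (by decide))
  · exact h10.resolve_right (hd 1 0 (by decide))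
  · exact h12.resolve_right (hd 1 2 (by decide))
  · exact h20.resolve_right (hd 2 0 (by decide))
  · exact h21.resolve_right (hd 2 1 (by decide))

end UT

section final

variable {K : Type u} [Field K] {m : ℕ}

theorem six_of_indep (c : Equiv.Perm (Fin m) → K) (i : Fin m) (a : Fin m → M3 K)
    (z : Fin 6 → M3 K) (hz : LinearIndependent K (fun k => ev c (Function.update a i (z k)))) :
    6 ≤ Module.finrank K (LinearMap.range (slot K c i a)) := by
  have h1 := finrank_span_eq_card hz
  rw [Fintype.card_fin] at h1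
  rw [← h1]
  apply Submodule.finrank_mono
  rw [Submodule.span_le]
  rintro _ ⟨k, rfl⟩
  exact ⟨z k, by rw [slot_apply, ev_eq]⟩

end final

end Pool.Agent.H24ML
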